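import Mathlib

/-!
# Capacity of forbidden difference patterns: definitions

Words over the three letters minus, zero, plus are lists over `SignType`
(`-1`, `0`, `1`).
-/

set_option autoImplicit false

namespace Pool.Agent.H75

open Filter Topology

/-- The difference letter of two bits: `1 - 0 = +`, `0 - 1 = -`, and `0` for equal bits. -/
def bitDiff (a b : Bool) : SignType :=
  if a = b then 0 else if a = true then 1 else -1

/-- The difference word `u - v` of two binary words of length `t`. -/
def wordDiff {t : ℕ} (u v : Fin t → Bool) : List SignType :=
  List.ofFn fun i => bitDiff (u i) (v i)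

/-- The set `W` of binary words of length `t` avoids the patterns in `D`: no pattern of `D` is a
factor (block of consecutive letters) of the difference of two distinct words of `W`. -/
def Avoids (D : List (List SignType)) {t : ℕ} (W : Finset (Fin t → Bool)) : Prop :=
  ∀ u ∈ W, ∀ v ∈ W, u ≠ v → ∀ d ∈ D, ¬ d <:+: wordDiff u v

/-- `codeSize D t` is the largest size of a set of binary words of length `t` avoiding `D`. -/
noncomputable def codeSize (D : List (List SignType)) (t : ℕ) : ℕ :=
  sSup {m : ℕ | ∃ W : Finset (Fin t → Bool), Avoids D W ∧ W.card = m}

/-- The capacity: the limit of `log₂ (codeSize D t) / t`. -/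
noncomputable def capacity (D : List (List SignType)) : ℝ :=
  limUnder atTop fun t : ℕ => Real.logb 2 (codeSize D t) / t

end Pool.Agent.H75
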