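import Mathlib
import Pool.Agent.H75.CapDefs

/-!
# Capacity of forbidden difference patterns: basic facts
-/

set_option autoImplicit false

namespace Pool.Agent.H75

open Filter Topology

variable {D : List (List SignType)}

theorem wordDiff_length {t : ℕ} (u v : Fin t → Bool) : (wordDiff u v).length = t := by
  simp [wordDiff]

theorem getElem_wordDiff {t : ℕ} (u v : Fin t → Bool) (i : ℕ) (h : i < (wordDiff u v).length)
    (h' : i < t) : (wordDiff u v)[i] = bitDiff (u ⟨i, h'⟩) (v ⟨i, h'⟩) :=
  List.getElem_ofFn _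

theorem infix_wordDiff_iff {t : ℕ} (u v : Fin t → Bool) (d : List SignType) :
    d <:+: wordDiff u v ↔ ∃ o : ℕ, ∃ h : o + d.length ≤ t, ∀ k (hk : k < d.length),
      d[k] = bitDiff (u ⟨o + k, by omega⟩) (v ⟨o + k, by omega⟩) := by
  rw [List.infix_iff_getElem?]
  constructor
  · rintro ⟨o, ho, H⟩
    rw [wordDiff_length] at ho
    refine ⟨o, by omega, fun k hk => ?_⟩
    have := H k hk
    have hlt : k + o < (wordDiff u v).length := by rw [wordDiff_length]; omega
    rw [List.getElem?_eq_getElem hlt] at this
    simp only [Option.some.injEq] at this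
    rw [← this, getElem_wordDiff u v (k + o) hlt (by omega)]
    simp only [Nat.add_comm k o]
  · rintro ⟨o, ho, H⟩
    refine ⟨o, by rw [wordDiff_length]; omega, fun k hk => ?_⟩
    have hlt : k + o < (wordDiff u v).length := by rw [wordDiff_length]; omega
    rw [List.getElem?_eq_getElem hlt, H k hk, getElem_wordDiff u v (k + o) hlt (by omega)]
    simp only [Nat.add_comm k o]

theorem avoids_mono {t : ℕ} {W W' : Finset (Fin t → Bool)} (h : W' ⊆ W) (hW : Avoids D W) :
    Avoids D W' :=
  fun u hu v hv huv d hd => hW u (h hu) v (h hv) huv d hd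

theorem bddAbove_codeSize (D : List (List SignType)) (t : ℕ) :
    BddAbove {m : ℕ | ∃ W : Finset (Fin t → Bool), Avoids D W ∧ W.card = m} := by
  refine ⟨Fintype.card (Fin t → Bool), ?_⟩
  rintro m ⟨W, -, rfl⟩
  exact Finset.card_le_univ W

theorem card_le_codeSize {t : ℕ} {W : Finset (Fin t → Bool)} (hW : Avoids D W) :
    W.card ≤ codeSize D t :=
  le_csSup (bddAbove_codeSize D t) ⟨W, hW, rfl⟩

theorem exists_codeSize (D : List (List SignType)) (t : ℕ) :
    ∃ W : Finset (Fin t → Bool), Avoids D W ∧ W.card = codeSize D t := by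
  have := Nat.sSup_mem (s := {m : ℕ | ∃ W : Finset (Fin t → Bool), Avoids D W ∧ W.card = m})
    ⟨0, ∅, by intro u hu; simp at hu, rfl⟩ (bddAbove_codeSize D t)
  exact this

theorem codeSize_le {t B : ℕ} (h : ∀ W : Finset (Fin t → Bool), Avoids D W → W.card ≤ B) :
    codeSize D t ≤ B := by
  obtain ⟨W, hW, hc⟩ := exists_codeSize D t
  rw [← hc]; exact h W hW

theorem one_le_codeSize (D : List (List SignType)) (t : ℕ) : 1 ≤ codeSize D t := by
  have : Avoids D ({fun _ => false} : Finset (Fin t → Bool)) := by
    intro u hu v hv huv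
    simp only [Finset.mem_singleton] at hu hv
    exact absurd (hu.trans hv.symm) huv
  simpa using card_le_codeSize this

theorem wordDiff_append {s t : ℕ} (u v : Fin (s + t) → Bool) :
    wordDiff u v = wordDiff (fun i => u (Fin.castAdd t i)) (fun i => v (Fin.castAdd t i)) ++
      wordDiff (fun i => u (Fin.natAdd s i)) (fun i => v (Fin.natAdd s i)) := by
  unfold wordDiff
  rw [← List.ofFn_fin_append]
  congr 1
  ext i
  refine Fin.addCases (fun j => ?_) (fun j => ?_) i <;> simp

theorem codeSize_add_le (D : List (List SignType)) (s t : ℕ) :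
    codeSize D (s + t) ≤ codeSize D s * codeSize D t := by
  classical
  refine codeSize_le fun W hW => ?_
  let π₁ : (Fin (s + t) → Bool) → (Fin s → Bool) := fun u i => u (Fin.castAdd t i)
  let π₂ : (Fin (s + t) → Bool) → (Fin t → Bool) := fun u i => u (Fin.natAdd s i)
  have key : ∀ u v : Fin (s + t) → Bool, wordDiff u v = wordDiff (π₁ u) (π₁ v) ++
      wordDiff (π₂ u) (π₂ v) := fun u v => wordDiff_append u v
  have hinj : ∀ u v : Fin (s + t) → Bool, π₁ u = π₁ v → π₂ u = π₂ v → u = v := by
    intro u v h₁ h₂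
    ext i
    refine Fin.addCases (fun j => ?_) (fun j => ?_) i
    · exact congrFun h₁ j
    · exact congrFun h₂ j
  have h1 : Avoids D (W.image π₁) := by
    intro u hu v hv huv d hd hdf
    rw [Finset.mem_image] at hu hv
    obtain ⟨u', hu', rfl⟩ := hu
    obtain ⟨v', hv', rfl⟩ := hv
    have hne : u' ≠ v' := fun h => huv (by rw [h])
    refine hW u' hu' v' hv' hne d hd ?_
    rw [key]
    exact hdf.trans (List.prefix_append _ _).isInfix
  have h2 : ∀ b ∈ W.image π₁, (W.filter fun a => π₁ a = b).card ≤ codeSize D t := by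
    intro b _
    have hI : Set.InjOn π₂ ((W.filter fun a => π₁ a = b : Finset (Fin (s + t) → Bool)) :
        Set (Fin (s + t) → Bool)) := by
      intro u hu v hv huv
      simp only [Finset.coe_filter, Set.mem_ofPred_eq] at hu hv
      exact hinj u v (hu.2.trans hv.2.symm) huv
    rw [← Finset.card_image_of_injOn hI]
    refine card_le_codeSize ?_
    intro u hu v hv huv d hd hdf
    rw [Finset.mem_image] at hu hv
    obtain ⟨u', hu', rfl⟩ := hu
    obtain ⟨v', hv', rfl⟩ := hv
    have hne : u' ≠ v' := fun h => huv (by rw [h])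
    rw [Finset.mem_filter] at hu' hv'
    refine hW u' hu'.1 v' hv'.1 hne d hd ?_
    rw [key]
    exact hdf.trans (List.suffix_append _ _).isInfix
  have h3 := Finset.card_le_mul_card_image W _ h2
  calc W.card ≤ codeSize D t * (W.image π₁).card := h3
    _ ≤ codeSize D t * codeSize D s := Nat.mul_le_mul_left _ (card_le_codeSize h1)
    _ = codeSize D s * codeSize D t := Nat.mul_comm _ _

theorem subadditive_log_codeSize (D : List (List SignType)) :
    Subadditive fun t : ℕ => Real.logb 2 (codeSize D t) := by
  intro s t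
  have hs : (0 : ℝ) < codeSize D s := by exact_mod_cast one_le_codeSize D s
  have ht : (0 : ℝ) < codeSize D t := by exact_mod_cast one_le_codeSize D t
  have hst : (0 : ℝ) < codeSize D (s + t) := by exact_mod_cast one_le_codeSize D (s + t)
  rw [← Real.logb_mul hs.ne' ht.ne']
  refine Real.logb_le_logb_of_le (by norm_num) hst ?_
  exact_mod_cast codeSize_add_le D s t

theorem bddBelow_log_codeSize (D : List (List SignType)) :
    BddBelow (Set.range fun t : ℕ => Real.logb 2 (codeSize D t) / t) := by
  refine ⟨0, ?_⟩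
  rintro x ⟨t, rfl⟩
  have : (1 : ℝ) ≤ codeSize D t := by exact_mod_cast one_le_codeSize D t
  have h2 : 0 ≤ Real.logb 2 (codeSize D t) := Real.logb_nonneg (by norm_num) this
  positivity

/-- The limit defining the capacity exists. -/
theorem tendsto_capacity (D : List (List SignType)) :
    Tendsto (fun t : ℕ => Real.logb 2 (codeSize D t) / t) atTop (𝓝 (capacity D)) := by
  have h := (subadditive_log_codeSize D).tendsto_lim (bddBelow_log_codeSize D)
  unfold capacity
  rwa [h.limUnder_eq]

theorem capacity_le_of_codeSize_le {n B : ℕ} (hn : n ≠ 0) (h : codeSize D n ≤ B) :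
    capacity D ≤ Real.logb 2 B / n := by
  have h0 : capacity D = (subadditive_log_codeSize D).lim :=
    tendsto_nhds_unique (tendsto_capacity D)
      ((subadditive_log_codeSize D).tendsto_lim (bddBelow_log_codeSize D))
  have h1 := (subadditive_log_codeSize D).lim_le_div (bddBelow_log_codeSize D) hn
  rw [h0]
  refine h1.trans ?_
  have hs : (0 : ℝ) < codeSize D n := by exact_mod_cast one_le_codeSize D n
  have : Real.logb 2 (codeSize D n) ≤ Real.logb 2 B :=
    Real.logb_le_logb_of_le (by norm_num) hs (by exact_mod_cast h)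
  gcongr

theorem le_capacity_of_pow_le {P B : ℕ} (hP : P ≠ 0) (hB : 1 ≤ B)
    (h : ∀ q : ℕ, B ^ q ≤ codeSize D (q * P)) :
    Real.logb 2 B / P ≤ capacity D := by
  have h1 : Tendsto (fun q : ℕ => q * P) atTop atTop :=
    Filter.tendsto_id.atTop_mul_const' (Nat.pos_of_ne_zero hP)
  have h2 := (tendsto_capacity D).comp h1
  refine ge_of_tendsto h2 ?_
  filter_upwards [eventually_gt_atTop 0] with q hq
  simp only [Function.comp]
  have hqr : (0 : ℝ) < q := by exact_mod_cast hq
  have hPr : (0 : ℝ) < P := by exact_mod_cast Nat.pos_of_ne_zero hP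
  have hBr : (0 : ℝ) < B := by exact_mod_cast hB
  have h3 : (q : ℝ) * Real.logb 2 B ≤ Real.logb 2 (codeSize D (q * P)) := by
    rw [← Real.logb_pow]
    refine Real.logb_le_logb_of_le (by norm_num) (by positivity) ?_
    exact_mod_cast h q
  rw [div_le_div_iff₀ hPr (by positivity)]
  push_cast
  nlinarith

end Pool.Agent.H75
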