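import Mathlib

/-!
# Combinatorial lemmas for the capacity reduction

* `rook`: pairs pairwise sharing a coordinate lie in a row or in a column;
* `family_bound`: set families with pairwise symmetric differences of size at most two;
* `b3_clique`: sets whose differences come from edges of a graph placed on a `B₃` set.
-/

set_option autoImplicit false

namespace Pool.Agent.H75

theorem rook {ι α β : Type*} (S : Set ι) (f : ι → α) (g : ι → β)
    (h : ∀ x ∈ S, ∀ y ∈ S, x ≠ y → f x = f y ∨ g x = g y) :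
    (∀ x ∈ S, ∀ y ∈ S, f x = f y) ∨ (∀ x ∈ S, ∀ y ∈ S, g x = g y) := by
  by_cases h1 : ∀ x ∈ S, ∀ y ∈ S, f x = f y
  · exact Or.inl h1
  · right
    push Not at h1
    obtain ⟨x, hx, y, hy, hxy⟩ := h1
    have hne : x ≠ y := fun h => hxy (by rw [h])
    have hgxy : g x = g y := (h x hx y hy hne).resolve_left hxy
    have key : ∀ z ∈ S, g z = g x := by
      intro z hz
      by_cases hzx : z = x
      · rw [hzx]
      · rcases h z hz x hx hzx with h2 | h2
        · have hzy : z ≠ y := by
            rintro rfl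
            exact hxy h2.symm
          rcases h z hz y hy hzy with h3 | h3
          · exact absurd (h2.symm.trans h3) hxy
          · rw [h3, hgxy]
        · exact h2
    intro z hz w hw
    rw [key z hz, key w hw]

/-- A family of finite sets, any two of which differ by exchanging one element for another
related one, is no larger than some set of pairwise related elements. -/
theorem level_bound (R : ℕ → ℕ → Prop) (hR : ∀ x y, R x y → R y x) (F : Finset (Finset ℕ))
    (h : ∀ A ∈ F, ∀ B ∈ F, A ≠ B → ∃ x y, A \ B = {x} ∧ B \ A = {y} ∧ R x y) :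
    ∃ X : Finset ℕ, (∀ x ∈ X, ∀ y ∈ X, x ≠ y → R x y) ∧ F.card ≤ X.card := by
  classical
  rcases F.eq_empty_or_nonempty with rfl | ⟨A, hA⟩
  · exact ⟨∅, by simp, by simp⟩
  · have h1 : ∀ B ∈ F.erase A, ∃ x y, A \ B = {x} ∧ B \ A = {y} ∧ R x y := by
      intro B hB
      rw [Finset.mem_erase] at hB
      exact h A hA B hB.2 (Ne.symm hB.1)
    choose! f g hf hg hfg using h1
    have memA : ∀ B ∈ F.erase A, f B ∈ A := fun B hB => by
      have : f B ∈ A \ B := by rw [hf B hB]; simp
      exact (Finset.mem_sdiff.1 this).1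
    have fnot : ∀ B ∈ F.erase A, f B ∉ B := fun B hB => by
      have : f B ∈ A \ B := by rw [hf B hB]; simp
      exact (Finset.mem_sdiff.1 this).2
    have gmem : ∀ B ∈ F.erase A, g B ∈ B := fun B hB => by
      have : g B ∈ B \ A := by rw [hg B hB]; simp
      exact (Finset.mem_sdiff.1 this).1
    have gnotA : ∀ B ∈ F.erase A, g B ∉ A := fun B hB => by
      have : g B ∈ B \ A := by rw [hg B hB]; simp
      exact (Finset.mem_sdiff.1 this).2
    have memiff : ∀ B ∈ F.erase A, ∀ z, z ∈ B ↔ (z ∈ A ∧ z ≠ f B) ∨ z = g B := by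
      intro B hB z
      constructor
      · intro hz
        by_cases hzA : z ∈ A
        · left; exact ⟨hzA, fun hh => fnot B hB (hh ▸ hz)⟩
        · right
          have : z ∈ B \ A := Finset.mem_sdiff.2 ⟨hz, hzA⟩
          rw [hg B hB] at this; simpa using this
      · rintro (⟨hzA, hne⟩ | rfl)
        · by_contra hz
          have : z ∈ A \ B := Finset.mem_sdiff.2 ⟨hzA, hz⟩
          rw [hf B hB] at this; exact hne (by simpa using this)
        · exact gmem B hB
    have inj : ∀ B ∈ F.erase A, ∀ C ∈ F.erase A, f B = f C → g B = g C → B = C := by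
      intro B hB C hC h2 h3
      ext z
      rw [memiff B hB, memiff C hC, h2, h3]
    have share : ∀ B ∈ ((F.erase A : Finset (Finset ℕ)) : Set (Finset ℕ)),
        ∀ C ∈ ((F.erase A : Finset (Finset ℕ)) : Set (Finset ℕ)), B ≠ C →
        f B = f C ∨ g B = g C := by
      intro B hB C hC hBC
      rw [Finset.mem_coe] at hB hC
      by_contra hcon
      push Not at hcon
      obtain ⟨hfne, hgne⟩ := hcon
      obtain ⟨x, y, hx, hy, -⟩ := h B (Finset.mem_of_mem_erase hB) C (Finset.mem_of_mem_erase hC) hBC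
      have m1 : f C ∈ B \ C := by
        rw [Finset.mem_sdiff]
        exact ⟨(memiff B hB _).2 (Or.inl ⟨memA C hC, Ne.symm hfne⟩), fnot C hC⟩
      have m2 : g B ∈ B \ C := by
        rw [Finset.mem_sdiff]
        refine ⟨gmem B hB, fun hh => ?_⟩
        rcases (memiff C hC _).1 hh with h4 | h4
        · exact gnotA B hB h4.1
        · exact hgne h4
      rw [hx, Finset.mem_singleton] at m1 m2
      exact gnotA B hB (m2 ▸ m1 ▸ memA C hC)
    have exch : ∀ B ∈ F.erase A, ∀ C ∈ F.erase A, B ≠ C → f B = f C → R (g B) (g C) := by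
      intro B hB C hC hBC hff
      have hgne : g B ≠ g C := fun hh => hBC (inj B hB C hC hff hh)
      obtain ⟨x, y, hx, hy, hxy⟩ := h B (Finset.mem_of_mem_erase hB) C (Finset.mem_of_mem_erase hC) hBC
      have m1 : g B ∈ B \ C := by
        rw [Finset.mem_sdiff]
        refine ⟨gmem B hB, fun hh => ?_⟩
        rcases (memiff C hC _).1 hh with h4 | h4
        · exact gnotA B hB h4.1
        · exact hgne h4
      have m2 : g C ∈ C \ B := by
        rw [Finset.mem_sdiff]
        refine ⟨gmem C hC, fun hh => ?_⟩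
        rcases (memiff B hB _).1 hh with h4 | h4
        · exact gnotA C hC h4.1
        · exact hgne h4.symm
      rw [hx, Finset.mem_singleton] at m1
      rw [hy, Finset.mem_singleton] at m2
      rw [m1, m2]; exact hxy
    have exch2 : ∀ B ∈ F.erase A, ∀ C ∈ F.erase A, B ≠ C → g B = g C → R (f B) (f C) := by
      intro B hB C hC hBC hgg
      have hfne : f B ≠ f C := fun hh => hBC (inj B hB C hC hh hgg)
      obtain ⟨x, y, hx, hy, hxy⟩ := h B (Finset.mem_of_mem_erase hB) C (Finset.mem_of_mem_erase hC) hBC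
      have m1 : f C ∈ B \ C := by
        rw [Finset.mem_sdiff]
        exact ⟨(memiff B hB _).2 (Or.inl ⟨memA C hC, Ne.symm hfne⟩), fnot C hC⟩
      have m2 : f B ∈ C \ B := by
        rw [Finset.mem_sdiff]
        exact ⟨(memiff C hC _).2 (Or.inl ⟨memA B hB, hfne⟩), fnot B hB⟩
      rw [hx, Finset.mem_singleton] at m1
      rw [hy, Finset.mem_singleton] at m2
      rw [m1, m2]; exact hR _ _ hxy
    have hcard : F.card = (F.erase A).card + 1 := (Finset.card_erase_add_one hA).symm
    rcases (F.erase A).eq_empty_or_nonempty with hE | ⟨B₀, hB₀⟩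
    · refine ⟨{0}, ?_, ?_⟩
      · intro x hx y hy hxy
        simp only [Finset.mem_singleton] at hx hy
        exact absurd (hx.trans hy.symm) hxy
      · rw [hcard, hE]; simp
    · rcases rook _ f g share with hall | hall
      · -- all `f` equal
        refine ⟨insert (f B₀) ((F.erase A).image g), ?_, ?_⟩
        · intro x hx y hy hxy
          rw [Finset.mem_insert, Finset.mem_image] at hx hy
          rcases hx with rfl | ⟨B, hB, rfl⟩
          · rcases hy with rfl | ⟨C, hC, rfl⟩
            · exact absurd rfl hxy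
            · rw [hall B₀ (Finset.mem_coe.2 hB₀) C (Finset.mem_coe.2 hC)]
              exact hfg C hC
          · rcases hy with rfl | ⟨C, hC, rfl⟩
            · rw [hall B₀ (Finset.mem_coe.2 hB₀) B (Finset.mem_coe.2 hB)]
              exact hR _ _ (hfg B hB)
            · have hBC : B ≠ C := fun hh => hxy (by rw [hh])
              exact exch B hB C hC hBC (hall B (Finset.mem_coe.2 hB) C (Finset.mem_coe.2 hC))
        · rw [hcard, Finset.card_insert_of_notMem, Finset.card_image_of_injOn]
          · intro B hB C hC hBC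
            exact inj B (Finset.mem_coe.1 hB) C (Finset.mem_coe.1 hC) (hall B hB C hC) hBC
          · intro hmem
            rw [Finset.mem_image] at hmem
            obtain ⟨B, hB, hB2⟩ := hmem
            exact gnotA B hB (hB2 ▸ memA B₀ hB₀)
      · refine ⟨insert (g B₀) ((F.erase A).image f), ?_, ?_⟩
        · intro x hx y hy hxy
          rw [Finset.mem_insert, Finset.mem_image] at hx hy
          rcases hx with rfl | ⟨B, hB, rfl⟩
          · rcases hy with rfl | ⟨C, hC, rfl⟩
            · exact absurd rfl hxy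
            · rw [hall B₀ (Finset.mem_coe.2 hB₀) C (Finset.mem_coe.2 hC)]
              exact hR _ _ (hfg C hC)
          · rcases hy with rfl | ⟨C, hC, rfl⟩
            · rw [hall B₀ (Finset.mem_coe.2 hB₀) B (Finset.mem_coe.2 hB)]
              exact hfg B hB
            · have hBC : B ≠ C := fun hh => hxy (by rw [hh])
              exact exch2 B hB C hC hBC (hall B (Finset.mem_coe.2 hB) C (Finset.mem_coe.2 hC))
        · rw [hcard, Finset.card_insert_of_notMem, Finset.card_image_of_injOn]
          · intro B hB C hC hBC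
            exact inj B (Finset.mem_coe.1 hB) C (Finset.mem_coe.1 hC) hBC (hall B hB C hC)
          · intro hmem
            rw [Finset.mem_image] at hmem
            obtain ⟨B, hB, hB2⟩ := hmem
            exact gnotA B₀ hB₀ (hB2 ▸ memA B hB)

/-- A family of finite sets, any two of which differ by one element or by exchanging one
element for another related one, has at most one more member than some set of pairwise
related elements. -/
theorem family_bound (R : ℕ → ℕ → Prop) (hR : ∀ x y, R x y → R y x) (F : Finset (Finset ℕ))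
    (h : ∀ A ∈ F, ∀ B ∈ F, A ≠ B → (∃ x, A \ B = {x} ∧ B \ A = ∅) ∨
      (∃ x, A \ B = ∅ ∧ B \ A = {x}) ∨ ∃ x y, A \ B = {x} ∧ B \ A = {y} ∧ R x y) :
    ∃ X : Finset ℕ, (∀ x ∈ X, ∀ y ∈ X, x ≠ y → R x y) ∧ F.card ≤ X.card + 1 := by
  classical
  rcases F.eq_empty_or_nonempty with rfl | hne
  · exact ⟨∅, by simp, by simp⟩
  -- minimal cardinality
  obtain ⟨A₀, hA₀, hmin⟩ := Finset.exists_min_image F Finset.card hne
  set k := A₀.card with hk
  have cardrel : ∀ A ∈ F, ∀ B ∈ F, A ≠ B → (A.card = B.card + 1 ∧ B ⊆ A) ∨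
      (B.card = A.card + 1 ∧ A ⊆ B) ∨ (A.card = B.card ∧ (B \ A).card = 1 ∧
        ∃ x y, A \ B = {x} ∧ B \ A = {y} ∧ R x y) := by
    intro A hA B hB hAB
    have e1 : (A \ B).card + B.card = (B \ A).card + A.card := by
      rw [Finset.card_sdiff_add_card, Finset.card_sdiff_add_card, Finset.union_comm]
    rcases h A hA B hB hAB with ⟨x, h1, h2⟩ | ⟨x, h1, h2⟩ | ⟨x, y, h1, h2, h3⟩
    · left
      rw [h1, h2, Finset.card_singleton, Finset.card_empty] at e1
      exact ⟨by omega, Finset.sdiff_eq_empty_iff_subset.1 h2⟩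
    · right; left
      rw [h1, h2, Finset.card_singleton, Finset.card_empty] at e1
      exact ⟨by omega, Finset.sdiff_eq_empty_iff_subset.1 h1⟩
    · right; right
      rw [h1, h2, Finset.card_singleton, Finset.card_singleton] at e1
      exact ⟨by omega, by rw [h2, Finset.card_singleton], x, y, h1, h2, h3⟩
  set F₀ := F.filter (fun A => A.card = k) with hF₀
  set F₁ := F.filter (fun A => A.card = k + 1) with hF₁
  have hsplit : F = F₀ ∪ F₁ := by
    ext A
    simp only [hF₀, hF₁, Finset.mem_union, Finset.mem_filter]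
    constructor
    · intro hA
      by_cases hAA : A = A₀
      · left; exact ⟨hA, by rw [hAA]⟩
      · rcases cardrel A hA A₀ hA₀ hAA with h1 | h1 | h1
        · right; exact ⟨hA, h1.1⟩
        · have := hmin A hA; omega
        · left; exact ⟨hA, h1.1⟩
    · rintro (h1 | h1) <;> exact h1.1
  have hcard : F.card ≤ F₀.card + F₁.card := by
    conv_lhs => rw [hsplit]
    exact Finset.card_union_le _ _
  have lev : ∀ (c : ℕ) , ∀ A ∈ F.filter (fun A => A.card = c),
      ∀ B ∈ F.filter (fun A => A.card = c), A ≠ B → ∃ x y, A \ B = {x} ∧ B \ A = {y} ∧ R x y := by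
    intro c A hA B hB hAB
    rw [Finset.mem_filter] at hA hB
    rcases cardrel A hA.1 B hB.1 hAB with h1 | h1 | h1
    · omega
    · omega
    · exact h1.2.2
  by_cases h0 : F₀.card ≤ 1
  · obtain ⟨X, hX, hXc⟩ := level_bound R hR F₁ (lev (k + 1))
    exact ⟨X, hX, by omega⟩
  by_cases h1 : F₁.card ≤ 1
  · obtain ⟨X, hX, hXc⟩ := level_bound R hR F₀ (lev k)
    exact ⟨X, hX, by omega⟩
  exfalso
  push Not at h0 h1
  obtain ⟨A, hA, A', hA', hAA⟩ := Finset.one_lt_card.1 h0
  obtain ⟨B, hB, B', hB', hBB⟩ := Finset.one_lt_card.1 h1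
  have hun : (A ∪ A').card = k + 1 := by
    rw [hF₀, Finset.mem_filter] at hA hA'
    rcases cardrel A hA.1 A' hA'.1 hAA with h2 | h2 | h2
    · omega
    · omega
    · rw [← Finset.sdiff_union_self_eq_union, Finset.card_union_of_disjoint
        (Finset.sdiff_disjoint)]
      obtain ⟨x, y, h3, h4, -⟩ := h2.2.2
      rw [h3, Finset.card_singleton]; omega
  have sub : ∀ A ∈ F₀, ∀ B ∈ F₁, A ⊆ B := by
    intro A hA B hB
    rw [hF₀, Finset.mem_filter] at hA
    rw [hF₁, Finset.mem_filter] at hB
    have hne : A ≠ B := fun hh => by rw [hh] at hA; omega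
    rcases cardrel A hA.1 B hB.1 hne with h2 | h2 | h2
    · omega
    · exact h2.2
    · omega
  have eqB : ∀ B ∈ F₁, A ∪ A' = B := by
    intro B hB
    refine Finset.eq_of_subset_of_card_le (Finset.union_subset (sub A hA B hB) (sub A' hA' B hB)) ?_
    rw [hF₁, Finset.mem_filter] at hB
    omega
  exact hBB ((eqB B hB).symm.trans (eqB B' hB'))

/-- The arithmetic property of the positions `p i` used in the reduction: a relation between
three differences is only possible in the two trivial ways. -/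
def TripleProp (N : ℕ) (p : ℕ → ℕ) : Prop :=
  ∀ i j k l a b : ℕ, i < N → j < N → k < N → l < N → a < N → b < N → i ≠ j → k ≠ l → a ≠ b →
    p j + p l + p a = p i + p k + p b → (j = k ∧ l = b ∧ a = i) ∨ (j = b ∧ l = i ∧ a = k)

/-- The positions: `p i = i + M i² + M² i³`. -/
def posn (M i : ℕ) : ℕ := i + M * i ^ 2 + M ^ 2 * i ^ 3

theorem tripleProp_posn {N M : ℕ} (hM : 3 * N ^ 2 < M) : TripleProp N (posn M) := by
  intro i j k l a b hi hj hk hl ha hb hij hkl hab h
  have hM0 : 0 < M := by omega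
  have small1 : ∀ x y z : ℕ, x < N → y < N → z < N → x + y + z < M := by
    intro x y z hx hy hz
    have : N ≤ N ^ 2 := Nat.le_self_pow (by norm_num) N
    omega
  have small2 : ∀ x y z : ℕ, x < N → y < N → z < N → x ^ 2 + y ^ 2 + z ^ 2 < M := by
    intro x y z hx hy hz
    have h1 : x ^ 2 ≤ N ^ 2 := Nat.pow_le_pow_left hx.le 2
    have h2 : y ^ 2 ≤ N ^ 2 := Nat.pow_le_pow_left hy.le 2
    have h3 : z ^ 2 ≤ N ^ 2 := Nat.pow_le_pow_left hz.le 2
    omega
  unfold posn at h
  have e0 : (j + l + a) + M * ((j ^ 2 + l ^ 2 + a ^ 2) + M * (j ^ 3 + l ^ 3 + a ^ 3)) =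
      (i + k + b) + M * ((i ^ 2 + k ^ 2 + b ^ 2) + M * (i ^ 3 + k ^ 3 + b ^ 3)) := by
    linear_combination h
  have e1 : j + l + a = i + k + b := by
    have := congrArg (· % M) e0
    simp only [Nat.add_mul_mod_self_left] at this
    rwa [Nat.mod_eq_of_lt (small1 _ _ _ hj hl ha), Nat.mod_eq_of_lt (small1 _ _ _ hi hk hb)] at this
  have e0' : (j ^ 2 + l ^ 2 + a ^ 2) + M * (j ^ 3 + l ^ 3 + a ^ 3) =
      (i ^ 2 + k ^ 2 + b ^ 2) + M * (i ^ 3 + k ^ 3 + b ^ 3) := by
    rw [e1] at e0
    exact Nat.eq_of_mul_eq_mul_left hM0 (Nat.add_left_cancel e0)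
  have e2 : j ^ 2 + l ^ 2 + a ^ 2 = i ^ 2 + k ^ 2 + b ^ 2 := by
    have := congrArg (· % M) e0'
    simp only [Nat.add_mul_mod_self_left] at this
    rwa [Nat.mod_eq_of_lt (small2 _ _ _ hj hl ha), Nat.mod_eq_of_lt (small2 _ _ _ hi hk hb)] at this
  have e3 : j ^ 3 + l ^ 3 + a ^ 3 = i ^ 3 + k ^ 3 + b ^ 3 := by
    rw [e2] at e0'
    exact Nat.eq_of_mul_eq_mul_left hM0 (Nat.add_left_cancel e0')
  have f1 : (j : ℤ) + l + a = i + k + b := by exact_mod_cast e1
  have f2 : (j : ℤ) ^ 2 + l ^ 2 + a ^ 2 = i ^ 2 + k ^ 2 + b ^ 2 := by exact_mod_cast e2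
  have f3 : (j : ℤ) ^ 3 + l ^ 3 + a ^ 3 = i ^ 3 + k ^ 3 + b ^ 3 := by exact_mod_cast e3
  have hprod : ((j : ℤ) - i) * (j - k) * (j - b) = 0 := by
    have h6 : 6 * (((j : ℤ) - i) * (j - k) * (j - b)) = 0 := by
      linear_combination
        (6 * (j : ℤ) ^ 2 - 3 * ((j + l + a) + (i + k + b)) * j + (j + l + a) ^ 2 +
          (j + l + a) * (i + k + b) + (i + k + b) ^ 2 - 3 * (j ^ 2 + l ^ 2 + a ^ 2)) * f1 +
        (3 * (j : ℤ) - 3 * (i + k + b)) * f2 + 2 * f3
    linarith
  rcases mul_eq_zero.1 hprod with hp | hp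
  · rcases mul_eq_zero.1 hp with hp | hp
    · exact absurd (by exact_mod_cast (sub_eq_zero.1 hp).symm) hij
    · -- j = k
      have hjk : (j : ℤ) = k := sub_eq_zero.1 hp
      have g1 : (l : ℤ) + a = i + b := by linarith
      have g2 : ((l : ℤ) - i) * (l - b) = 0 := by
        have hh2 : (l : ℤ) ^ 2 + a ^ 2 = i ^ 2 + b ^ 2 := by rw [hjk] at f2; linarith
        have ha' : (a : ℤ) = i + b - l := by linarith
        rw [ha'] at hh2
        have h22 : 2 * (((l : ℤ) - i) * (l - b)) = 0 := by linear_combination hh2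
        linarith
      rcases mul_eq_zero.1 g2 with hq | hq
      · exfalso
        have : (l : ℤ) = i := sub_eq_zero.1 hq
        exact hab (by have : (a : ℤ) = b := by linarith
                      exact_mod_cast this)
      · left
        have h1 : (l : ℤ) = b := sub_eq_zero.1 hq
        refine ⟨by exact_mod_cast hjk, by exact_mod_cast h1, ?_⟩
        have : (a : ℤ) = i := by linarith
        exact_mod_cast this
  · have hjb : (j : ℤ) = b := sub_eq_zero.1 hp
    have g1 : (l : ℤ) + a = i + k := by linarith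
    have g2 : ((l : ℤ) - i) * (l - k) = 0 := by
      have hh2 : (l : ℤ) ^ 2 + a ^ 2 = i ^ 2 + k ^ 2 := by rw [hjb] at f2; linarith
      have ha' : (a : ℤ) = i + k - l := by linarith
      rw [ha'] at hh2
      have h22 : 2 * (((l : ℤ) - i) * (l - k)) = 0 := by linear_combination hh2
      linarith
    rcases mul_eq_zero.1 g2 with hq | hq
    · right
      have h1 : (l : ℤ) = i := sub_eq_zero.1 hq
      refine ⟨by exact_mod_cast hjb, by exact_mod_cast h1, ?_⟩
      have : (a : ℤ) = k := by linarith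
      exact_mod_cast this
    · exact absurd (by exact_mod_cast (sub_eq_zero.1 hq).symm) hkl

/-- A set of integers whose pairwise differences are differences of positions of adjacent
vertices has the size of a clique. -/
theorem b3_clique {N : ℕ} {p : ℕ → ℕ} (adj : ℕ → ℕ → Prop) (hsymm : ∀ i j, adj i j → adj j i)
    (hT : TripleProp N p) (X : Finset ℕ)
    (hX : ∀ x ∈ X, ∀ y ∈ X, x ≠ y → ∃ i j, i < N ∧ j < N ∧ i ≠ j ∧ adj i j ∧ x + p j = y + p i)
    (h2 : 2 ≤ X.card) :
    ∃ s : Finset ℕ, s.card = X.card ∧ (∀ i ∈ s, i < N) ∧ ∀ i ∈ s, ∀ j ∈ s, i ≠ j → adj i j := by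
  classical
  choose! I J hI hJ hIJ hadj heq using hX
  have hne : X.Nonempty := Finset.card_pos.1 (by omega)
  obtain ⟨x₁, hx₁⟩ := hne
  set S := X.erase x₁ with hS
  have hmem : ∀ z ∈ S, z ∈ X ∧ x₁ ≠ z := fun z hz => by
    rw [hS, Finset.mem_erase] at hz
    exact ⟨hz.2, Ne.symm hz.1⟩
  have T : ∀ z ∈ S, ∀ z' ∈ S, z ≠ z' →
      (J x₁ z = I z z' ∧ J z z' = J x₁ z' ∧ I x₁ z' = I x₁ z) ∨
      (J x₁ z = J x₁ z' ∧ J z z' = I x₁ z ∧ I x₁ z' = I z z') := by
    intro z hz z' hz' hzz
    obtain ⟨mz, nz⟩ := hmem z hz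
    obtain ⟨mz', nz'⟩ := hmem z' hz'
    refine hT (I x₁ z) (J x₁ z) (I z z') (J z z') (I x₁ z') (J x₁ z') (hI _ hx₁ _ mz nz)
      (hJ _ hx₁ _ mz nz) (hI _ mz _ mz' hzz) (hJ _ mz _ mz' hzz) (hI _ hx₁ _ mz' nz')
      (hJ _ hx₁ _ mz' nz') (hIJ _ hx₁ _ mz nz) (hIJ _ mz _ mz' hzz) (hIJ _ hx₁ _ mz' nz') ?_
    have e1 := heq _ hx₁ _ mz nz
    have e2 := heq _ mz _ mz' hzz
    have e3 := heq _ hx₁ _ mz' nz'
    omega
  have hScard : S.card + 1 = X.card := Finset.card_erase_add_one hx₁
  have hSne : S.Nonempty := Finset.card_pos.1 (by omega)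
  obtain ⟨z₀, hz₀⟩ := hSne
  rcases rook (S : Set ℕ) (I x₁) (J x₁) (by
    intro z hz z' hz' hzz
    rcases T z hz z' hz' hzz with h | h
    · exact Or.inl h.2.2.symm
    · exact Or.inr h.1) with hall | hall
  · have hinj : ∀ z ∈ S, ∀ z' ∈ S, J x₁ z = J x₁ z' → z = z' := by
      intro z hz z' hz' hh
      have e1 := heq _ hx₁ _ (hmem z hz).1 (hmem z hz).2
      have e2 := heq _ hx₁ _ (hmem z' hz').1 (hmem z' hz').2
      rw [hall z hz z' hz', hh] at e1
      omega
    refine ⟨insert (I x₁ z₀) (S.image (J x₁)), ?_, ?_, ?_⟩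
    · rw [Finset.card_insert_of_notMem, Finset.card_image_of_injOn]
      · exact hScard
      · intro z hz z' hz' hh
        exact hinj z hz z' hz' hh
      · intro hh
        rw [Finset.mem_image] at hh
        obtain ⟨z, hz, hz2⟩ := hh
        rw [hall z₀ hz₀ z hz] at hz2
        exact hIJ _ hx₁ _ (hmem z hz).1 (hmem z hz).2 hz2.symm
    · intro i hi
      rw [Finset.mem_insert, Finset.mem_image] at hi
      rcases hi with rfl | ⟨z, hz, rfl⟩
      · exact hI _ hx₁ _ (hmem z₀ hz₀).1 (hmem z₀ hz₀).2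
      · exact hJ _ hx₁ _ (hmem z hz).1 (hmem z hz).2
    · have A1 : ∀ z ∈ S, adj (I x₁ z₀) (J x₁ z) := by
        intro z hz
        rw [hall z₀ hz₀ z hz]
        exact hadj _ hx₁ _ (hmem z hz).1 (hmem z hz).2
      intro i hi j hj hij
      rw [Finset.mem_insert, Finset.mem_image] at hi hj
      rcases hi with rfl | ⟨z, hz, rfl⟩
      · rcases hj with rfl | ⟨z', hz', rfl⟩
        · exact absurd rfl hij
        · exact A1 z' hz'
      · rcases hj with rfl | ⟨z', hz', rfl⟩
        · exact hsymm _ _ (A1 z hz)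
        · have hzz : z ≠ z' := fun hh => hij (by rw [hh])
          rcases T z hz z' hz' hzz with h | h
          · rw [h.1, ← h.2.1]
            exact hadj _ (hmem z hz).1 _ (hmem z' hz').1 hzz
          · exact absurd (hinj z hz z' hz' h.1) hzz
  · have hinj : ∀ z ∈ S, ∀ z' ∈ S, I x₁ z = I x₁ z' → z = z' := by
      intro z hz z' hz' hh
      have e1 := heq _ hx₁ _ (hmem z hz).1 (hmem z hz).2
      have e2 := heq _ hx₁ _ (hmem z' hz').1 (hmem z' hz').2
      rw [hall z hz z' hz', hh] at e1
      omega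
    refine ⟨insert (J x₁ z₀) (S.image (I x₁)), ?_, ?_, ?_⟩
    · rw [Finset.card_insert_of_notMem, Finset.card_image_of_injOn]
      · exact hScard
      · intro z hz z' hz' hh
        exact hinj z hz z' hz' hh
      · intro hh
        rw [Finset.mem_image] at hh
        obtain ⟨z, hz, hz2⟩ := hh
        rw [hall z₀ hz₀ z hz] at hz2
        exact hIJ _ hx₁ _ (hmem z hz).1 (hmem z hz).2 hz2
    · intro i hi
      rw [Finset.mem_insert, Finset.mem_image] at hi
      rcases hi with rfl | ⟨z, hz, rfl⟩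
      · exact hJ _ hx₁ _ (hmem z₀ hz₀).1 (hmem z₀ hz₀).2
      · exact hI _ hx₁ _ (hmem z hz).1 (hmem z hz).2
    · have A1 : ∀ z ∈ S, adj (I x₁ z) (J x₁ z₀) := by
        intro z hz
        rw [hall z₀ hz₀ z hz]
        exact hadj _ hx₁ _ (hmem z hz).1 (hmem z hz).2
      intro i hi j hj hij
      rw [Finset.mem_insert, Finset.mem_image] at hi hj
      rcases hi with rfl | ⟨z, hz, rfl⟩
      · rcases hj with rfl | ⟨z', hz', rfl⟩
        · exact absurd rfl hij
        · exact hsymm _ _ (A1 z' hz')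
      · rcases hj with rfl | ⟨z', hz', rfl⟩
        · exact A1 z hz
        · have hzz : z ≠ z' := fun hh => hij (by rw [hh])
          rcases T z hz z' hz' hzz with h | h
          · exact absurd (hinj z hz z' hz' h.2.2.symm) hzz
          · rw [← h.2.1, h.2.2]
            exact hsymm _ _ (hadj _ (hmem z hz).1 _ (hmem z' hz').1 hzz)

end Pool.Agent.H75
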