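import Mathlib
import Pool.Agent.H75.CapBasic
import Pool.Agent.H75.CapComb

/-!
# The forbidden patterns attached to a graph, and the two capacity bounds
-/

set_option autoImplicit false

namespace Pool.Agent.H75

/-- The word `+ 0^g +`. -/
def wPP (g : ℕ) : List SignType := 1 :: (List.replicate g 0 ++ [1])

/-- The word `+ 0^g -`. -/
def wPM (g : ℕ) : List SignType := 1 :: (List.replicate g 0 ++ [-1])

/-- The word `+ 0^a - 0^b +`. -/
def wPMP (a b : ℕ) : List SignType := 1 :: (List.replicate a 0 ++ (-1 :: (List.replicate b 0 ++ [1])))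

/-- `g` is a difference of the positions of two adjacent vertices. -/
def gapMem (N : ℕ) (p : ℕ → ℕ) (adj : ℕ → ℕ → Bool) (g : ℕ) : Bool :=
  (List.range N).any fun i => (List.range N).any fun j => adj i j && decide (p i + g = p j)

/-- The list of forbidden patterns. -/
def patList (N : ℕ) (p : ℕ → ℕ) (adj : ℕ → ℕ → Bool) (n : ℕ) : List (List SignType) :=
  (List.range n).map wPP ++
  (((List.range n).filter fun g => !(gapMem N p adj (g + 1))).map wPM ++
  (List.range n).flatMap fun a => ((List.range n).filter fun b => decide (a + b + 1 < n)).map (wPMP a))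

theorem gapMem_iff {N : ℕ} {p : ℕ → ℕ} {adj : ℕ → ℕ → Bool} {g : ℕ} :
    gapMem N p adj g = true ↔ ∃ i j, i < N ∧ j < N ∧ adj i j = true ∧ p i + g = p j := by
  simp only [gapMem, List.any_eq_true, List.mem_range, Bool.and_eq_true, decide_eq_true_eq]
  constructor
  · rintro ⟨i, hi, j, hj, h1, h2⟩
    exact ⟨i, j, hi, hj, h1, h2⟩
  · rintro ⟨i, j, hi, hj, h1, h2⟩
    exact ⟨i, hi, j, hj, h1, h2⟩

theorem mem_patList {N : ℕ} {p : ℕ → ℕ} {adj : ℕ → ℕ → Bool} {n : ℕ} {d : List SignType} :
    d ∈ patList N p adj n ↔ (∃ g, g < n ∧ d = wPP g) ∨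
      (∃ g, g < n ∧ gapMem N p adj (g + 1) = false ∧ d = wPM g) ∨
      ∃ a b, a + b + 1 < n ∧ d = wPMP a b := by
  simp only [patList, List.mem_append, List.mem_map, List.mem_range, List.mem_filter,
    List.mem_flatMap, Bool.not_eq_true', decide_eq_true_eq]
  constructor
  · rintro (⟨g, hg, rfl⟩ | ⟨g, ⟨hg, hg2⟩, rfl⟩ | ⟨a, ha, b, ⟨hb, hab⟩, rfl⟩)
    · exact Or.inl ⟨g, hg, rfl⟩
    · exact Or.inr (Or.inl ⟨g, hg, hg2, rfl⟩)
    · exact Or.inr (Or.inr ⟨a, b, hab, rfl⟩)
  · rintro (⟨g, hg, rfl⟩ | ⟨g, hg, hg2, rfl⟩ | ⟨a, b, hab, rfl⟩)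
    · exact Or.inl ⟨g, hg, rfl⟩
    · exact Or.inr (Or.inl ⟨g, ⟨hg, hg2⟩, rfl⟩)
    · exact Or.inr (Or.inr ⟨a, by omega, b, ⟨by omega, hab⟩, rfl⟩)

theorem wPP_length (g : ℕ) : (wPP g).length = g + 2 := by simp [wPP]
theorem wPM_length (g : ℕ) : (wPM g).length = g + 2 := by simp [wPM]
theorem wPMP_length (a b : ℕ) : (wPMP a b).length = a + b + 3 := by simp [wPMP]; omega

theorem wPP_getElem? (g k : ℕ) (hk : k < g + 2) :
    (wPP g)[k]? = some (if k = 0 then 1 else if k = g + 1 then 1 else 0) := by
  unfold wPP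
  rcases k with _ | k
  · simp
  · simp only [List.getElem?_cons_succ, Nat.add_eq_zero_iff, one_ne_zero, and_false, if_false,
      Nat.add_right_cancel_iff]
    by_cases h1 : k < g
    · rw [List.getElem?_append_left (by simpa using h1), List.getElem?_replicate, if_pos h1,
        if_neg (by omega)]
    · have : k = g := by omega
      subst this
      rw [List.getElem?_append_right (by simp)]
      simp

theorem wPM_getElem? (g k : ℕ) (hk : k < g + 2) :
    (wPM g)[k]? = some (if k = 0 then 1 else if k = g + 1 then -1 else 0) := by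
  unfold wPM
  rcases k with _ | k
  · simp
  · simp only [List.getElem?_cons_succ, Nat.add_eq_zero_iff, one_ne_zero, and_false, if_false,
      Nat.add_right_cancel_iff]
    by_cases h1 : k < g
    · rw [List.getElem?_append_left (by simpa using h1), List.getElem?_replicate, if_pos h1,
        if_neg (by omega)]
    · have : k = g := by omega
      subst this
      rw [List.getElem?_append_right (by simp)]
      simp

theorem wPMP_getElem? (a b k : ℕ) (hk : k < a + b + 3) :
    (wPMP a b)[k]? =
      some (if k = 0 then 1 else if k = a + 1 then -1 else if k = a + b + 2 then 1 else 0) := by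
  unfold wPMP
  rcases k with _ | k
  · simp
  · simp only [List.getElem?_cons_succ, Nat.add_eq_zero_iff, one_ne_zero, and_false, if_false,
      Nat.add_right_cancel_iff]
    by_cases h1 : k < a
    · rw [List.getElem?_append_left (by simpa using h1), List.getElem?_replicate, if_pos h1,
        if_neg (by omega), if_neg (by omega)]
    · rw [List.getElem?_append_right (by simp; omega), List.length_replicate]
      by_cases h2 : k = a
      · subst h2; simp
      · obtain ⟨c, rfl⟩ : ∃ c, k = a + (c + 1) := ⟨k - a - 1, by omega⟩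
        rw [Nat.add_sub_cancel_left, List.getElem?_cons_succ, if_neg (by omega)]
        by_cases h3 : c < b
        · rw [List.getElem?_append_left (by simpa using h3), List.getElem?_replicate, if_pos h3,
            if_neg (by omega)]
        · have : c = b := by omega
          subst this
          rw [List.getElem?_append_right (by simp)]
          simp
          omega

/-- Extension of a word on `Fin n` to all of `ℕ` by `false`. -/
def ext0 {n : ℕ} (u : Fin n → Bool) (x : ℕ) : Bool := if h : x < n then u ⟨x, h⟩ else false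

theorem infix_iff_ext {t : ℕ} (u v : Fin t → Bool) (d : List SignType) :
    d <:+: wordDiff u v ↔ ∃ o : ℕ, o + d.length ≤ t ∧ ∀ k, k < d.length →
      d[k]? = some (bitDiff (ext0 u (o + k)) (ext0 v (o + k))) := by
  rw [infix_wordDiff_iff]
  constructor
  · rintro ⟨o, ho, H⟩
    refine ⟨o, ho, fun k hk => ?_⟩
    rw [List.getElem?_eq_getElem hk, H k hk, ext0, ext0, dif_pos (by omega), dif_pos (by omega)]
  · rintro ⟨o, ho, H⟩
    refine ⟨o, ho, fun k hk => ?_⟩
    have := H k hk
    rw [List.getElem?_eq_getElem hk, ext0, ext0, dif_pos (by omega), dif_pos (by omega)] at this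
    exact Option.some.inj this

theorem bitDiff_eq_one {a b : Bool} : bitDiff a b = 1 ↔ a = true ∧ b = false := by
  cases a <;> cases b <;> simp [bitDiff]
theorem bitDiff_eq_neg {a b : Bool} : bitDiff a b = -1 ↔ a = false ∧ b = true := by
  cases a <;> cases b <;> simp [bitDiff]
theorem bitDiff_eq_zero {a b : Bool} : bitDiff a b = 0 ↔ a = b := by
  cases a <;> cases b <;> simp [bitDiff]
theorem one_eq_bitDiff {a b : Bool} : 1 = bitDiff a b ↔ a = true ∧ b = false := by
  rw [eq_comm, bitDiff_eq_one]
theorem neg_eq_bitDiff {a b : Bool} : -1 = bitDiff a b ↔ a = false ∧ b = true := by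
  rw [eq_comm, bitDiff_eq_neg]
theorem zero_eq_bitDiff {a b : Bool} : 0 = bitDiff a b ↔ a = b := by
  rw [eq_comm, bitDiff_eq_zero]


theorem wPP_infix {n : ℕ} (u v : Fin n → Bool) (x y : ℕ) (hxy : x < y) (hy : y < n)
    (h1 : ext0 u x = true) (h2 : ext0 v x = false) (h3 : ext0 u y = true) (h4 : ext0 v y = false)
    (h5 : ∀ z, x < z → z < y → ext0 u z = ext0 v z) : wPP (y - x - 1) <:+: wordDiff u v := by
  rw [infix_iff_ext]
  refine ⟨x, by rw [wPP_length]; omega, fun k hk => ?_⟩
  rw [wPP_length] at hk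
  rw [wPP_getElem? _ _ hk]
  congr 1
  split_ifs with h6 h7
  · rw [one_eq_bitDiff, h6]; exact ⟨h1, h2⟩
  · rw [one_eq_bitDiff, h7, show x + (y - x - 1 + 1) = y by omega]; exact ⟨h3, h4⟩
  · rw [zero_eq_bitDiff]; exact h5 _ (by omega) (by omega)

theorem wPM_infix {n : ℕ} (u v : Fin n → Bool) (x y : ℕ) (hxy : x < y) (hy : y < n)
    (h1 : ext0 u x = true) (h2 : ext0 v x = false) (h3 : ext0 u y = false) (h4 : ext0 v y = true)
    (h5 : ∀ z, x < z → z < y → ext0 u z = ext0 v z) : wPM (y - x - 1) <:+: wordDiff u v := by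
  rw [infix_iff_ext]
  refine ⟨x, by rw [wPM_length]; omega, fun k hk => ?_⟩
  rw [wPM_length] at hk
  rw [wPM_getElem? _ _ hk]
  congr 1
  split_ifs with h6 h7
  · rw [one_eq_bitDiff, h6]; exact ⟨h1, h2⟩
  · rw [neg_eq_bitDiff, h7, show x + (y - x - 1 + 1) = y by omega]; exact ⟨h3, h4⟩
  · rw [zero_eq_bitDiff]; exact h5 _ (by omega) (by omega)

theorem wPMP_infix {n : ℕ} (u v : Fin n → Bool) (x y w : ℕ) (hxy : x < y) (hyw : y < w) (hw : w < n)
    (h1 : ext0 u x = true) (h2 : ext0 v x = false) (h3 : ext0 u y = false) (h4 : ext0 v y = true)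
    (h1' : ext0 u w = true) (h2' : ext0 v w = false)
    (h5 : ∀ z, x < z → z < y → ext0 u z = ext0 v z)
    (h5' : ∀ z, y < z → z < w → ext0 u z = ext0 v z) :
    wPMP (y - x - 1) (w - y - 1) <:+: wordDiff u v := by
  rw [infix_iff_ext]
  refine ⟨x, by rw [wPMP_length]; omega, fun k hk => ?_⟩
  rw [wPMP_length] at hk
  rw [wPMP_getElem? _ _ _ hk]
  congr 1
  split_ifs with h6 h7 h8
  · rw [one_eq_bitDiff, h6]; exact ⟨h1, h2⟩
  · rw [neg_eq_bitDiff, h7, show x + (y - x - 1 + 1) = y by omega]; exact ⟨h3, h4⟩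
  · rw [one_eq_bitDiff, h8, show x + (y - x - 1 + (w - y - 1) + 2) = w by omega]; exact ⟨h1', h2'⟩
  · rw [zero_eq_bitDiff]
    by_cases h9 : x + k < y
    · exact h5 _ (by omega) h9
    · exact h5' _ (by omega) (by omega)

/-- Two positions whose distance is a gap of the graph. -/
def gapRel (N : ℕ) (p : ℕ → ℕ) (adj : ℕ → ℕ → Bool) (x y : ℕ) : Prop :=
  (x < y ∧ gapMem N p adj (y - x) = true) ∨ (y < x ∧ gapMem N p adj (x - y) = true)

theorem gapRel_symm {N : ℕ} {p : ℕ → ℕ} {adj : ℕ → ℕ → Bool} (x y : ℕ)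
    (h : gapRel N p adj x y) : gapRel N p adj y x := Or.symm h

/-- The support of a binary word. -/
def supp {n : ℕ} (u : Fin n → Bool) : Finset ℕ := (Finset.range n).filter fun x => ext0 u x = true

theorem mem_supp {n : ℕ} {u : Fin n → Bool} {x : ℕ} : x ∈ supp u ↔ ext0 u x = true := by
  unfold supp
  rw [Finset.mem_filter, Finset.mem_range]
  constructor
  · exact fun h => h.2
  · intro h
    refine ⟨?_, h⟩
    by_contra hx
    rw [ext0, dif_neg hx] at h
    exact absurd h (by simp)

theorem supp_injective {n : ℕ} : Function.Injective (supp (n := n)) := by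
  intro u v h
  ext i
  have h1 : ∀ x, ext0 u x = true ↔ ext0 v x = true := fun x => by
    rw [← mem_supp, ← mem_supp, h]
  have h2 := h1 i
  rw [ext0, ext0, dif_pos i.2, dif_pos i.2] at h2
  exact Bool.eq_iff_iff.2 h2 |> fun h => by simpa using h

section window

variable {N : ℕ} {p : ℕ → ℕ} {adj : ℕ → ℕ → Bool} {n : ℕ} {W : Finset (Fin n → Bool)}

theorem consecutive_two (hW : Avoids (patList N p adj n) W) {u v : Fin n → Bool} (hu : u ∈ W)
    (hv : v ∈ W) (huv : u ≠ v) {x y : ℕ} (hxy : x < y) (hy : y < n)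
    (h1 : ext0 u x = true) (h2 : ext0 v x = false) (h3 : ext0 u y ≠ ext0 v y)
    (h5 : ∀ z, x < z → z < y → ext0 u z = ext0 v z) :
    ext0 u y = false ∧ ext0 v y = true ∧ gapMem N p adj (y - x) = true := by
  rcases hb : ext0 u y with _ | _ <;> rcases hb' : ext0 v y with _ | _
  · exact absurd (hb.trans hb'.symm) h3
  · refine ⟨rfl, rfl, ?_⟩
    by_contra hg
    refine hW u hu v hv huv _ (mem_patList.2 (Or.inr (Or.inl ⟨y - x - 1, by omega, ?_, rfl⟩)))
      (wPM_infix u v x y hxy hy h1 h2 hb hb' h5)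
    rw [show y - x - 1 + 1 = y - x by omega]
    simpa using hg
  · exact absurd (wPP_infix u v x y hxy hy h1 h2 hb hb' h5)
      (hW u hu v hv huv _ (mem_patList.2 (Or.inl ⟨y - x - 1, by omega, rfl⟩)))
  · exact absurd (hb.trans hb'.symm) h3

theorem consecutive_three (hW : Avoids (patList N p adj n) W) {u v : Fin n → Bool} (hu : u ∈ W)
    (hv : v ∈ W) (huv : u ≠ v) {x y w : ℕ} (hxy : x < y) (hyw : y < w) (hw : w < n)
    (h1 : ext0 u x = true) (h2 : ext0 v x = false) (h3 : ext0 u y ≠ ext0 v y)
    (h3' : ext0 u w ≠ ext0 v w)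
    (h5 : ∀ z, x < z → z < y → ext0 u z = ext0 v z)
    (h5' : ∀ z, y < z → z < w → ext0 u z = ext0 v z) : False := by
  obtain ⟨a1, a2, -⟩ := consecutive_two hW hu hv huv hxy (by omega) h1 h2 h3 h5
  obtain ⟨b1, b2, -⟩ := consecutive_two hW hv hu (Ne.symm huv) hyw hw a2 a1 (Ne.symm h3')
    (fun z hz hz' => (h5' z hz hz').symm)
  exact hW u hu v hv huv _ (mem_patList.2 (Or.inr (Or.inr ⟨y - x - 1, w - y - 1, by omega, rfl⟩)))
    (wPMP_infix u v x y w hxy hyw hw h1 h2 a1 a2 b2 b1 h5 h5')

/-- Two distinct words of an avoiding set of words of length `n` differ in one position, or in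
two positions with opposite signs whose distance is a gap. -/
theorem supp_trichotomy (hW : Avoids (patList N p adj n) W) {u v : Fin n → Bool} (hu : u ∈ W)
    (hv : v ∈ W) (huv : u ≠ v) :
    (∃ x, supp u \ supp v = {x} ∧ supp v \ supp u = ∅) ∨
      (∃ x, supp u \ supp v = ∅ ∧ supp v \ supp u = {x}) ∨
      ∃ x y, supp u \ supp v = {x} ∧ supp v \ supp u = {y} ∧ gapRel N p adj x y := by
  classical
  have hn0 : ∀ z, ext0 u z ≠ ext0 v z → z < n := by
    intro z hz
    by_contra hzn
    rw [ext0, ext0, dif_neg hzn, dif_neg hzn] at hz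
    exact hz rfl
  have hex : ∃ x, ext0 u x ≠ ext0 v x := by
    by_contra hcon
    push Not at hcon
    apply huv
    apply supp_injective
    ext z
    rw [mem_supp, mem_supp, hcon z]
  obtain ⟨x, hx, hxmin⟩ : ∃ x, ext0 u x ≠ ext0 v x ∧ ∀ z, z < x → ext0 u z = ext0 v z :=
    ⟨Nat.find hex, Nat.find_spec hex, fun z hz => by
      have := Nat.find_min hex hz
      push Not at this
      exact this⟩
  have mem1 : ∀ z, z ∈ supp u \ supp v ↔ ext0 u z = true ∧ ext0 v z = false := by
    intro z
    rw [Finset.mem_sdiff, mem_supp, mem_supp]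
    simp
  have mem2 : ∀ z, z ∈ supp v \ supp u ↔ ext0 u z = false ∧ ext0 v z = true := by
    intro z
    rw [Finset.mem_sdiff, mem_supp, mem_supp]
    simp [and_comm]
  by_cases h2 : ∃ y, x < y ∧ ext0 u y ≠ ext0 v y
  · obtain ⟨y, ⟨hxy, hy⟩, hymin⟩ : ∃ y, (x < y ∧ ext0 u y ≠ ext0 v y) ∧
        ∀ z, x < z → z < y → ext0 u z = ext0 v z :=
      ⟨Nat.find h2, Nat.find_spec h2, fun z hz hz' => by
        have := Nat.find_min h2 hz'
        push Not at this
        exact this hz⟩
    have h3 : ∀ z, y < z → ext0 u z = ext0 v z := by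
      by_contra h3
      push Not at h3
      obtain ⟨w, ⟨hyw, hw⟩, hwmin⟩ : ∃ w, (y < w ∧ ext0 u w ≠ ext0 v w) ∧
          ∀ z, y < z → z < w → ext0 u z = ext0 v z :=
        ⟨Nat.find h3, Nat.find_spec h3, fun z hz hz' => by
          have := Nat.find_min h3 hz'
          push Not at this
          exact this hz⟩
      rcases hb : ext0 u x with _ | _ <;> rcases hb' : ext0 v x with _ | _
      · exact hx (hb.trans hb'.symm)
      · exact consecutive_three hW hv hu (Ne.symm huv) hxy hyw (hn0 w hw) hb' hb hy.symm hw.symm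
          (fun z hz hz' => (hymin z hz hz').symm) (fun z hz hz' => (hwmin z hz hz').symm)
      · exact consecutive_three hW hu hv huv hxy hyw (hn0 w hw) hb hb' hy hw hymin hwmin
      · exact hx (hb.trans hb'.symm)
    have only : ∀ z, ext0 u z ≠ ext0 v z → z = x ∨ z = y := by
      intro z hz
      by_contra hcon
      push Not at hcon
      rcases Nat.lt_trichotomy z x with h | h | h
      · exact hz (hxmin z h)
      · exact hcon.1 h
      · rcases Nat.lt_trichotomy z y with h' | h' | h'
        · exact hz (hymin z h h')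
        · exact hcon.2 h'
        · exact hz (h3 z h')
    right; right
    rcases hb : ext0 u x with _ | _ <;> rcases hb' : ext0 v x with _ | _
    · exact absurd (hb.trans hb'.symm) hx
    · obtain ⟨a1, a2, a3⟩ := consecutive_two hW hv hu (Ne.symm huv) hxy (hn0 y hy) hb' hb hy.symm
        (fun z hz hz' => (hymin z hz hz').symm)
      refine ⟨y, x, ?_, ?_, Or.inr ⟨hxy, a3⟩⟩
      · ext z
        rw [mem1, Finset.mem_singleton]
        constructor
        · rintro ⟨c1, c2⟩
          rcases only z (by rw [c1, c2]; simp) with rfl | rfl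
          · rw [hb] at c1; exact absurd c1 (by simp)
          · rfl
        · rintro rfl; exact ⟨a2, a1⟩
      · ext z
        rw [mem2, Finset.mem_singleton]
        constructor
        · rintro ⟨c1, c2⟩
          rcases only z (by rw [c1, c2]; simp) with rfl | rfl
          · rfl
          · rw [a2] at c1; exact absurd c1 (by simp)
        · rintro rfl; exact ⟨hb, hb'⟩
    · obtain ⟨a1, a2, a3⟩ := consecutive_two hW hu hv huv hxy (hn0 y hy) hb hb' hy hymin
      refine ⟨x, y, ?_, ?_, Or.inl ⟨hxy, a3⟩⟩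
      · ext z
        rw [mem1, Finset.mem_singleton]
        constructor
        · rintro ⟨c1, c2⟩
          rcases only z (by rw [c1, c2]; simp) with rfl | rfl
          · rfl
          · rw [a1] at c1; exact absurd c1 (by simp)
        · rintro rfl; exact ⟨hb, hb'⟩
      · ext z
        rw [mem2, Finset.mem_singleton]
        constructor
        · rintro ⟨c1, c2⟩
          rcases only z (by rw [c1, c2]; simp) with rfl | rfl
          · rw [hb] at c1; exact absurd c1 (by simp)
          · rfl
        · rintro rfl; exact ⟨a1, a2⟩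
    · exact absurd (hb.trans hb'.symm) hx
  · push Not at h2
    have only : ∀ z, ext0 u z ≠ ext0 v z → z = x := by
      intro z hz
      rcases Nat.lt_trichotomy z x with h | h | h
      · exact absurd (hxmin z h) hz
      · exact h
      · exact absurd (h2 z h) hz
    rcases hb : ext0 u x with _ | _ <;> rcases hb' : ext0 v x with _ | _
    · exact absurd (hb.trans hb'.symm) hx
    · right; left
      refine ⟨x, ?_, ?_⟩
      · ext z
        rw [mem1]
        constructor
        · rintro ⟨c1, c2⟩
          rw [only z (by rw [c1, c2]; simp), hb] at c1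
          exact absurd c1 (by simp)
        · intro h; simp at h
      · ext z
        rw [mem2, Finset.mem_singleton]
        constructor
        · rintro ⟨c1, c2⟩
          exact only z (by rw [c1, c2]; simp)
        · rintro rfl; exact ⟨hb, hb'⟩
    · left
      refine ⟨x, ?_, ?_⟩
      · ext z
        rw [mem1, Finset.mem_singleton]
        constructor
        · rintro ⟨c1, c2⟩
          exact only z (by rw [c1, c2]; simp)
        · rintro rfl; exact ⟨hb, hb'⟩
      · ext z
        rw [mem2]
        constructor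
        · rintro ⟨c1, c2⟩
          rw [only z (by rw [c1, c2]; simp), hb] at c1
          exact absurd c1 (by simp)
        · intro h; simp at h
    · exact absurd (hb.trans hb'.symm) hx

end window

/-- A clique of size `m` in the graph on `{0, …, N-1}` with adjacency test `adj`. -/
def HasClique (N : ℕ) (adj : ℕ → ℕ → Bool) (m : ℕ) : Prop :=
  ∃ s : Finset ℕ, s.card = m ∧ (∀ i ∈ s, i < N) ∧ ∀ i ∈ s, ∀ j ∈ s, i ≠ j → adj i j = true

theorem HasClique.mono {N : ℕ} {adj : ℕ → ℕ → Bool} {m m' : ℕ} (h : HasClique N adj m)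
    (hm : m' ≤ m) : HasClique N adj m' := by
  obtain ⟨s, hs, h1, h2⟩ := h
  obtain ⟨t, ht, htc⟩ := Finset.exists_subset_card_eq (s := s) (n := m') (by omega)
  exact ⟨t, htc, fun i hi => h1 i (ht hi), fun i hi j hj => h2 i (ht hi) j (ht hj)⟩

theorem capacity_le {N : ℕ} {p : ℕ → ℕ} {adj : ℕ → ℕ → Bool} {n m : ℕ}
    (hsymm : ∀ i j, adj i j = adj j i) (hirr : ∀ i, adj i i = false)
    (hT : TripleProp N p) (hn : n ≠ 0) (hm : 2 ≤ m) (h : ¬ HasClique N adj m) :
    capacity (patList N p adj n) ≤ Real.logb 2 m / n := by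
  classical
  refine capacity_le_of_codeSize_le hn (codeSize_le fun W hW => ?_)
  obtain ⟨X, hX, hXc⟩ := family_bound (gapRel N p adj) gapRel_symm (W.image supp) (by
    intro A hA B hB hAB
    rw [Finset.mem_image] at hA hB
    obtain ⟨u, hu, rfl⟩ := hA
    obtain ⟨v, hv, rfl⟩ := hB
    exact supp_trichotomy hW hu hv (fun hh => hAB (by rw [hh])))
  rw [Finset.card_image_of_injective _ supp_injective] at hXc
  by_contra hcon
  push Not at hcon
  apply h
  have hXm : m ≤ X.card := by omega
  obtain ⟨s, hs, hs1, hs2⟩ := b3_clique (N := N) (p := p) (fun i j => adj i j = true)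
    (fun i j hij => by rw [hsymm]; exact hij) hT X (by
      intro x hx y hy hxy
      rcases hX x hx y hy hxy with ⟨h1, h2⟩ | ⟨h1, h2⟩
      · obtain ⟨i, j, hi, hj, hij, hg⟩ := gapMem_iff.1 h2
        exact ⟨i, j, hi, hj, fun hh => by subst hh; rw [hirr] at hij; exact absurd hij (by simp),
          hij, by omega⟩
      · obtain ⟨i, j, hi, hj, hij, hg⟩ := gapMem_iff.1 h2
        refine ⟨j, i, hj, hi, fun hh => by subst hh; rw [hirr] at hij; exact absurd hij (by simp),
          by rw [hsymm]; exact hij, by omega⟩) (by omega)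
  exact HasClique.mono ⟨s, hs, hs1, hs2⟩ hXm

end Pool.Agent.H75
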