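import Mathlib

/-!
# A structured language of stack programs, compiled to `FinTM2`

`Cmd K Γ` is a small while-language over finitely many stacks. `Run c S S' n` says that the
program `c` takes the stacks `S` to the stacks `S'` in exactly `n` steps. `cmdTM` turns a program
into a bundled machine `Turing.FinTM2` with the same running time (plus one step).
-/

set_option autoImplicit false

namespace Pool.Agent.H75

open Turing StateTransition

/-- Programs acting on stacks indexed by `K`, with alphabet `Γ k` on stack `k`. -/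
inductive Cmd (K : Type) (Γ : K → Type) : Type
  | skip : Cmd K Γ
  | push (k : K) (a : Γ k) : Cmd K Γ
  | pop (k : K) : Cmd K Γ
  | seq (c₁ c₂ : Cmd K Γ) : Cmd K Γ
  | cas (k : K) (f : Option (Γ k) → Cmd K Γ) : Cmd K Γ
  | loop (k : K) (c : Cmd K Γ) : Cmd K Γ

variable {K : Type} {Γ : K → Type}

/-- Big-step semantics with exact running time. -/
inductive Run [DecidableEq K] : Cmd K Γ → (∀ k, List (Γ k)) → (∀ k, List (Γ k)) → ℕ → Prop
  | skip (S : ∀ k, List (Γ k)) : Run .skip S S 1
  | push (k : K) (a : Γ k) (S : ∀ k, List (Γ k)) :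
      Run (.push k a) S (Function.update S k (a :: S k)) 1
  | pop (k : K) (S : ∀ k, List (Γ k)) : Run (.pop k) S (Function.update S k (S k).tail) 1
  | seq {c₁ c₂ : Cmd K Γ} {S S' S'' : ∀ k, List (Γ k)} {n₁ n₂ : ℕ} :
      Run c₁ S S' n₁ → Run c₂ S' S'' n₂ → Run (.seq c₁ c₂) S S'' (n₂ + n₁)
  | cas {k : K} {f : Option (Γ k) → Cmd K Γ} {S S' : ∀ k, List (Γ k)} {n : ℕ} :
      Run (f (S k).head?) S S' n → Run (.cas k f) S S' (n + 1)
  | loop_nil {k : K} {c : Cmd K Γ} {S : ∀ k, List (Γ k)} : S k = [] → Run (.loop k c) S S 1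
  | loop_cons {k : K} {c : Cmd K Γ} {S S' S'' : ∀ k, List (Γ k)} {n₁ n₂ : ℕ} :
      S k ≠ [] → Run c S S' n₁ → Run (.loop k c) S' S'' n₂ →
        Run (.loop k c) S S'' (n₂ + n₁ + 1)

/-- Labels of the machine code of a program. -/
def Lab : Cmd K Γ → Type
  | .skip => Unit
  | .push _ _ => Unit
  | .pop _ => Unit
  | .seq c₁ c₂ => Lab c₁ ⊕ Lab c₂
  | .cas _ f => Unit ⊕ (Σ a, Lab (f a))
  | .loop _ c => Unit ⊕ Lab c

/-- The entry label. -/
def entry : (c : Cmd K Γ) → Lab c
  | .skip => ()
  | .push _ _ => ()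
  | .pop _ => ()
  | .seq c₁ _ => Sum.inl (entry c₁)
  | .cas _ _ => Sum.inl ()
  | .loop _ _ => Sum.inl ()

noncomputable instance labFintype [∀ k, Fintype (Γ k)] : (c : Cmd K Γ) → Fintype (Lab c)
  | .skip => inferInstanceAs (Fintype Unit)
  | .push _ _ => inferInstanceAs (Fintype Unit)
  | .pop _ => inferInstanceAs (Fintype Unit)
  | .seq c₁ c₂ =>
    letI := labFintype c₁
    letI := labFintype c₂
    inferInstanceAs (Fintype (Lab c₁ ⊕ Lab c₂))
  | .cas _ f =>
    letI := fun a => labFintype (f a)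
    inferInstanceAs (Fintype (Unit ⊕ (Σ a, Lab (f a))))
  | .loop _ c =>
    letI := labFintype c
    inferInstanceAs (Fintype (Unit ⊕ Lab c))

/-- The internal memory of the machine: the symbol read last. -/
abbrev Mem (K : Type) (Γ : K → Type) : Type := Option (Σ k, Γ k)

/-- Store the top symbol of stack `k`. -/
def store (k : K) (a : Option (Γ k)) : Mem K Γ := a.map (Sigma.mk k)

/-- Retrieve a symbol of stack `k` from the memory. -/
def retr [DecidableEq K] (k : K) : Mem K Γ → Option (Γ k)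
  | none => none
  | some ⟨k', a⟩ => if h : k' = k then some (h ▸ a) else none

theorem retr_store [DecidableEq K] (k : K) (a : Option (Γ k)) : retr k (store k a) = a := by
  cases a <;> simp [store, retr]

theorem isSome_store (k : K) (a : Option (Γ k)) : (store k a).isSome = a.isSome := by
  cases a <;> simp [store]

/-- Machine code of a program; `emb` places its labels, `ex` is the label to go to at the end. -/
def code [DecidableEq K] {Λ : Type} : (c : Cmd K Γ) → (Lab c → Λ) → Λ → Lab c →
    TM2.Stmt Γ Λ (Mem K Γ)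
  | .skip, _, ex, _ => .goto fun _ => ex
  | .push k a, _, ex, _ => .push k (fun _ => a) (.goto fun _ => ex)
  | .pop k, _, ex, _ => .pop k (fun s _ => s) (.goto fun _ => ex)
  | .seq c₁ c₂, emb, _, Sum.inl l => code c₁ (fun l => emb (Sum.inl l)) (emb (Sum.inr (entry c₂))) l
  | .seq _ c₂, emb, ex, Sum.inr l => code c₂ (fun l => emb (Sum.inr l)) ex l
  | .cas k f, emb, _, Sum.inl _ => .peek k (fun _ a => store k a)
      (.goto fun s => emb (Sum.inr ⟨retr k s, entry (f (retr k s))⟩))
  | .cas _ f, emb, ex, Sum.inr ⟨a, l⟩ => code (f a) (fun l => emb (Sum.inr ⟨a, l⟩)) ex l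
  | .loop k c, emb, ex, Sum.inl _ => .peek k (fun _ a => store k a)
      (.branch (fun s => s.isSome) (.goto fun _ => emb (Sum.inr (entry c))) (.goto fun _ => ex))
  | .loop _ c, emb, _, Sum.inr l => code c (fun l => emb (Sum.inr l)) (emb (Sum.inl ())) l

/-- The iteration used in `EvalsTo`. -/
abbrev iter {σ : Type} (f : σ → Option σ) (n : ℕ) (a : Option σ) : Option σ := (flip bind f)^[n] a

theorem iter_add {σ : Type} (f : σ → Option σ) (m n : ℕ) (a : Option σ) :
    iter f (m + n) a = iter f m (iter f n a) := Function.iterate_add_apply _ _ _ _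

theorem iter_one {σ : Type} (f : σ → Option σ) (a : σ) : iter f 1 (some a) = f a := rfl

theorem run_code [DecidableEq K] {c : Cmd K Γ} {S S' : ∀ k, List (Γ k)} {n : ℕ}
    (h : Run c S S' n) : ∀ {Λ : Type} (M : Λ → TM2.Stmt Γ Λ (Mem K Γ)) (emb : Lab c → Λ) (ex : Λ),
    (∀ l, M (emb l) = code c emb ex l) → ∀ v, ∃ v',
      iter (TM2.step M) n (some ⟨some (emb (entry c)), v, S⟩) = some ⟨some ex, v', S'⟩ := by
  induction h with
  | skip S =>
    intro Λ M emb ex hM v
    refine ⟨v, ?_⟩
    rw [iter_one]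
    simp only [TM2.step, hM, code, TM2.stepAux]
  | push k a S =>
    intro Λ M emb ex hM v
    refine ⟨v, ?_⟩
    rw [iter_one]
    simp only [TM2.step, hM, code, TM2.stepAux]
  | pop k S =>
    intro Λ M emb ex hM v
    refine ⟨v, ?_⟩
    rw [iter_one]
    simp only [TM2.step, hM, code, TM2.stepAux]
  | @seq c₁ c₂ S S' S'' n₁ n₂ _ _ ih₁ ih₂ =>
    intro Λ M emb ex hM v
    obtain ⟨v₁, h₁⟩ := ih₁ M (fun l => emb (Sum.inl l)) (emb (Sum.inr (entry c₂)))
      (fun l => hM (Sum.inl l)) v
    obtain ⟨v₂, h₂⟩ := ih₂ M (fun l => emb (Sum.inr l)) ex (fun l => hM (Sum.inr l)) v₁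
    refine ⟨v₂, ?_⟩
    rw [iter_add]
    exact (congrArg _ h₁).trans h₂
  | @cas k f S S' n _ ih =>
    intro Λ M emb ex hM v
    obtain ⟨v₁, h₁⟩ := ih M (fun l => emb (Sum.inr ⟨(S k).head?, l⟩)) ex
      (fun l => hM (Sum.inr ⟨(S k).head?, l⟩)) (store k (S k).head?)
    refine ⟨v₁, ?_⟩
    rw [iter_add, iter_one]
    refine (congrArg _ ?_).trans h₁
    have e : M (emb (Sum.inl ())) = .peek k (fun _ a => store k a)
      (.goto fun s => emb (Sum.inr ⟨retr k s, entry (f (retr k s))⟩)) := hM (Sum.inl ())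
    have e2 : ∀ a, a = (S k).head? → emb (Sum.inr ⟨a, entry (f a)⟩) =
      emb (Sum.inr ⟨(S k).head?, entry (f (S k).head?)⟩) := by rintro _ rfl; rfl
    simp only [TM2.step, entry]
    rw [e]
    simp only [TM2.stepAux]
    rw [e2 _ (retr_store k (S k).head?)]
  | @loop_nil k c S hS =>
    intro Λ M emb ex hM v
    refine ⟨store k (S k).head?, ?_⟩
    rw [iter_one]
    have e : M (emb (Sum.inl ())) = .peek k (fun _ a => store k a)
      (.branch (fun s => s.isSome) (.goto fun _ => emb (Sum.inr (entry c))) (.goto fun _ => ex)) :=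
      hM (Sum.inl ())
    simp only [TM2.step, entry]
    rw [e]
    simp only [TM2.stepAux, isSome_store, hS]
    simp
  | @loop_cons k c S S' S'' n₁ n₂ hS _ _ ih₁ ih₂ =>
    intro Λ M emb ex hM v
    obtain ⟨v₁, h₁⟩ := ih₁ M (fun l => emb (Sum.inr l)) (emb (Sum.inl ()))
      (fun l => hM (Sum.inr l)) (store k (S k).head?)
    obtain ⟨v₂, h₂⟩ := ih₂ M emb ex hM v₁
    refine ⟨v₂, ?_⟩
    rw [iter_add, iter_add, iter_one]
    refine (congrArg _ ((congrArg _ ?_).trans h₁)).trans h₂
    have e : M (emb (Sum.inl ())) = .peek k (fun _ a => store k a)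
      (.branch (fun s => s.isSome) (.goto fun _ => emb (Sum.inr (entry c))) (.goto fun _ => ex)) :=
      hM (Sum.inl ())
    obtain ⟨a, l, hal⟩ := List.exists_cons_of_ne_nil hS
    simp only [TM2.step, entry]
    rw [e]
    simp [TM2.stepAux, isSome_store, hal]

/-- The bundled machine of a program with input stack `k₀` and output stack `k₁`. -/
noncomputable def cmdTM [DecidableEq K] [Fintype K] [∀ k, Fintype (Γ k)] (k₀ k₁ : K)
    (c : Cmd K Γ) : FinTM2 where
  K := K
  k₀ := k₀
  k₁ := k₁
  Γ := Γ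
  Λ := Option (Lab c)
  main := some (entry c)
  σ := Mem K Γ
  initialState := none
  m := fun l => match l with
    | none => .load (fun _ => none) .halt
    | some l => code c some none l

theorem initList_eq (tm : FinTM2) (s : List (tm.Γ tm.k₀)) :
    initList tm s = ⟨some tm.main, tm.initialState,
      @Function.update tm.K (fun k => List (tm.Γ k)) tm.kDecidableEq (fun _ => []) tm.k₀ s⟩ := by
  unfold initList
  congr 1
  funext k
  by_cases h : k = tm.k₀
  · subst h; simp
  · simp [h]

theorem haltList_eq (tm : FinTM2) (s : List (tm.Γ tm.k₁)) :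
    haltList tm s = ⟨none, tm.initialState,
      @Function.update tm.K (fun k => List (tm.Γ k)) tm.kDecidableEq (fun _ => []) tm.k₁ s⟩ := by
  unfold haltList
  congr 1
  funext k
  by_cases h : k = tm.k₁
  · subst h; simp
  · simp [h]

/-- A program run gives a machine run. -/
theorem cmdTM_iter [DecidableEq K] [Fintype K] [∀ k, Fintype (Γ k)] {k₀ k₁ : K}
    {c : Cmd K Γ} {s : List (Γ k₀)} {s' : List (Γ k₁)} {n : ℕ}
    (h : Run c (Function.update (fun _ => []) k₀ s) (Function.update (fun _ => []) k₁ s') n) :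
    iter (cmdTM k₀ k₁ c).step (1 + n) (some (initList (cmdTM k₀ k₁ c) s)) =
      some (haltList (cmdTM k₀ k₁ c) s') := by
  obtain ⟨v', hv⟩ := run_code h (cmdTM k₀ k₁ c).m some none (fun l => rfl) none
  have e1 : initList (cmdTM k₀ k₁ c) s = ⟨some (some (entry c)), none,
    Function.update (fun _ => []) k₀ s⟩ := initList_eq _ _
  have e2 : haltList (cmdTM k₀ k₁ c) s' = ⟨none, none,
    Function.update (fun _ => []) k₁ s'⟩ := haltList_eq _ _
  have e3 := iter_add (TM2.step (cmdTM k₀ k₁ c).m) 1 n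
    (some ⟨some (some (entry c)), none, Function.update (fun _ => []) k₀ s⟩)
  have e4 : iter (TM2.step (cmdTM k₀ k₁ c).m) 1 (iter (TM2.step (cmdTM k₀ k₁ c).m) n
    (some ⟨some (some (entry c)), none, Function.update (fun _ => []) k₀ s⟩)) =
      some ⟨none, none, Function.update (fun _ => []) k₁ s'⟩ := (congrArg _ hv).trans rfl
  exact ((congrArg (fun z => iter (cmdTM k₀ k₁ c).step (1 + n) (some z)) e1).trans
    (e3.trans e4)).trans (congrArg some e2.symm)

/-- A program run gives a machine run (bundled form). -/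
def cmdTM_outputs [DecidableEq K] [Fintype K] [∀ k, Fintype (Γ k)] {k₀ k₁ : K}
    {c : Cmd K Γ} {s : List (Γ k₀)} {s' : List (Γ k₁)} {n t : ℕ} (hn : n + 1 ≤ t)
    (h : Run c (Function.update (fun _ => []) k₀ s) (Function.update (fun _ => []) k₁ s') n) :
    TM2OutputsInTime (cmdTM k₀ k₁ c) s (some s') t where
  steps := 1 + n
  evals_in_steps := cmdTM_iter h
  steps_le_m := by omega

end Pool.Agent.H75
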