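import Mathlib
import Pool.Agent.H75.Cmd

/-!
# A loop language over unary counters, compiled to stack programs

`Ex` are arithmetic expressions with bounded sums over named variables, with access to the bits
of a binary input word. `Pr A` are programs which output a word over `A` using bounded loops.
Every such program is computed by a `FinTM2` in polynomial time.
-/

set_option autoImplicit false

namespace Pool.Agent.H75

open Turing StateTransition

/-- Arithmetic expressions over named variables and a binary input word. -/
inductive Ex : Type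
  | const (c : ℕ) : Ex
  | var (v : ℕ) : Ex
  | len : Ex
  | add (a b : Ex) : Ex
  | sum (v : ℕ) (a b : Ex) : Ex
  | ite (c a b : Ex) : Ex
  | lt (a b : Ex) : Ex
  | bit (a : Ex) : Ex

/-- Value of an expression; `x` is the input word and `ρ` the values of the variables. -/
def Ex.val (x : List Bool) : Ex → (ℕ → ℕ) → ℕ
  | .const c, _ => c
  | .var v, ρ => ρ v
  | .len, _ => x.length
  | .add a b, ρ => a.val x ρ + b.val x ρ
  | .sum v a b, ρ => ∑ j ∈ Finset.range (a.val x ρ), b.val x (Function.update ρ v j)
  | .ite c a b, ρ => if c.val x ρ = 0 then b.val x ρ else a.val x ρ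
  | .lt a b, ρ => if a.val x ρ < b.val x ρ then 1 else 0
  | .bit a, ρ => if x[a.val x ρ]? = some true then 1 else 0

/-- Programs with output alphabet `A`. -/
inductive Pr (A : Type) : Type
  | nil : Pr A
  | emit (a : A) : Pr A
  | seq (p q : Pr A) : Pr A
  | ite (c : Ex) (p q : Pr A) : Pr A
  | rep (v : ℕ) (a : Ex) (p : Pr A) : Pr A

/-- Output of a program. -/
def Pr.out {A : Type} (x : List Bool) : Pr A → (ℕ → ℕ) → List A
  | .nil, _ => []
  | .emit a, _ => [a]
  | .seq p q, ρ => p.out x ρ ++ q.out x ρ
  | .ite c p q, ρ => if c.val x ρ = 0 then q.out x ρ else p.out x ρ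
  | .rep v a p, ρ => (List.range (a.val x ρ)).flatMap fun j => p.out x (Function.update ρ v j)

/-- The stacks: input, auxiliary input, reversed output, output, and `m + 1` unary counters. -/
inductive Rg (m : ℕ) : Type
  | inp : Rg m
  | tmp : Rg m
  | rev : Rg m
  | out : Rg m
  | num (i : Fin (m + 1)) : Rg m
  deriving DecidableEq

instance (m : ℕ) : Fintype (Rg m) :=
  Fintype.ofEquiv (Fin 4 ⊕ Fin (m + 1))
    { toFun := fun z => match z with
        | Sum.inl 0 => .inp
        | Sum.inl 1 => .tmp
        | Sum.inl 2 => .rev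
        | Sum.inl 3 => .out
        | Sum.inr i => .num i
      invFun := fun z => match z with
        | .inp => Sum.inl 0
        | .tmp => Sum.inl 1
        | .rev => Sum.inl 2
        | .out => Sum.inl 3
        | .num i => Sum.inr i
      left_inv := by
        intro z
        rcases z with z | z
        · fin_cases z <;> rfl
        · rfl
      right_inv := by intro z; cases z <;> rfl }

/-- The alphabets of the stacks. -/
@[reducible] def RgA (A : Type) (m : ℕ) : Rg m → Type
  | .inp => Bool
  | .tmp => Bool
  | .rev => A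
  | .out => A
  | .num _ => Unit

instance (A : Type) [Fintype A] (m : ℕ) (k : Rg m) : Fintype (RgA A m k) := by
  cases k <;> unfold RgA <;> infer_instance

/-- Counter number `i`. -/
@[reducible] def reg (m i : ℕ) : Rg m := .num ⟨min i m, by omega⟩

theorem reg_inj {m i j : ℕ} (hi : i ≤ m) (hj : j ≤ m) : reg m i = reg m j ↔ i = j := by
  unfold reg
  simp only [Rg.num.injEq, Fin.mk.injEq]
  omega

theorem reg_ne {m i j : ℕ} (hi : i ≤ m) (hj : j ≤ m) (h : i ≠ j) : reg m i ≠ reg m j :=
  fun hh => h ((reg_inj hi hj).1 hh)

variable {A : Type} {m : ℕ}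

/-- Programs over the stacks of the loop language. -/
abbrev RCmd (A : Type) (m : ℕ) := Cmd (Rg m) (RgA A m)

/-- Stack contents. -/
abbrev RStk (A : Type) (m : ℕ) := ∀ k : Rg m, List (RgA A m k)

/-- Push one unit on counter `t`. -/
def inc (A : Type) (m t : ℕ) : RCmd A m := .push (reg m t) ()

/-- Remove one unit of counter `t`. -/
def dec (A : Type) (m t : ℕ) : RCmd A m := .pop (reg m t)

/-- Push `c` units. -/
def incN (A : Type) (m t : ℕ) : ℕ → RCmd A m
  | 0 => .skip
  | c + 1 => .seq (inc A m t) (incN A m t c)

/-- Empty counter `t`. -/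
def clear (A : Type) (m t : ℕ) : RCmd A m := .loop (reg m t) (dec A m t)

/-- Body of `moveIT`. -/
def moveBody (A : Type) (m : ℕ) : Option Bool → RCmd A m
  | none => .skip
  | some a => .seq (.pop .inp) (.push .tmp a)

/-- Move the top symbol of the input to the auxiliary stack. -/
def moveIT (A : Type) (m : ℕ) : RCmd A m := .cas .inp (moveBody A m)

/-- Body of `restore`. -/
def restoreBody (A : Type) (m : ℕ) : Option Bool → RCmd A m
  | none => .skip
  | some a => .seq (.pop .tmp) (.push .inp a)

/-- Move everything from the auxiliary stack back to the input. -/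
def restore (A : Type) (m : ℕ) : RCmd A m := .loop .tmp (.cas .tmp (restoreBody A m))

/-- Branch on whether counter `b` is nonzero. -/
def ifNum (m b : ℕ) (p q : RCmd A m) : RCmd A m :=
  .cas (reg m b) fun a => cond a.isSome p q

/-- Compilation of expressions: `r` maps variables to counters, counters from `b` on are free,
and the value is added to counter `t`. -/
def compEx (A : Type) (m : ℕ) : Ex → (ℕ → ℕ) → ℕ → ℕ → RCmd A m
  | .const c, _, _, t => incN A m t c
  | .var v, r, b, t => .seq
      (.loop (reg m (r v)) (.seq (dec A m (r v)) (.seq (inc A m t) (inc A m b))))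
      (.loop (reg m b) (.seq (dec A m b) (inc A m (r v))))
  | .len, _, _, t => .seq
      (.loop .inp (.seq (moveIT A m) (inc A m t)))
      (restore A m)
  | .add e f, r, b, t => .seq (compEx A m e r b t) (compEx A m f r b t)
  | .sum v e f, r, b, t => .seq (compEx A m e r (b + 2) (b + 1)) (.seq
      (.loop (reg m (b + 1)) (.seq (dec A m (b + 1))
        (.seq (compEx A m f (Function.update r v b) (b + 2) t) (inc A m b))))
      (clear A m b))
  | .ite c e f, r, b, t => .seq (compEx A m c r (b + 1) b)
      (ifNum m b (.seq (clear A m b) (compEx A m e r (b + 1) t)) (compEx A m f r (b + 1) t))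
  | .lt e f, r, b, t => .seq (compEx A m e r (b + 2) b) (.seq (compEx A m f r (b + 2) (b + 1))
      (.seq (.loop (reg m b) (.seq (dec A m b) (dec A m (b + 1))))
        (.seq (ifNum m (b + 1) (inc A m t) .skip) (clear A m (b + 1)))))
  | .bit e, r, b, t => .seq (compEx A m e r (b + 1) b)
      (.seq (.loop (reg m b) (.seq (dec A m b) (moveIT A m)))
        (.seq (.cas .inp fun a => cond (a == some true) (inc A m t) .skip) (restore A m)))

/-- Number of free counters needed. -/
def Ex.need : Ex → ℕ
  | .const _ => 0
  | .var _ => 1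
  | .len => 0
  | .add e f => max e.need f.need
  | .sum _ e f => 2 + max e.need f.need
  | .ite c e f => 1 + max c.need (max e.need f.need)
  | .lt e f => 2 + max e.need f.need
  | .bit e => 1 + e.need


section RunLe

variable {K : Type} {Γ : K → Type} [DecidableEq K]

/-- The program takes `S` to `S'` in at most `B` steps. -/
def RunLe (c : Cmd K Γ) (S S' : ∀ k, List (Γ k)) (B : ℕ) : Prop := ∃ n, n ≤ B ∧ Run c S S' n

theorem RunLe.mono {c : Cmd K Γ} {S S' : ∀ k, List (Γ k)} {B B' : ℕ} (h : RunLe c S S' B)
    (hB : B ≤ B') : RunLe c S S' B' := by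
  obtain ⟨n, hn, h⟩ := h
  exact ⟨n, hn.trans hB, h⟩

theorem RunLe.skip (S : ∀ k, List (Γ k)) : RunLe .skip S S 1 := ⟨1, le_refl _, .skip S⟩

theorem RunLe.seq {c₁ c₂ : Cmd K Γ} {S S' S'' : ∀ k, List (Γ k)} {B₁ B₂ : ℕ}
    (h₁ : RunLe c₁ S S' B₁) (h₂ : RunLe c₂ S' S'' B₂) : RunLe (.seq c₁ c₂) S S'' (B₁ + B₂) := by
  obtain ⟨n₁, hn₁, h₁⟩ := h₁
  obtain ⟨n₂, hn₂, h₂⟩ := h₂
  exact ⟨n₂ + n₁, by omega, .seq h₁ h₂⟩

theorem RunLe.cas {k : K} {f : Option (Γ k) → Cmd K Γ} {S S' : ∀ k, List (Γ k)} {B : ℕ}
    (a : Option (Γ k)) (ha : (S k).head? = a) (h : RunLe (f a) S S' B) :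
    RunLe (.cas k f) S S' (B + 1) := by
  obtain ⟨n, hn, h⟩ := h
  subst ha
  exact ⟨n + 1, by omega, .cas h⟩

theorem run_loop {k : K} {c : Cmd K Γ} (n : ℕ) : ∀ (Z : ℕ → ∀ k, List (Γ k)) (f : ℕ → ℕ),
    Z n k = [] → (∀ i, i < n → Z i k ≠ []) → (∀ i, i < n → Run c (Z i) (Z (i + 1)) (f i)) →
    Run (.loop k c) (Z 0) (Z n) (∑ i ∈ Finset.range n, (f i + 1) + 1) := by
  induction n with
  | zero => intro Z f hn _ _; simpa using Run.loop_nil hn
  | succ n ih =>
    intro Z f hn hne hs
    have h1 := ih (fun i => Z (i + 1)) (fun i => f (i + 1)) hn (fun i hi => hne (i + 1) (by omega))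
      (fun i hi => hs (i + 1) (by omega))
    have h2 := Run.loop_cons (hne 0 (by omega)) (hs 0 (by omega)) h1
    rw [Finset.sum_range_succ']
    convert h2 using 1
    omega

theorem RunLe.loop {k : K} {c : Cmd K Γ} {n B : ℕ} (Z : ℕ → ∀ k, List (Γ k))
    (hn : Z n k = []) (hne : ∀ i, i < n → Z i k ≠ [])
    (hs : ∀ i, i < n → RunLe c (Z i) (Z (i + 1)) B) :
    RunLe (.loop k c) (Z 0) (Z n) (n * (B + 1) + 1) := by
  choose! f hf hrun using hs
  refine ⟨_, ?_, run_loop n Z f hn hne hrun⟩
  have : ∑ i ∈ Finset.range n, (f i + 1) ≤ ∑ i ∈ Finset.range n, (B + 1) :=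
    Finset.sum_le_sum fun i hi => Nat.succ_le_succ (hf i (Finset.mem_range.1 hi))
  simp only [Finset.sum_const, Finset.card_range, smul_eq_mul] at this
  omega

end RunLe

/-- The stack contents given by the input, the auxiliary input, the reversed output, the output
and the values of the counters. -/
def st (x y : List Bool) (u w : List A) (c : ℕ → ℕ) : RStk A m := fun k => match k with
  | .inp => x
  | .tmp => y
  | .rev => u
  | .out => w
  | .num i => List.replicate (c i) ()

section primitives

variable (x y : List Bool) (u w : List A) (c : ℕ → ℕ)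

theorem st_reg {t : ℕ} (ht : t ≤ m) :
    (st x y u w c : RStk A m) (reg m t) = List.replicate (c t) () := by
  simp [st, reg, Nat.min_eq_left ht]

theorem update_st_reg {t n : ℕ} (ht : t ≤ m) :
    Function.update (st x y u w c : RStk A m) (reg m t) (List.replicate n ()) =
      st x y u w (Function.update c t n) := by
  funext k
  by_cases h : k = reg m t
  · subst h
    simp [st, Nat.min_eq_left ht]
  · rw [Function.update_of_ne h]
    cases k with
    | inp => rfl
    | tmp => rfl
    | rev => rfl
    | out => rfl
    | num i =>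
      simp only [st]
      have : (i : ℕ) ≠ t := by
        rintro hh
        apply h
        unfold reg
        congr 1
        ext
        simp only [Nat.min_eq_left ht, hh]
      rw [Function.update_of_ne this]

theorem update_st_inp (z : List Bool) :
    Function.update (st x y u w c : RStk A m) .inp z = st z y u w c := by
  funext k; cases k <;> simp [st]

theorem update_st_tmp (z : List Bool) :
    Function.update (st x y u w c : RStk A m) .tmp z = st x z u w c := by
  funext k; cases k <;> simp [st]

theorem update_st_rev (z : List A) :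
    Function.update (st x y u w c : RStk A m) .rev z = st x y z w c := by
  funext k; cases k <;> simp [st]

theorem update_st_out (z : List A) :
    Function.update (st x y u w c : RStk A m) .out z = st x y u z c := by
  funext k; cases k <;> simp [st]

theorem run_inc {t : ℕ} (ht : t ≤ m) :
    RunLe (inc A m t) (st x y u w c) (st x y u w (Function.update c t (c t + 1))) 1 := by
  refine ⟨1, le_refl _, ?_⟩
  have h := Run.push (reg m t) () (st x y u w c : RStk A m)
  have e : (() :: (st x y u w c : RStk A m) (reg m t) : List (RgA A m (reg m t))) =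
      List.replicate (c t + 1) () := by
    rw [List.replicate_succ]
    exact congrArg _ (st_reg x y u w c ht)
  rw [e, update_st_reg x y u w c ht] at h
  exact h

theorem run_dec {t : ℕ} (ht : t ≤ m) :
    RunLe (dec A m t) (st x y u w c) (st x y u w (Function.update c t (c t - 1))) 1 := by
  refine ⟨1, le_refl _, ?_⟩
  have h := Run.pop (reg m t) (st x y u w c : RStk A m)
  have e : ((st x y u w c : RStk A m) (reg m t)).tail = List.replicate (c t - 1) () := by
    rw [st_reg x y u w c ht]
    simp
  rw [e, update_st_reg x y u w c ht] at h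
  exact h

theorem run_incN {t : ℕ} (ht : t ≤ m) (n : ℕ) : ∀ c : ℕ → ℕ,
    RunLe (incN A m t n) (st x y u w c) (st x y u w (Function.update c t (c t + n))) (n + 1) := by
  induction n with
  | zero => intro c; simpa [incN] using RunLe.skip _
  | succ n ih =>
    intro c
    have h := (run_inc x y u w c ht).seq (ih (Function.update c t (c t + 1)))
    rw [Function.update_idem, Function.update_self] at h
    have e : c t + 1 + n = c t + (n + 1) := by omega
    rw [e] at h
    exact h.mono (by omega)

theorem run_clear {t : ℕ} (ht : t ≤ m) :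
    RunLe (clear A m t) (st x y u w c) (st x y u w (Function.update c t 0)) (2 * c t + 1) := by
  have h := RunLe.loop (k := reg m t) (c := dec A m t) (n := c t) (B := 1)
    (fun i => (st x y u w (Function.update c t (c t - i)) : RStk A m))
    (by simp only [st_reg _ _ _ _ _ ht]; simp)
    (by intro i hi; simp only [st_reg _ _ _ _ _ ht]
        simp only [Function.update_self, ne_eq, List.replicate_eq_nil_iff]; omega)
    (by
      intro i hi
      have h1 := run_dec x y u w (Function.update c t (c t - i)) ht
      rw [Function.update_idem, Function.update_self] at h1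
      exact h1)
  simp only [Nat.sub_zero, Function.update_eq_self, Nat.sub_self] at h
  exact h.mono (by omega)

theorem run_moveIT_cons (a : Bool) :
    RunLe (moveIT A m) (st (a :: x) y u w c) (st x (a :: y) u w c) 3 := by
  refine RunLe.cas (some a) rfl (B := 2) ?_
  have h1 : RunLe (.pop .inp : RCmd A m) (st (a :: x) y u w c) (st x y u w c) 1 := by
    refine ⟨1, le_refl _, ?_⟩
    have h := Run.pop (.inp : Rg m) (st (a :: x) y u w c : RStk A m)
    rw [update_st_inp] at h
    exact h
  have h2 : RunLe (.push .tmp a : RCmd A m) (st x y u w c) (st x (a :: y) u w c) 1 := by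
    refine ⟨1, le_refl _, ?_⟩
    have h := Run.push (.tmp : Rg m) a (st x y u w c : RStk A m)
    rw [update_st_tmp] at h
    exact h
  exact h1.seq h2

theorem run_moveIT_nil :
    RunLe (moveIT A m) (st [] y u w c) (st [] y u w c) 3 :=
  (RunLe.cas none rfl (RunLe.skip _)).mono (by omega)

theorem run_restore : ∀ (y x : List Bool),
    RunLe (restore A m) (st x y u w c) (st (y.reverse ++ x) [] u w c) (4 * y.length + 1) := by
  intro y
  induction y with
  | nil => intro x; exact ⟨1, by simp, .loop_nil rfl⟩
  | cons a y ih =>
    intro x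
    have h1 : RunLe (.pop .tmp : RCmd A m) (st x (a :: y) u w c) (st x y u w c) 1 := by
      refine ⟨1, le_refl _, ?_⟩
      have h := Run.pop (.tmp : Rg m) (st x (a :: y) u w c : RStk A m)
      rw [update_st_tmp] at h
      exact h
    have h2 : RunLe (.push .inp a : RCmd A m) (st x y u w c) (st (a :: x) y u w c) 1 := by
      refine ⟨1, le_refl _, ?_⟩
      have h := Run.push (.inp : Rg m) a (st x y u w c : RStk A m)
      rw [update_st_inp] at h
      exact h
    have h3 : RunLe (.cas .tmp (restoreBody A m) : RCmd A m) (st x (a :: y) u w c)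
        (st (a :: x) y u w c) 3 := by
      refine RunLe.cas (some a) rfl (B := 2) ?_
      exact h1.seq h2
    obtain ⟨n₁, hn₁, h3⟩ := h3
    obtain ⟨n₂, hn₂, h4⟩ := ih (a :: x)
    refine ⟨n₂ + n₁ + 1, by simp only [List.length_cons]; omega, ?_⟩
    have h5 := Run.loop_cons (k := (.tmp : Rg m)) (S := st x (a :: y) u w c)
      (by simp [st]) h3 h4
    have e : (a :: y).reverse ++ x = y.reverse ++ a :: x := by simp
    rw [e]
    exact h5

end primitives

end Pool.Agent.H75
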