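import Mathlib
import Pool.Agent.H75.Loop

/-!
# Correctness and polynomial running time of the compiled loop language
-/

set_option autoImplicit false

namespace Pool.Agent.H75

open Turing StateTransition Polynomial

theorem poly_mono (P : Polynomial ℕ) {a b : ℕ} (h : a ≤ b) : P.eval a ≤ P.eval b := by
  rw [Polynomial.eval_eq_sum_range, Polynomial.eval_eq_sum_range]
  exact Finset.sum_le_sum fun i _ => Nat.mul_le_mul_left _ (Nat.pow_le_pow_left h i)

theorem Ex.exists_valBound (e : Ex) : ∃ P : Polynomial ℕ, ∀ (x : List Bool) (ρ : ℕ → ℕ) (M : ℕ),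
    x.length ≤ M → (∀ v, ρ v ≤ M) → e.val x ρ ≤ P.eval M := by
  induction e with
  | const c => exact ⟨C c, fun x ρ M _ _ => by simp [Ex.val]⟩
  | var v => exact ⟨X, fun x ρ M _ h => by simpa [Ex.val] using h v⟩
  | len => exact ⟨X, fun x ρ M h _ => by simpa [Ex.val] using h⟩
  | add e f ihe ihf =>
    obtain ⟨P, hP⟩ := ihe
    obtain ⟨Q, hQ⟩ := ihf
    exact ⟨P + Q, fun x ρ M h1 h2 => by
      simpa [Ex.val] using Nat.add_le_add (hP x ρ M h1 h2) (hQ x ρ M h1 h2)⟩
  | sum v e f ihe ihf =>
    obtain ⟨P, hP⟩ := ihe
    obtain ⟨Q, hQ⟩ := ihf
    refine ⟨P * Q.comp (X + P), fun x ρ M h1 h2 => ?_⟩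
    simp only [Ex.val, eval_mul, eval_comp, eval_add, eval_X]
    have h3 := hP x ρ M h1 h2
    calc ∑ j ∈ Finset.range (e.val x ρ), f.val x (Function.update ρ v j)
        ≤ ∑ j ∈ Finset.range (e.val x ρ), Q.eval (M + P.eval M) := by
          refine Finset.sum_le_sum fun j hj => hQ x _ _ (by omega) fun v' => ?_
          rw [Finset.mem_range] at hj
          rw [Function.update_apply]
          split_ifs
          · omega
          · have := h2 v'; omega
      _ = e.val x ρ * Q.eval (M + P.eval M) := by simp
      _ ≤ _ := Nat.mul_le_mul_right _ h3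
  | ite c e f _ ihe ihf =>
    obtain ⟨P, hP⟩ := ihe
    obtain ⟨Q, hQ⟩ := ihf
    refine ⟨P + Q, fun x ρ M h1 h2 => ?_⟩
    have h3 := hP x ρ M h1 h2
    have h4 := hQ x ρ M h1 h2
    simp only [Ex.val, eval_add]
    split_ifs <;> omega
  | lt e f _ _ =>
    refine ⟨1, fun x ρ M h1 h2 => ?_⟩
    simp only [Ex.val, eval_one]
    split_ifs <;> omega
  | bit e _ =>
    refine ⟨1, fun x ρ M h1 h2 => ?_⟩
    simp only [Ex.val, eval_one]
    split_ifs <;> omega

variable {A : Type} {m : ℕ}

theorem run_ifNum {b : ℕ} (hb : b ≤ m) {p q : RCmd A m} {x y : List Bool} {u w : List A}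
    {c : ℕ → ℕ} {S : RStk A m} {B : ℕ}
    (h0 : c b = 0 → RunLe q (st x y u w c) S B) (h1 : c b ≠ 0 → RunLe p (st x y u w c) S B) :
    RunLe (ifNum m b p q) (st x y u w c) S (B + 1) := by
  unfold ifNum
  by_cases hc : c b = 0
  · refine RunLe.cas none ?_ (h0 hc)
    rw [st_reg _ _ _ _ _ hb, hc]; rfl
  · refine RunLe.cas (some ()) ?_ (h1 hc)
    rw [st_reg _ _ _ _ _ hb]
    obtain ⟨k, hk⟩ := Nat.exists_eq_succ_of_ne_zero hc
    rw [hk]; rfl

theorem RunLe.of_eq {K : Type} {Γ : K → Type} [DecidableEq K] {c : Cmd K Γ}
    {S S' S'' : ∀ k, List (Γ k)} {B : ℕ} (h : RunLe c S S' B) (e : S' = S'') : RunLe c S S'' B :=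
  e ▸ h

/-- Compilation of a bounded loop, given the specification of its body. -/
theorem run_for {b n : ℕ} (hb : b + 1 ≤ m) {body : RCmd A m} {x : List Bool} {w : List A}
    (U : ℕ → List A) (c : ℕ → ℕ → ℕ) {B : ℕ}
    (hbody : ∀ i, i < n → RunLe body
      (st x [] (U i) w (Function.update (Function.update (c i) (b + 1) (n - (i + 1))) b i))
      (st x [] (U (i + 1)) w
        (Function.update (Function.update (c (i + 1)) (b + 1) (n - (i + 1))) b i)) B) :
    RunLe (.seq (.loop (reg m (b + 1)) (.seq (dec A m (b + 1)) (.seq body (inc A m b))))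
        (clear A m b))
      (st x [] (U 0) w (Function.update (Function.update (c 0) (b + 1) n) b 0))
      (st x [] (U n) w (Function.update (Function.update (c n) (b + 1) 0) b 0))
      (n * (B + 3) + 1 + (2 * n + 1)) := by
  have h1 := RunLe.loop (k := reg m (b + 1))
    (c := .seq (dec A m (b + 1)) (.seq body (inc A m b))) (n := n) (B := B + 2)
    (fun i => (st x [] (U i) w (Function.update (Function.update (c i) (b + 1) (n - i)) b i) :
      RStk A m))
    (by
      simp only [st_reg _ _ _ _ _ hb]
      simp)
    (by
      intro i hi
      simp only [st_reg _ _ _ _ _ hb]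
      simp
      omega)
    (by
      intro i hi
      have h2 := run_dec x [] (U i) w
        (Function.update (Function.update (c i) (b + 1) (n - i)) b i) hb
      have e1 : Function.update (Function.update (Function.update (c i) (b + 1) (n - i)) b i)
          (b + 1) (Function.update (Function.update (c i) (b + 1) (n - i)) b i (b + 1) - 1) =
          Function.update (Function.update (c i) (b + 1) (n - (i + 1))) b i := by
        funext k
        simp only [Function.update_apply]
        split_ifs <;> omega
      rw [e1] at h2
      have h3 := run_inc x [] (U (i + 1)) w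
        (Function.update (Function.update (c (i + 1)) (b + 1) (n - (i + 1))) b i)
        (show b ≤ m by omega)
      have e2 : Function.update (Function.update (Function.update (c (i + 1)) (b + 1)
          (n - (i + 1))) b i) b
          (Function.update (Function.update (c (i + 1)) (b + 1) (n - (i + 1))) b i b + 1) =
          Function.update (Function.update (c (i + 1)) (b + 1) (n - (i + 1))) b (i + 1) := by
        funext k
        simp only [Function.update_apply]
        split_ifs <;> omega
      rw [e2] at h3
      exact (h2.seq ((hbody i hi).seq h3)).mono (by omega))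
  simp only [Nat.sub_zero, Nat.sub_self] at h1
  have h4 := run_clear x [] (U n) w (Function.update (Function.update (c n) (b + 1) 0) b n)
    (show b ≤ m by omega)
  rw [Function.update_idem, Function.update_self] at h4
  exact (h1.seq h4).mono (le_of_eq (by ring))

/-- The invariant: variables are stored in counters below `b`, counters from `b` on are zero. -/
structure Inv (r : ℕ → ℕ) (ρ : ℕ → ℕ) (b : ℕ) (c : ℕ → ℕ) : Prop where
  lt : ∀ v, r v < b
  val : ∀ v, c (r v) = ρ v
  zero : ∀ i, b ≤ i → c i = 0

/-- Specification of a compiled expression. -/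
def ExSpec (A : Type) (e : Ex) (C : Polynomial ℕ) : Prop :=
  ∀ (m : ℕ) (r : ℕ → ℕ) (b t : ℕ) (x : List Bool) (u w : List A) (c ρ : ℕ → ℕ) (M : ℕ),
    Inv r ρ b c → t < b → (∀ v, r v ≠ t) → b + e.need ≤ m + 1 → x.length ≤ M →
    (∀ v, ρ v ≤ M) →
    RunLe (compEx A m e r b t) (st x [] u w c)
      (st x [] u w (Function.update c t (c t + e.val x ρ))) (C.eval M)

theorem spec_const (A : Type) (n : ℕ) : ExSpec A (.const n) (C (n + 1)) := by
  intro m r b t x u w c ρ M hI ht hrt hm hx hρ
  simp only [compEx, Ex.val, eval_C]
  simp only [Ex.need] at hm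
  exact run_incN x [] u w (by omega) n c

theorem spec_var (A : Type) (v : ℕ) : ExSpec A (.var v) (7 * X + 2) := by
  intro m r b t x u w c ρ M hI ht hrt hm hx hρ
  simp only [Ex.need] at hm
  have hrb := hI.lt v
  have hb0 := hI.zero b le_rfl
  have hrv : c (r v) = ρ v := hI.val v
  have hrt' := hrt v
  have hρv := hρ v
  simp only [compEx, Ex.val]
  set n := ρ v with hn
  set q := r v with hq
  have h1 := RunLe.loop (k := reg m q)
    (c := .seq (dec A m q) (.seq (inc A m t) (inc A m b))) (n := n) (B := 3)
    (fun i => (st x [] u w (Function.update (Function.update (Function.update c q (n - i))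
      t (c t + i)) b i) : RStk A m))
    (by
      simp only [st_reg _ _ _ _ _ (show q ≤ m by omega), List.replicate_eq_nil_iff]
      simp only [Function.update_apply]
      split_ifs <;> omega)
    (by
      intro i hi
      simp only [st_reg _ _ _ _ _ (show q ≤ m by omega), ne_eq, List.replicate_eq_nil_iff]
      simp only [Function.update_apply]
      split_ifs <;> omega)
    (by
      intro i hi
      have a1 := run_dec x [] u w (Function.update (Function.update (Function.update c q (n - i))
        t (c t + i)) b i) (show q ≤ m by omega)
      have a2 := run_inc x [] u w (Function.update (Function.update (Function.update c q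
        (n - (i + 1))) t (c t + i)) b i) (show t ≤ m by omega)
      have a3 := run_inc x [] u w (Function.update (Function.update (Function.update c q
        (n - (i + 1))) t (c t + (i + 1))) b i) (show b ≤ m by omega)
      refine ((a1.of_eq ?_).seq ((a2.of_eq ?_).seq (a3.of_eq ?_))).mono (by omega)
      · congr 1
        funext k
        simp only [Function.update_apply]
        split_ifs <;> omega
      · congr 1
        funext k
        simp only [Function.update_apply]
        split_ifs <;> omega
      · congr 1
        funext k
        simp only [Function.update_apply]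
        split_ifs <;> omega)
  have h2 := RunLe.loop (k := reg m b)
    (c := .seq (dec A m b) (inc A m q)) (n := n) (B := 2)
    (fun i => (st x [] u w (Function.update (Function.update (Function.update c q i)
      t (c t + n)) b (n - i)) : RStk A m))
    (by
      simp only [st_reg _ _ _ _ _ (show b ≤ m by omega), List.replicate_eq_nil_iff]
      simp only [Function.update_apply]
      split_ifs <;> omega)
    (by
      intro i hi
      simp only [st_reg _ _ _ _ _ (show b ≤ m by omega), ne_eq, List.replicate_eq_nil_iff]
      simp only [Function.update_apply]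
      split_ifs <;> omega)
    (by
      intro i hi
      have a1 := run_dec x [] u w (Function.update (Function.update (Function.update c q i)
        t (c t + n)) b (n - i)) (show b ≤ m by omega)
      have a2 := run_inc x [] u w (Function.update (Function.update (Function.update c q
        i) t (c t + n)) b (n - (i + 1))) (show q ≤ m by omega)
      refine ((a1.of_eq ?_).seq (a2.of_eq ?_)).mono (by omega)
      · congr 1
        funext k
        simp only [Function.update_apply]
        split_ifs <;> omega
      · congr 1
        funext k
        simp only [Function.update_apply]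
        split_ifs <;> omega)
  simp only [Nat.sub_zero, Nat.sub_self, Nat.add_zero] at h1 h2
  have e0 : (st x [] u w c : RStk A m) = st x [] u w (Function.update (Function.update
      (Function.update c q n) t (c t)) b 0) := by
    congr 1
    funext k
    simp only [Function.update_apply]
    split_ifs <;> simp_all
  have e1 : (st x [] u w (Function.update (Function.update (Function.update c q n) t (c t + n)) b 0) :
      RStk A m) = st x [] u w (Function.update c t (c t + n)) := by
    congr 1
    funext k
    simp only [Function.update_apply]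
    split_ifs <;> simp_all
  rw [e0]
  refine ((h1.seq h2).of_eq e1).mono ?_
  simp only [eval_add, eval_mul, eval_X, eval_ofNat]
  omega

theorem drop_eq_cons (x : List Bool) {i : ℕ} (hi : i < x.length) :
    x.drop i = x[i] :: x.drop (i + 1) := List.drop_eq_getElem_cons hi

theorem take_succ_reverse (x : List Bool) {i : ℕ} (hi : i < x.length) :
    (x.take (i + 1)).reverse = x[i] :: (x.take i).reverse := by
  rw [List.take_add_one, List.getElem?_eq_getElem hi]
  simp

theorem run_moveIT_step (x : List Bool) (i : ℕ) (u w : List A) (c : ℕ → ℕ) :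
    RunLe (moveIT A m) (st (x.drop i) ((x.take i).reverse) u w c)
      (st (x.drop (i + 1)) ((x.take (i + 1)).reverse) u w c) 3 := by
  by_cases hi : i < x.length
  · rw [drop_eq_cons x hi, take_succ_reverse x hi]
    exact run_moveIT_cons _ _ _ _ _ _
  · rw [List.drop_eq_nil_of_le (by omega), List.drop_eq_nil_of_le (by omega),
      List.take_of_length_le (by omega), List.take_of_length_le (by omega)]
    exact run_moveIT_nil _ _ _ _

theorem restore_take (x : List Bool) (i : ℕ) (u w : List A) (c : ℕ → ℕ) :
    RunLe (restore A m) (st (x.drop i) ((x.take i).reverse) u w c)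
      (st x [] u w c) (4 * x.length + 1) := by
  have h := run_restore (m := m) u w c ((x.take i).reverse) (x.drop i)
  have e : ((x.take i).reverse).reverse ++ x.drop i = x := by simp
  rw [e] at h
  refine h.mono ?_
  simp only [List.length_reverse, List.length_take]
  omega

theorem spec_len (A : Type) : ExSpec A .len (9 * X + 2) := by
  intro m r b t x u w c ρ M hI ht hrt hm hx hρ
  simp only [Ex.need] at hm
  simp only [compEx, Ex.val]
  have h1 := RunLe.loop (k := (.inp : Rg m))
    (c := .seq (moveIT A m) (inc A m t)) (n := x.length) (B := 4)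
    (fun i => (st (x.drop i) ((x.take i).reverse) u w (Function.update c t (c t + i)) : RStk A m))
    (by simp [st])
    (by
      intro i hi
      simp only [st]
      intro hh
      have := congrArg List.length hh
      simp only [List.length_drop, List.length_nil] at this
      omega)
    (by
      intro i hi
      have a1 := run_moveIT_step (m := m) x i u w (Function.update c t (c t + i))
      have a2 := run_inc (x.drop (i + 1)) ((x.take (i + 1)).reverse) u w
        (Function.update c t (c t + i)) (show t ≤ m by omega)
      rw [Function.update_idem, Function.update_self] at a2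
      exact a1.seq a2)
  have h2 := restore_take (m := m) x x.length u w (Function.update c t (c t + x.length))
  simp only [List.drop_zero, List.take_zero, List.reverse_nil, Nat.add_zero,
    Function.update_eq_self] at h1
  refine (h1.seq h2).mono ?_
  simp only [eval_add, eval_mul, eval_X, eval_ofNat]
  omega

theorem spec_add (A : Type) {e f : Ex} {P Q : Polynomial ℕ} (he : ExSpec A e P)
    (hf : ExSpec A f Q) : ExSpec A (.add e f) (P + Q) := by
  intro m r b t x u w c ρ M hI ht hrt hm hx hρ
  simp only [Ex.need] at hm
  simp only [compEx, Ex.val, eval_add]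
  have h1 := he m r b t x u w c ρ M hI ht hrt (by omega) hx hρ
  have hI2 : Inv r ρ b (Function.update c t (c t + e.val x ρ)) := by
    refine ⟨hI.lt, fun v => ?_, fun i hi => ?_⟩
    · rw [Function.update_of_ne (hrt v)]; exact hI.val v
    · rw [Function.update_of_ne (by omega)]; exact hI.zero i hi
  have h2 := hf m r b t x u w _ ρ M hI2 ht hrt (by omega) hx hρ
  rw [Function.update_idem, Function.update_self, Nat.add_assoc] at h2
  exact h1.seq h2

theorem spec_ite (A : Type) {g e f : Ex} {G P Q V : Polynomial ℕ} (hg : ExSpec A g G)
    (he : ExSpec A e P) (hf : ExSpec A f Q)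
    (hV : ∀ (x : List Bool) (ρ : ℕ → ℕ) (M : ℕ),
      x.length ≤ M → (∀ v, ρ v ≤ M) → g.val x ρ ≤ V.eval M) :
    ExSpec A (.ite g e f) (G + (2 * V + 1 + P + Q) + 1) := by
  intro m r b t x u w c ρ M hI ht hrt hm hx hρ
  simp only [Ex.need] at hm
  simp only [compEx, Ex.val, eval_add, eval_mul, eval_ofNat, eval_one]
  have hIb : Inv r ρ (b + 1) c :=
    ⟨fun v => Nat.lt_succ_of_lt (hI.lt v), hI.val, fun i hi => hI.zero i (by omega)⟩
  have h1 := hg m r (b + 1) b x u w c ρ M hIb (by omega) (fun v => (hI.lt v).ne) (by omega) hx hρ
  have hcb : c b = 0 := hI.zero b le_rfl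
  rw [hcb, Nat.zero_add] at h1
  have hgV := hV x ρ M hx hρ
  refine (h1.seq (run_ifNum (B := 2 * V.eval M + 1 + P.eval M + Q.eval M) (by omega) ?_ ?_)).mono
    (by omega)
  · intro h0
    rw [Function.update_self] at h0
    rw [if_pos h0, h0, ← hcb, Function.update_eq_self]
    exact (hf m r (b + 1) t x u w c ρ M hIb (by omega) hrt (by omega) hx hρ).mono (by omega)
  · intro h0
    rw [Function.update_self] at h0
    rw [if_neg h0]
    have h2 := run_clear x [] u w (Function.update c b (g.val x ρ)) (show b ≤ m by omega)
    rw [Function.update_idem, ← hcb, Function.update_eq_self, Function.update_self] at h2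
    exact (h2.seq (he m r (b + 1) t x u w c ρ M hIb (by omega) hrt (by omega) hx hρ)).mono
      (by omega)

theorem spec_lt (A : Type) {e f : Ex} {P Q V W : Polynomial ℕ}
    (he : ExSpec A e P) (hf : ExSpec A f Q)
    (hV : ∀ (x : List Bool) (ρ : ℕ → ℕ) (M : ℕ),
      x.length ≤ M → (∀ v, ρ v ≤ M) → e.val x ρ ≤ V.eval M)
    (hW : ∀ (x : List Bool) (ρ : ℕ → ℕ) (M : ℕ),
      x.length ≤ M → (∀ v, ρ v ≤ M) → f.val x ρ ≤ W.eval M) :
    ExSpec A (.lt e f) (P + (Q + ((3 * V + 1) + (2 + (2 * W + 1))))) := by
  intro m r b t x u w c ρ M hI ht hrt hm hx hρ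
  simp only [Ex.need] at hm
  simp only [compEx, Ex.val, eval_add, eval_mul, eval_ofNat, eval_one]
  have hIb : Inv r ρ (b + 2) c :=
    ⟨fun v => (hI.lt v).trans (by omega), hI.val, fun i hi => hI.zero i (by omega)⟩
  have hcb : c b = 0 := hI.zero b le_rfl
  have hcb1 : c (b + 1) = 0 := hI.zero (b + 1) (by omega)
  have h1 := he m r (b + 2) b x u w c ρ M hIb (by omega) (fun v => (hI.lt v).ne) (by omega) hx hρ
  rw [hcb, Nat.zero_add] at h1
  have hI2 : Inv r ρ (b + 2) (Function.update c b (e.val x ρ)) := by
    refine ⟨hIb.lt, fun v => ?_, fun i hi => ?_⟩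
    · rw [Function.update_of_ne (hI.lt v).ne]; exact hI.val v
    · rw [Function.update_of_ne (by omega)]; exact hI.zero i (by omega)
  have h2 := hf m r (b + 2) (b + 1) x u w _ ρ M hI2 (by omega)
    (fun v => by have := hI.lt v; omega) (by omega) hx hρ
  rw [Function.update_of_ne (show b + 1 ≠ b by omega), hcb1, Nat.zero_add] at h2
  have hgV := hV x ρ M hx hρ
  have hgW := hW x ρ M hx hρ
  set n₁ := e.val x ρ with hn₁
  set n₂ := f.val x ρ with hn₂
  have h3 := RunLe.loop (k := reg m b)
    (c := .seq (dec A m b) (dec A m (b + 1))) (n := n₁) (B := 2)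
    (fun i => (st x [] u w (Function.update (Function.update c b (n₁ - i)) (b + 1) (n₂ - i)) :
      RStk A m))
    (by
      simp only [st_reg _ _ _ _ _ (show b ≤ m by omega), List.replicate_eq_nil_iff]
      simp only [Function.update_apply]
      split_ifs <;> omega)
    (by
      intro i hi
      simp only [st_reg _ _ _ _ _ (show b ≤ m by omega), ne_eq, List.replicate_eq_nil_iff]
      simp only [Function.update_apply]
      split_ifs <;> omega)
    (by
      intro i hi
      have a1 := run_dec x [] u w (Function.update (Function.update c b (n₁ - i)) (b + 1) (n₂ - i))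
        (show b ≤ m by omega)
      have a2 := run_dec x [] u w (Function.update (Function.update c b (n₁ - (i + 1))) (b + 1)
        (n₂ - i)) (show b + 1 ≤ m by omega)
      refine ((a1.of_eq ?_).seq (a2.of_eq ?_)).mono (by omega)
      · congr 1
        funext k
        simp only [Function.update_apply]
        split_ifs <;> omega
      · congr 1
        funext k
        simp only [Function.update_apply]
        split_ifs <;> omega)
  simp only [Nat.sub_zero, Nat.sub_self] at h3
  have e0 : Function.update (Function.update c b 0) (b + 1) (n₂ - n₁) =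
      Function.update c (b + 1) (n₂ - n₁) := by
    rw [← hcb, Function.update_eq_self]
  rw [e0] at h3
  have h4 : RunLe (ifNum m (b + 1) (inc A m t) .skip)
      (st x [] u w (Function.update c (b + 1) (n₂ - n₁)))
      (st x [] u w (Function.update (Function.update c (b + 1) (n₂ - n₁)) t
        (c t + if n₁ < n₂ then 1 else 0))) (1 + 1) := by
    refine run_ifNum (by omega) ?_ ?_
    · intro h0
      rw [Function.update_self] at h0
      rw [if_neg (by omega)]
      refine (RunLe.skip _).of_eq ?_
      congr 1
      funext k
      simp only [Function.update_apply]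
      split_ifs <;> simp_all
    · intro h0
      rw [Function.update_self] at h0
      rw [if_pos (by omega)]
      refine (run_inc x [] u w _ (show t ≤ m by omega)).of_eq ?_
      rw [Function.update_of_ne (show t ≠ b + 1 by omega)]
  have h5 := run_clear x [] u w (Function.update (Function.update c (b + 1) (n₂ - n₁)) t
        (c t + if n₁ < n₂ then 1 else 0)) (show b + 1 ≤ m by omega)
  have e1 : Function.update (Function.update (Function.update c (b + 1) (n₂ - n₁)) t
        (c t + if n₁ < n₂ then 1 else 0)) (b + 1) 0 =
      Function.update c t (c t + if n₁ < n₂ then 1 else 0) := by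
    funext k
    simp only [Function.update_apply]
    split_ifs <;> simp_all
  rw [e1, Function.update_of_ne (show b + 1 ≠ t by omega), Function.update_self] at h5
  exact (h1.seq (h2.seq (h3.seq (h4.seq h5)))).mono (by omega)

theorem spec_bit (A : Type) {e : Ex} {P V : Polynomial ℕ} (he : ExSpec A e P)
    (hV : ∀ (x : List Bool) (ρ : ℕ → ℕ) (M : ℕ),
      x.length ≤ M → (∀ v, ρ v ≤ M) → e.val x ρ ≤ V.eval M) :
    ExSpec A (.bit e) (P + ((5 * V + 1) + (2 + (4 * X + 1)))) := by
  intro m r b t x u w c ρ M hI ht hrt hm hx hρ
  simp only [Ex.need] at hm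
  simp only [compEx, Ex.val, eval_add, eval_mul, eval_ofNat, eval_one, eval_X]
  have hIb : Inv r ρ (b + 1) c :=
    ⟨fun v => Nat.lt_succ_of_lt (hI.lt v), hI.val, fun i hi => hI.zero i (by omega)⟩
  have h1 := he m r (b + 1) b x u w c ρ M hIb (by omega) (fun v => (hI.lt v).ne) (by omega) hx hρ
  have hcb : c b = 0 := hI.zero b le_rfl
  rw [hcb, Nat.zero_add] at h1
  have hgV := hV x ρ M hx hρ
  set n := e.val x ρ with hn
  have h2 := RunLe.loop (k := reg m b)
    (c := .seq (dec A m b) (moveIT A m)) (n := n) (B := 4)
    (fun i => (st (x.drop i) ((x.take i).reverse) u w (Function.update c b (n - i)) : RStk A m))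
    (by
      simp only [st_reg _ _ _ _ _ (show b ≤ m by omega), List.replicate_eq_nil_iff]
      simp)
    (by
      intro i hi
      simp only [st_reg _ _ _ _ _ (show b ≤ m by omega), ne_eq, List.replicate_eq_nil_iff]
      simp
      omega)
    (by
      intro i hi
      have a1 := run_dec (x.drop i) ((x.take i).reverse) u w (Function.update c b (n - i))
        (show b ≤ m by omega)
      rw [Function.update_idem, Function.update_self,
        show n - i - 1 = n - (i + 1) by omega] at a1
      exact a1.seq (run_moveIT_step x i u w _))
  simp only [Nat.sub_zero, Nat.sub_self, List.drop_zero, List.take_zero, List.reverse_nil] at h2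
  rw [← hcb, Function.update_eq_self] at h2
  have h3 : RunLe (.cas .inp fun a => cond (a == some true) (inc A m t) .skip : RCmd A m)
      (st (x.drop n) ((x.take n).reverse) u w c)
      (st (x.drop n) ((x.take n).reverse) u w
        (Function.update c t (c t + if x[n]? = some true then 1 else 0))) (1 + 1) := by
    refine RunLe.cas (x[n]?) ?_ ?_
    · simp [st]
    · by_cases hb : x[n]? = some true
      · rw [if_pos hb, hb]
        exact run_inc _ _ u w c (show t ≤ m by omega)
      · rw [if_neg hb, Nat.add_zero, Function.update_eq_self]
        have : (x[n]? == some true) = false := by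
          rw [beq_eq_false_iff_ne]; exact hb
        rw [this]
        exact RunLe.skip _
  have h4 := restore_take (m := m) x n u w
    (Function.update c t (c t + if x[n]? = some true then 1 else 0))
  exact (h1.seq (h2.seq (h3.seq h4))).mono (by omega)

theorem spec_sum (A : Type) {v : ℕ} {e f : Ex} {P Q V : Polynomial ℕ}
    (he : ExSpec A e P) (hf : ExSpec A f Q)
    (hV : ∀ (x : List Bool) (ρ : ℕ → ℕ) (M : ℕ),
      x.length ≤ M → (∀ v, ρ v ≤ M) → e.val x ρ ≤ V.eval M) :
    ExSpec A (.sum v e f) (P + (V * (Q.comp (X + V) + 3) + 1 + (2 * V + 1))) := by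
  intro m r b t x u w c ρ M hI ht hrt hm hx hρ
  simp only [Ex.need] at hm
  simp only [compEx, Ex.val, eval_add, eval_mul, eval_ofNat, eval_one, eval_comp, eval_X]
  have hIb : Inv r ρ (b + 2) c :=
    ⟨fun v => (hI.lt v).trans (by omega), hI.val, fun i hi => hI.zero i (by omega)⟩
  have hcb : c b = 0 := hI.zero b le_rfl
  have hcb1 : c (b + 1) = 0 := hI.zero (b + 1) (by omega)
  have h1 := he m r (b + 2) (b + 1) x u w c ρ M hIb (by omega)
    (fun v => by have := hI.lt v; omega) (by omega) hx hρ
  rw [hcb1, Nat.zero_add] at h1
  have hgV := hV x ρ M hx hρ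
  set n := e.val x ρ with hn
  have h2 := run_for (A := A) (m := m) (b := b) (n := n) (by omega)
    (body := compEx A m f (Function.update r v b) (b + 2) t) (x := x) (w := w) (fun _ => u)
    (fun i => Function.update c t
      (c t + ∑ j ∈ Finset.range i, f.val x (Function.update ρ v j)))
    (B := Q.eval (M + V.eval M)) (by
      intro i hi
      have h3 := hf m (Function.update r v b) (b + 2) t x u w
        (Function.update (Function.update (Function.update c t
          (c t + ∑ j ∈ Finset.range i, f.val x (Function.update ρ v j))) (b + 1) (n - (i + 1))) b i)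
        (Function.update ρ v i) (M + V.eval M)
        ⟨by
          intro v'
          rw [Function.update_apply]
          split_ifs
          · omega
          · have := hI.lt v'; omega,
        by
          intro v'
          by_cases hv : v' = v
          · subst hv; simp
          · have h4 := hI.lt v'
            have h5 := hrt v'
            rw [Function.update_of_ne hv, Function.update_of_ne hv,
              Function.update_of_ne (by omega), Function.update_of_ne (by omega),
              Function.update_of_ne h5]
            exact hI.val v',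
        by
          intro i' hi'
          rw [Function.update_of_ne (by omega), Function.update_of_ne (by omega),
            Function.update_of_ne (by omega)]
          exact hI.zero i' (by omega)⟩
        (by omega)
        (by
          intro v'
          rw [Function.update_apply]
          split_ifs
          · omega
          · exact hrt v')
        (by omega) (by omega)
        (by
          intro v'
          rw [Function.update_apply]
          split_ifs
          · omega
          · have := hρ v'; omega)
      refine h3.of_eq ?_
      congr 1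
      funext k
      simp only [Function.update_apply]
      split_ifs <;> simp_all [Finset.sum_range_succ] <;> omega)
  have e0 : Function.update c (b + 1) n = Function.update (Function.update (Function.update c t
      (c t + ∑ j ∈ Finset.range 0, f.val x (Function.update ρ v j))) (b + 1) n) b 0 := by
    funext k
    simp only [Function.update_apply]
    split_ifs <;> simp_all
  have e1 : Function.update (Function.update (Function.update c t
      (c t + ∑ j ∈ Finset.range n, f.val x (Function.update ρ v j))) (b + 1) 0) b 0 =
      Function.update c t (c t + ∑ j ∈ Finset.range n, f.val x (Function.update ρ v j)) := by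
    funext k
    simp only [Function.update_apply]
    split_ifs <;> simp_all
  rw [e1, ← e0] at h2
  refine (h1.seq h2).mono ?_
  have : n * (Q.eval (M + V.eval M) + 3) ≤ V.eval M * (Q.eval (M + V.eval M) + 3) :=
    Nat.mul_le_mul_right _ hgV
  omega

theorem compEx_spec (A : Type) (e : Ex) : ∃ C : Polynomial ℕ, ExSpec A e C := by
  induction e with
  | const c => exact ⟨_, spec_const A c⟩
  | var v => exact ⟨_, spec_var A v⟩
  | len => exact ⟨_, spec_len A⟩
  | add e f ihe ihf =>
    obtain ⟨P, hP⟩ := ihe
    obtain ⟨Q, hQ⟩ := ihf
    exact ⟨_, spec_add A hP hQ⟩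
  | sum v e f ihe ihf =>
    obtain ⟨P, hP⟩ := ihe
    obtain ⟨Q, hQ⟩ := ihf
    obtain ⟨V, hV⟩ := e.exists_valBound
    exact ⟨_, spec_sum A hP hQ hV⟩
  | ite c e f ihc ihe ihf =>
    obtain ⟨G, hG⟩ := ihc
    obtain ⟨P, hP⟩ := ihe
    obtain ⟨Q, hQ⟩ := ihf
    obtain ⟨V, hV⟩ := c.exists_valBound
    exact ⟨_, spec_ite A hG hP hQ hV⟩
  | lt e f ihe ihf =>
    obtain ⟨P, hP⟩ := ihe
    obtain ⟨Q, hQ⟩ := ihf
    obtain ⟨V, hV⟩ := e.exists_valBound
    obtain ⟨W, hW⟩ := f.exists_valBound
    exact ⟨_, spec_lt A hP hQ hV hW⟩
  | bit e ihe =>
    obtain ⟨P, hP⟩ := ihe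
    obtain ⟨V, hV⟩ := e.exists_valBound
    exact ⟨_, spec_bit A hP hV⟩

end Pool.Agent.H75
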