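import Mathlib
import Pool.Agent.H75.LoopSpec

/-!
# Loop programs are computed by `FinTM2` in polynomial time
-/

set_option autoImplicit false

namespace Pool.Agent.H75

open Turing StateTransition Polynomial

variable {A : Type} {m : ℕ}

/-- Compilation of output programs. -/
def compPr (m : ℕ) : Pr A → (ℕ → ℕ) → ℕ → RCmd A m
  | .nil, _, _ => .skip
  | .emit a, _, _ => .push .rev a
  | .seq p q, r, b => .seq (compPr m p r b) (compPr m q r b)
  | .ite c p q, r, b => .seq (compEx A m c r (b + 1) b)
      (ifNum m b (.seq (clear A m b) (compPr m p r (b + 1))) (compPr m q r (b + 1)))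
  | .rep v e p, r, b => .seq (compEx A m e r (b + 2) (b + 1)) (.seq
      (.loop (reg m (b + 1)) (.seq (dec A m (b + 1))
        (.seq (compPr m p (Function.update r v b) (b + 2)) (inc A m b))))
      (clear A m b))

/-- Number of free counters needed. -/
def Pr.need : Pr A → ℕ
  | .nil => 0
  | .emit _ => 0
  | .seq p q => max p.need q.need
  | .ite c p q => 1 + max c.need (max p.need q.need)
  | .rep _ e p => 2 + max e.need p.need

/-- Specification of a compiled output program. -/
def PrSpec (p : Pr A) (C : Polynomial ℕ) : Prop :=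
  ∀ (m : ℕ) (r : ℕ → ℕ) (b : ℕ) (x : List Bool) (u w : List A) (c ρ : ℕ → ℕ) (M : ℕ),
    Inv r ρ b c → b + p.need ≤ m + 1 → x.length ≤ M → (∀ v, ρ v ≤ M) →
    RunLe (compPr m p r b) (st x [] u w c)
      (st x [] ((p.out x ρ).reverse ++ u) w c) (C.eval M)

theorem pspec_ite {g : Ex} {p q : Pr A} {G P Q V : Polynomial ℕ} (hg : ExSpec A g G)
    (hp : PrSpec p P) (hq : PrSpec q Q)
    (hV : ∀ (x : List Bool) (ρ : ℕ → ℕ) (M : ℕ),
      x.length ≤ M → (∀ v, ρ v ≤ M) → g.val x ρ ≤ V.eval M) :
    PrSpec (.ite g p q) (G + (2 * V + 1 + P + Q) + 1) := by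
  intro m r b x u w c ρ M hI hm hx hρ
  simp only [Pr.need] at hm
  simp only [compPr, Pr.out, eval_add, eval_mul, eval_ofNat, eval_one]
  have hIb : Inv r ρ (b + 1) c :=
    ⟨fun v => Nat.lt_succ_of_lt (hI.lt v), hI.val, fun i hi => hI.zero i (by omega)⟩
  have h1 := hg m r (b + 1) b x u w c ρ M hIb (by omega) (fun v => (hI.lt v).ne) (by omega) hx hρ
  have hcb : c b = 0 := hI.zero b le_rfl
  rw [hcb, Nat.zero_add] at h1
  have hgV := hV x ρ M hx hρ
  refine (h1.seq (run_ifNum (B := 2 * V.eval M + 1 + P.eval M + Q.eval M) (by omega) ?_ ?_)).mono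
    (by omega)
  · intro h0
    rw [Function.update_self] at h0
    rw [if_pos h0, h0, ← hcb, Function.update_eq_self]
    exact (hq m r (b + 1) x u w c ρ M hIb (by omega) hx hρ).mono (by omega)
  · intro h0
    rw [Function.update_self] at h0
    rw [if_neg h0]
    have h2 := run_clear x [] u w (Function.update c b (g.val x ρ)) (show b ≤ m by omega)
    rw [Function.update_idem, ← hcb, Function.update_eq_self, Function.update_self] at h2
    exact (h2.seq (hp m r (b + 1) x u w c ρ M hIb (by omega) hx hρ)).mono (by omega)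

theorem pspec_rep {v : ℕ} {e : Ex} {p : Pr A} {P Q V : Polynomial ℕ}
    (he : ExSpec A e P) (hp : PrSpec p Q)
    (hV : ∀ (x : List Bool) (ρ : ℕ → ℕ) (M : ℕ),
      x.length ≤ M → (∀ v, ρ v ≤ M) → e.val x ρ ≤ V.eval M) :
    PrSpec (.rep v e p) (P + (V * (Q.comp (X + V) + 3) + 1 + (2 * V + 1))) := by
  intro m r b x u w c ρ M hI hm hx hρ
  simp only [Pr.need] at hm
  simp only [compPr, Pr.out, eval_add, eval_mul, eval_ofNat, eval_one, eval_comp, eval_X]
  have hIb : Inv r ρ (b + 2) c :=
    ⟨fun v => (hI.lt v).trans (by omega), hI.val, fun i hi => hI.zero i (by omega)⟩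
  have hcb : c b = 0 := hI.zero b le_rfl
  have hcb1 : c (b + 1) = 0 := hI.zero (b + 1) (by omega)
  have h1 := he m r (b + 2) (b + 1) x u w c ρ M hIb (by omega)
    (fun v => by have := hI.lt v; omega) (by omega) hx hρ
  rw [hcb1, Nat.zero_add] at h1
  have hgV := hV x ρ M hx hρ
  set n := e.val x ρ with hn
  have h2 := run_for (A := A) (m := m) (b := b) (n := n) (by omega)
    (body := compPr m p (Function.update r v b) (b + 2)) (x := x) (w := w)
    (fun i => ((List.range i).flatMap fun j => p.out x (Function.update ρ v j)).reverse ++ u)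
    (fun _ => c)
    (B := Q.eval (M + V.eval M)) (by
      intro i hi
      have h3 := hp m (Function.update r v b) (b + 2) x
        (((List.range i).flatMap fun j => p.out x (Function.update ρ v j)).reverse ++ u) w
        (Function.update (Function.update c (b + 1) (n - (i + 1))) b i)
        (Function.update ρ v i) (M + V.eval M)
        ⟨by
          intro v'
          rw [Function.update_apply]
          split_ifs
          · omega
          · have := hI.lt v'; omega,
        by
          intro v'
          by_cases hv : v' = v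
          · subst hv; simp
          · have h4 := hI.lt v'
            rw [Function.update_of_ne hv, Function.update_of_ne hv,
              Function.update_of_ne (by omega), Function.update_of_ne (by omega)]
            exact hI.val v',
        by
          intro i' hi'
          rw [Function.update_of_ne (by omega), Function.update_of_ne (by omega)]
          exact hI.zero i' (by omega)⟩
        (by omega) (by omega)
        (by
          intro v'
          rw [Function.update_apply]
          split_ifs
          · omega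
          · have := hρ v'; omega)
      refine h3.of_eq ?_
      congr 1
      rw [List.range_succ, List.flatMap_append]
      simp)
  have e0 : Function.update c (b + 1) n = Function.update (Function.update c (b + 1) n) b 0 := by
    funext k
    simp only [Function.update_apply]
    split_ifs <;> simp_all
  have e1 : Function.update (Function.update c (b + 1) 0) b 0 = c := by
    funext k
    simp only [Function.update_apply]
    split_ifs <;> simp_all
  rw [e1, ← e0] at h2
  simp only [List.range_zero, List.flatMap_nil, List.reverse_nil, List.nil_append] at h2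
  refine (h1.seq h2).mono ?_
  have : n * (Q.eval (M + V.eval M) + 3) ≤ V.eval M * (Q.eval (M + V.eval M) + 3) :=
    Nat.mul_le_mul_right _ hgV
  omega

theorem compPr_spec (p : Pr A) : ∃ C : Polynomial ℕ, PrSpec p C := by
  induction p with
  | nil =>
    refine ⟨1, fun m r b x u w c ρ M _ _ _ _ => ?_⟩
    simpa [compPr, Pr.out] using RunLe.skip _
  | emit a =>
    refine ⟨1, fun m r b x u w c ρ M _ _ _ _ => ?_⟩
    have h := Run.push (.rev : Rg m) a (st x [] u w c : RStk A m)
    rw [update_st_rev] at h
    simp only [compPr, Pr.out, eval_one]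
    exact ⟨1, le_refl _, h⟩
  | seq p q ihp ihq =>
    obtain ⟨P, hP⟩ := ihp
    obtain ⟨Q, hQ⟩ := ihq
    refine ⟨P + Q, fun m r b x u w c ρ M hI hm hx hρ => ?_⟩
    simp only [Pr.need] at hm
    simp only [compPr, Pr.out, eval_add]
    have h1 := hP m r b x u w c ρ M hI (by omega) hx hρ
    have h2 := hQ m r b x ((p.out x ρ).reverse ++ u) w c ρ M hI (by omega) hx hρ
    refine (h1.seq h2).of_eq ?_
    congr 1
    simp
  | ite c p q ihp ihq =>
    obtain ⟨P, hP⟩ := ihp
    obtain ⟨Q, hQ⟩ := ihq
    obtain ⟨G, hG⟩ := compEx_spec A c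
    obtain ⟨V, hV⟩ := c.exists_valBound
    exact ⟨_, pspec_ite hG hP hQ hV⟩
  | rep v e p ihp =>
    obtain ⟨P, hP⟩ := ihp
    obtain ⟨G, hG⟩ := compEx_spec A e
    obtain ⟨V, hV⟩ := e.exists_valBound
    exact ⟨_, pspec_rep hG hP hV⟩

theorem Pr.exists_lenBound (p : Pr A) : ∃ P : Polynomial ℕ,
    ∀ (x : List Bool) (ρ : ℕ → ℕ) (M : ℕ),
    x.length ≤ M → (∀ v, ρ v ≤ M) → (p.out x ρ).length ≤ P.eval M := by
  induction p with
  | nil => exact ⟨0, fun x ρ M _ _ => by simp [Pr.out]⟩
  | emit a => exact ⟨1, fun x ρ M _ _ => by simp [Pr.out]⟩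
  | seq p q ihp ihq =>
    obtain ⟨P, hP⟩ := ihp
    obtain ⟨Q, hQ⟩ := ihq
    refine ⟨P + Q, fun x ρ M h1 h2 => ?_⟩
    simp only [Pr.out, List.length_append, eval_add]
    exact Nat.add_le_add (hP x ρ M h1 h2) (hQ x ρ M h1 h2)
  | ite c p q ihp ihq =>
    obtain ⟨P, hP⟩ := ihp
    obtain ⟨Q, hQ⟩ := ihq
    refine ⟨P + Q, fun x ρ M h1 h2 => ?_⟩
    have h3 := hP x ρ M h1 h2
    have h4 := hQ x ρ M h1 h2
    simp only [Pr.out, eval_add]
    split_ifs <;> omega
  | rep v e p ihp =>
    obtain ⟨Q, hQ⟩ := ihp
    obtain ⟨P, hP⟩ := e.exists_valBound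
    refine ⟨P * Q.comp (X + P), fun x ρ M h1 h2 => ?_⟩
    have h3 := hP x ρ M h1 h2
    simp only [Pr.out, eval_mul, eval_comp, eval_add, eval_X, List.length_flatMap]
    have key : ∀ j ∈ List.range (e.val x ρ), (p.out x (Function.update ρ v j)).length ≤
        Q.eval (M + P.eval M) := by
      intro j hj
      rw [List.mem_range] at hj
      refine hQ x _ _ (by omega) fun v' => ?_
      rw [Function.update_apply]
      split_ifs
      · omega
      · have := h2 v'; omega
    calc (List.map (fun a => (p.out x (Function.update ρ v a)).length)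
          (List.range (e.val x ρ))).sum
        ≤ (List.map (fun _ => Q.eval (M + P.eval M)) (List.range (e.val x ρ))).sum :=
          List.sum_le_sum key
      _ = e.val x ρ * Q.eval (M + P.eval M) := by simp
      _ ≤ _ := Nat.mul_le_mul_right _ h3

/-- Body of the output loop. -/
def outBody (A : Type) (m : ℕ) : Option A → RCmd A m
  | none => .skip
  | some a => .seq (.pop .rev) (.push .out a)

/-- The complete program: compute the reversed output, reverse it, erase the input. -/
def mainCmd (m : ℕ) (p : Pr A) : RCmd A m :=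
  .seq (compPr m p (fun _ => 0) 1) (.seq (.loop .rev (.cas .rev (outBody A m)))
    (.loop .inp (.pop .inp)))

theorem run_out (x : List Bool) (c : ℕ → ℕ) : ∀ (u w : List A),
    RunLe (.loop .rev (.cas .rev (outBody A m)) : RCmd A m) (st x [] u w c)
      (st x [] [] (u.reverse ++ w) c) (4 * u.length + 1) := by
  intro u
  induction u with
  | nil => intro w; exact ⟨1, by simp, .loop_nil rfl⟩
  | cons a u ih =>
    intro w
    have h1 : RunLe (.pop .rev : RCmd A m) (st x [] (a :: u) w c) (st x [] u w c) 1 := by
      refine ⟨1, le_refl _, ?_⟩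
      have h := Run.pop (.rev : Rg m) (st x [] (a :: u) w c : RStk A m)
      rw [update_st_rev] at h
      exact h
    have h2 : RunLe (.push .out a : RCmd A m) (st x [] u w c) (st x [] u (a :: w) c) 1 := by
      refine ⟨1, le_refl _, ?_⟩
      have h := Run.push (.out : Rg m) a (st x [] u w c : RStk A m)
      rw [update_st_out] at h
      exact h
    have h3 : RunLe (.cas .rev (outBody A m) : RCmd A m) (st x [] (a :: u) w c)
        (st x [] u (a :: w) c) 3 := by
      refine RunLe.cas (some a) rfl (B := 2) ?_
      exact h1.seq h2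
    obtain ⟨n₁, hn₁, h3⟩ := h3
    obtain ⟨n₂, hn₂, h4⟩ := ih (a :: w)
    refine ⟨n₂ + n₁ + 1, by simp only [List.length_cons]; omega, ?_⟩
    have h5 := Run.loop_cons (k := (.rev : Rg m)) (S := st x [] (a :: u) w c)
      (by simp [st]) h3 h4
    have e : (a :: u).reverse ++ w = u.reverse ++ a :: w := by simp
    rw [e]
    exact h5

theorem run_erase (c : ℕ → ℕ) (u w : List A) : ∀ (x : List Bool),
    RunLe (.loop .inp (.pop .inp) : RCmd A m) (st x [] u w c)
      (st [] [] u w c) (2 * x.length + 1) := by
  intro x
  induction x with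
  | nil => exact ⟨1, by simp, .loop_nil rfl⟩
  | cons a x ih =>
    obtain ⟨n₂, hn₂, h4⟩ := ih
    have h := Run.pop (.inp : Rg m) (st (a :: x) [] u w c : RStk A m)
    rw [update_st_inp] at h
    refine ⟨n₂ + 1 + 1, by simp only [List.length_cons]; omega, ?_⟩
    exact Run.loop_cons (k := (.inp : Rg m)) (S := st (a :: x) [] u w c)
      (by simp [st]) h h4

theorem run_main (p : Pr A) : ∃ C : Polynomial ℕ, ∀ (x : List Bool),
    RunLe (mainCmd p.need p) (Function.update (fun _ => []) .inp x)
      (Function.update (fun _ => []) .out (p.out x fun _ => 0)) (C.eval x.length) := by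
  obtain ⟨P, hP⟩ := compPr_spec p
  obtain ⟨Q, hQ⟩ := p.exists_lenBound
  refine ⟨P + (4 * Q + 1 + (2 * X + 1)), fun x => ?_⟩
  have h1 := hP p.need (fun _ => 0) 1 x [] [] (fun _ => 0) (fun _ => 0) x.length
    ⟨fun _ => by omega, fun _ => rfl, fun _ _ => rfl⟩ (by omega) le_rfl (fun _ => Nat.zero_le _)
  have hlen := hQ x (fun _ => 0) x.length le_rfl (fun _ => Nat.zero_le _)
  rw [List.append_nil] at h1
  have h2 := run_out (m := p.need) x (fun _ => 0) ((p.out x fun _ => 0).reverse) []
  rw [List.reverse_reverse, List.append_nil, List.length_reverse] at h2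
  have h3 := run_erase (m := p.need) (fun _ => 0) [] (p.out x fun _ => 0) x
  have e0 : (Function.update (fun _ => []) .inp x : RStk A p.need) =
      st x [] [] [] (fun _ => 0) := by
    funext k
    cases k <;> simp [st]
  have e1 : (Function.update (fun _ => []) .out (p.out x fun _ => 0) : RStk A p.need) =
      st [] [] [] (p.out x fun _ => 0) (fun _ => 0) := by
    funext k
    cases k <;> simp [st]
  rw [e0, e1]
  refine (h1.seq (h2.seq h3)).mono ?_
  simp only [eval_add, eval_mul, eval_X, eval_ofNat, eval_one]
  omega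

/-- The machine of a loop program. -/
noncomputable def prTM [Fintype A] (p : Pr A) : FinTM2 :=
  cmdTM (K := Rg p.need) (Γ := RgA A p.need) .inp .out (mainCmd p.need p)

/-- Loop programs are computed in polynomial time by a bundled machine of Mathlib. -/
theorem Pr.polyTime [Fintype A] (p : Pr A) {α : Type} (enc : α → List A) (f : List Bool → α)
    (hf : ∀ x, enc (f x) = p.out x fun _ => 0) :
    Nonempty (TM2ComputableInPolyTime (fun x : List Bool => x) enc f) := by
  obtain ⟨C, hC⟩ := run_main p
  choose n hn hrun using hC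
  have e0 : (prTM p).Γ (prTM p).k₀ = Bool := rfl
  have e1 : (prTM p).Γ (prTM p).k₁ = A := rfl
  exact ⟨{
    tm := prTM p
    inputAlphabet := (Equiv.refl Bool : (prTM p).Γ (prTM p).k₀ ≃ Bool)
    outputAlphabet := (Equiv.refl A : (prTM p).Γ (prTM p).k₁ ≃ A)
    time := C + 1
    outputsFun := fun x => by
      have h1 : TM2OutputsInTime (prTM p) x (some (p.out x fun _ => 0)) (C.eval x.length + 1) :=
        cmdTM_outputs (t := C.eval x.length + 1) (by have := hn x; omega) (hrun x)
      have e1 : List.map (Equiv.refl Bool).invFun x = x := List.map_id x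
      have e2 : List.map (Equiv.refl A).invFun (enc (f x)) = p.out x fun _ => 0 := by
        rw [hf]; exact List.map_id _
      have e3 : (C + 1).eval x.length = C.eval x.length + 1 := by simp
      rw [e3]
      exact e1.symm ▸ e2.symm ▸ h1 }⟩

end Pool.Agent.H75
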