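import Mathlib
import Pool.Agent.H75.LoopTM

/-!
# Closure properties of functions given by expressions of the loop language

`IsEx F` says that `F x ρ` is the value of an expression, `IsB P` that the proposition `P x ρ` is
tested by an expression, `IsPr O` that `O x ρ` is the output of a program.
-/

set_option autoImplicit false

namespace Pool.Agent.H75

/-- Number-valued functions of the input and the variables given by expressions. -/
def IsEx (F : List Bool → (ℕ → ℕ) → ℕ) : Prop := ∃ e : Ex, ∀ x ρ, e.val x ρ = F x ρ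

/-- Propositions on the input and the variables tested by expressions. -/
def IsB (P : List Bool → (ℕ → ℕ) → Prop) : Prop := ∃ e : Ex, ∀ x ρ, e.val x ρ ≠ 0 ↔ P x ρ

/-- Word-valued functions of the input and the variables given by programs. -/
def IsPr {A : Type} (O : List Bool → (ℕ → ℕ) → List A) : Prop :=
  ∃ p : Pr A, ∀ x ρ, p.out x ρ = O x ρ

/-- The variables of an expression are below `Ex.mv`. -/
def Ex.mv : Ex → ℕ
  | .const _ => 0
  | .var v => v + 1
  | .len => 0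
  | .add a b => max a.mv b.mv
  | .sum v a b => max (v + 1) (max a.mv b.mv)
  | .ite c a b => max c.mv (max a.mv b.mv)
  | .lt a b => max a.mv b.mv
  | .bit a => a.mv

theorem Ex.val_congr (x : List Bool) (e : Ex) : ∀ (ρ ρ' : ℕ → ℕ), (∀ v, v < e.mv → ρ v = ρ' v) →
    e.val x ρ = e.val x ρ' := by
  induction e with
  | const c => intro ρ ρ' _; rfl
  | var v => intro ρ ρ' h; exact h v (by simp [Ex.mv])
  | len => intro ρ ρ' _; rfl
  | add a b iha ihb =>
    intro ρ ρ' h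
    simp only [Ex.mv] at h
    simp only [Ex.val]
    rw [iha ρ ρ' fun v hv => h v (by omega), ihb ρ ρ' fun v hv => h v (by omega)]
  | sum v a b iha ihb =>
    intro ρ ρ' h
    simp only [Ex.mv] at h
    simp only [Ex.val]
    rw [iha ρ ρ' fun v hv => h v (by omega)]
    refine Finset.sum_congr rfl fun j _ => ihb _ _ fun v' hv' => ?_
    rw [Function.update_apply, Function.update_apply]
    split_ifs
    · rfl
    · exact h v' (by omega)
  | ite c a b ihc iha ihb =>
    intro ρ ρ' h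
    simp only [Ex.mv] at h
    simp only [Ex.val]
    rw [ihc ρ ρ' fun v hv => h v (by omega), iha ρ ρ' fun v hv => h v (by omega),
      ihb ρ ρ' fun v hv => h v (by omega)]
  | lt a b iha ihb =>
    intro ρ ρ' h
    simp only [Ex.mv] at h
    simp only [Ex.val]
    rw [iha ρ ρ' fun v hv => h v (by omega), ihb ρ ρ' fun v hv => h v (by omega)]
  | bit a iha =>
    intro ρ ρ' h
    simp only [Ex.mv] at h
    simp only [Ex.val]
    rw [iha ρ ρ' fun v hv => h v (by omega)]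

theorem Ex.val_update (x : List Bool) (e : Ex) (ρ : ℕ → ℕ) {v : ℕ} (hv : e.mv ≤ v) (j : ℕ) :
    e.val x (Function.update ρ v j) = e.val x ρ := by
  refine e.val_congr x _ _ fun v' hv' => ?_
  rw [Function.update_of_ne (by omega)]

variable {F G F' G' : List Bool → (ℕ → ℕ) → ℕ} {P R : List Bool → (ℕ → ℕ) → Prop}

theorem IsEx.congr (h : IsEx F) (e : ∀ x ρ, F x ρ = G x ρ) : IsEx G := by
  obtain ⟨a, ha⟩ := h
  exact ⟨a, fun x ρ => (ha x ρ).trans (e x ρ)⟩

theorem IsB.congr (h : IsB P) (e : ∀ x ρ, P x ρ ↔ R x ρ) : IsB R := by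
  obtain ⟨a, ha⟩ := h
  exact ⟨a, fun x ρ => (ha x ρ).trans (e x ρ)⟩

theorem isEx_const (c : ℕ) : IsEx fun _ _ => c := ⟨.const c, fun _ _ => rfl⟩
theorem isEx_var (v : ℕ) : IsEx fun _ ρ => ρ v := ⟨.var v, fun _ _ => rfl⟩
theorem isEx_len : IsEx fun x _ => x.length := ⟨.len, fun _ _ => rfl⟩

theorem IsEx.add (hF : IsEx F) (hG : IsEx G) : IsEx fun x ρ => F x ρ + G x ρ := by
  obtain ⟨a, ha⟩ := hF
  obtain ⟨b, hb⟩ := hG
  exact ⟨.add a b, fun x ρ => by simp only [Ex.val, ha, hb]⟩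

theorem IsEx.sum (v : ℕ) (hF : IsEx F) (hG : IsEx G) :
    IsEx fun x ρ => ∑ j ∈ Finset.range (F x ρ), G x (Function.update ρ v j) := by
  obtain ⟨a, ha⟩ := hF
  obtain ⟨b, hb⟩ := hG
  exact ⟨.sum v a b, fun x ρ => by simp only [Ex.val, ha, hb]⟩

theorem IsEx.mul (hF : IsEx F) (hG : IsEx G) : IsEx fun x ρ => F x ρ * G x ρ := by
  obtain ⟨a, ha⟩ := hF
  obtain ⟨b, hb⟩ := hG
  refine ⟨.sum b.mv a b, fun x ρ => ?_⟩
  simp only [Ex.val, Ex.val_update x b ρ le_rfl, ha, hb]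
  simp

theorem IsEx.pow (hF : IsEx F) (n : ℕ) : IsEx fun x ρ => F x ρ ^ n := by
  induction n with
  | zero => exact (isEx_const 1).congr fun x ρ => by simp
  | succ n ih => exact (ih.mul hF).congr fun x ρ => by rw [pow_succ]

theorem IsB.not (hP : IsB P) : IsB fun x ρ => ¬ P x ρ := by
  obtain ⟨a, ha⟩ := hP
  refine ⟨.ite a (.const 0) (.const 1), fun x ρ => ?_⟩
  change _ ↔ ¬ P x ρ
  rw [← ha]
  simp only [Ex.val]
  split_ifs <;> simp_all

theorem IsB.and (hP : IsB P) (hR : IsB R) : IsB fun x ρ => P x ρ ∧ R x ρ := by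
  obtain ⟨a, ha⟩ := hP
  obtain ⟨b, hb⟩ := hR
  refine ⟨.ite a b (.const 0), fun x ρ => ?_⟩
  change _ ↔ P x ρ ∧ R x ρ
  rw [← ha, ← hb]
  simp only [Ex.val]
  split_ifs <;> simp_all

theorem IsB.or (hP : IsB P) (hR : IsB R) : IsB fun x ρ => P x ρ ∨ R x ρ := by
  obtain ⟨a, ha⟩ := hP
  obtain ⟨b, hb⟩ := hR
  refine ⟨.ite a (.const 1) b, fun x ρ => ?_⟩
  change _ ↔ P x ρ ∨ R x ρ
  rw [← ha, ← hb]
  simp only [Ex.val]
  split_ifs <;> simp_all

theorem IsB.imp (hP : IsB P) (hR : IsB R) : IsB fun x ρ => P x ρ → R x ρ :=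
  (hP.not.or hR).congr fun x ρ => by tauto

theorem isB_const (c : Prop) : IsB fun _ _ => c := by
  by_cases hc : c
  · exact ⟨.const 1, fun _ _ => by simp [Ex.val, hc]⟩
  · exact ⟨.const 0, fun _ _ => by simp [Ex.val, hc]⟩

theorem IsEx.lt (hF : IsEx F) (hG : IsEx G) : IsB fun x ρ => F x ρ < G x ρ := by
  obtain ⟨a, ha⟩ := hF
  obtain ⟨b, hb⟩ := hG
  refine ⟨.lt a b, fun x ρ => ?_⟩
  simp only [Ex.val, ha, hb]
  split_ifs <;> simp_all

theorem IsEx.le (hF : IsEx F) (hG : IsEx G) : IsB fun x ρ => F x ρ ≤ G x ρ :=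
  (hG.lt hF).not.congr fun x ρ => by omega

theorem IsEx.eq (hF : IsEx F) (hG : IsEx G) : IsB fun x ρ => F x ρ = G x ρ :=
  ((hF.le hG).and (hG.le hF)).congr fun x ρ => by omega

theorem IsEx.bit (hF : IsEx F) : IsB fun x ρ => x[F x ρ]? = some true := by
  obtain ⟨a, ha⟩ := hF
  refine ⟨.bit a, fun x ρ => ?_⟩
  simp only [Ex.val, ha]
  split_ifs <;> simp_all

/-- Bounded existential quantifier over the variable `v`. -/
theorem IsB.exists_lt (v : ℕ) (hF : IsEx F) (hP : IsB P) :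
    IsB fun x ρ => ∃ j, j < F x ρ ∧ P x (Function.update ρ v j) := by
  obtain ⟨a, ha⟩ := hF
  obtain ⟨b, hb⟩ := hP
  refine ⟨.sum v a b, fun x ρ => ?_⟩
  simp only [Ex.val, ha, ne_eq, Finset.sum_eq_zero_iff, Finset.mem_range, not_forall]
  constructor
  · rintro ⟨j, hj, hj2⟩
    exact ⟨j, hj, (hb x _).1 hj2⟩
  · rintro ⟨j, hj, hj2⟩
    exact ⟨j, hj, (hb x _).2 hj2⟩

open Classical in
theorem IsEx.ite (hP : IsB P) (hF : IsEx F) (hG : IsEx G) :
    IsEx fun x ρ => if P x ρ then F x ρ else G x ρ := by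
  obtain ⟨c, hc⟩ := hP
  obtain ⟨a, ha⟩ := hF
  obtain ⟨b, hb⟩ := hG
  refine ⟨.ite c a b, fun x ρ => ?_⟩
  simp only [Ex.val, ha, hb]
  by_cases h : P x ρ
  · rw [if_pos h, if_neg ((hc x ρ).2 h)]
  · rw [if_neg h, if_pos]
    by_contra h2
    exact h ((hc x ρ).1 h2)

/-- Truncated subtraction. -/
theorem IsEx.sub (hF : IsEx F) (hG : IsEx G) : IsEx fun x ρ => F x ρ - G x ρ := by
  obtain ⟨a, ha⟩ := hF
  obtain ⟨b, hb⟩ := hG
  refine ⟨.sum b.mv a (.ite (.lt (.var b.mv) b) (.const 0) (.const 1)), fun x ρ => ?_⟩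
  simp only [Ex.val, Ex.val_update x b ρ le_rfl, ha, hb, Function.update_self]
  have key : ∀ n m : ℕ, (∑ j ∈ Finset.range n, if (if j < m then 1 else 0) = 0 then 1 else 0) =
      n - m := by
    intro n m
    induction n with
    | zero => simp
    | succ n ih =>
      rw [Finset.sum_range_succ, ih]
      by_cases h : n < m
      · simp only [h, if_true]
        rw [if_neg (by omega)]
        omega
      · simp only [h, if_false, if_true]
        omega
  exact key _ _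

/-- Finite disjunctions over constants. -/
theorem IsB.finEx (B : ℕ) {Q : ℕ → List Bool → (ℕ → ℕ) → Prop} (h : ∀ b, b < B → IsB (Q b)) :
    IsB fun x ρ => ∃ b, b < B ∧ Q b x ρ := by
  induction B with
  | zero => exact (isB_const False).congr fun x ρ => by simp
  | succ B ih =>
    refine ((ih fun b hb => h b (by omega)).or (h B (by omega))).congr fun x ρ => ?_
    constructor
    · rintro (⟨b, hb, hb2⟩ | hB)
      · exact ⟨b, by omega, hb2⟩
      · exact ⟨B, by omega, hB⟩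
    · rintro ⟨b, hb, hb2⟩
      by_cases hbB : b = B
      · subst hbB; exact Or.inr hb2
      · exact Or.inl ⟨b, by omega, hb2⟩

/-- Table of a unary relation. -/
theorem IsEx.tab1 (hF : IsEx F) (B : ℕ) (S : ℕ → Prop) :
    IsB fun x ρ => F x ρ < B ∧ S (F x ρ) := by
  refine (IsB.finEx B (Q := fun b x ρ => F x ρ = b ∧ S b) fun b _ =>
    (hF.eq (isEx_const b)).and (isB_const _)).congr fun x ρ => ?_
  constructor
  · rintro ⟨b, hb, rfl, h⟩; exact ⟨hb, h⟩
  · rintro ⟨h1, h2⟩; exact ⟨_, h1, rfl, h2⟩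

/-- Table of a binary relation. -/
theorem IsEx.tab2 (hF : IsEx F) (hG : IsEx G) (B C : ℕ) (S : ℕ → ℕ → Prop) :
    IsB fun x ρ => F x ρ < B ∧ G x ρ < C ∧ S (F x ρ) (G x ρ) := by
  refine (IsB.finEx B (Q := fun b x ρ => F x ρ = b ∧ (G x ρ < C ∧ S b (G x ρ))) fun b _ =>
    (hF.eq (isEx_const b)).and (hG.tab1 C (S b))).congr fun x ρ => ?_
  constructor
  · rintro ⟨b, hb, rfl, h⟩; exact ⟨hb, h⟩
  · rintro ⟨h1, h2⟩; exact ⟨_, h1, rfl, h2⟩

/-- Table of a relation with four arguments. -/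
theorem IsEx.tab4 (hF : IsEx F) (hG : IsEx G) (hF' : IsEx F') (hG' : IsEx G') (B C D E : ℕ)
    (S : ℕ → ℕ → ℕ → ℕ → Prop) :
    IsB fun x ρ => F x ρ < B ∧ G x ρ < C ∧ F' x ρ < D ∧ G' x ρ < E ∧
      S (F x ρ) (G x ρ) (F' x ρ) (G' x ρ) := by
  refine (IsB.finEx B (Q := fun b x ρ => F x ρ = b ∧ ∃ c, c < C ∧ (G x ρ = c ∧
      (F' x ρ < D ∧ G' x ρ < E ∧ S b c (F' x ρ) (G' x ρ)))) fun b _ =>
    (hF.eq (isEx_const b)).and (IsB.finEx C fun c _ =>
      (hG.eq (isEx_const c)).and (hF'.tab2 hG' D E (S b c)))).congr fun x ρ => ?_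
  constructor
  · rintro ⟨b, hb, rfl, c, hc, rfl, h⟩; exact ⟨hb, hc, h⟩
  · rintro ⟨h1, h2, h3⟩; exact ⟨_, h1, rfl, _, h2, rfl, h3⟩

/-- Polynomials. -/
theorem isEx_poly (T : Polynomial ℕ) (hF : IsEx F) : IsEx fun x ρ => T.eval (F x ρ) := by
  have key : ∀ n : ℕ, IsEx fun x ρ => ∑ i ∈ Finset.range n, T.coeff i * F x ρ ^ i := by
    intro n
    induction n with
    | zero => exact (isEx_const 0).congr fun x ρ => by simp
    | succ n ih =>
      exact (ih.add ((isEx_const (T.coeff n)).mul (hF.pow n))).congr fun x ρ => by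
        rw [Finset.sum_range_succ]
  exact (key (T.natDegree + 1)).congr fun x ρ => by rw [Polynomial.eval_eq_sum_range]

/-- `w` is a power of two. -/
def Pow2 (w : ℕ) : Prop := ∃ i, w = 2 ^ i

theorem pow2_iff (w : ℕ) : Pow2 w ↔ w ≠ 0 ∧ ¬ ∃ c, c < w ∧ ∃ e, e < w + 1 ∧ (2 * c + 3) * e = w := by
  constructor
  · rintro ⟨i, rfl⟩
    refine ⟨by positivity, ?_⟩
    rintro ⟨c, -, e, -, h⟩
    have hdvd : (2 * c + 3) ∣ 2 ^ i := Dvd.intro _ h
    obtain ⟨k, -, hk⟩ := (Nat.dvd_prime_pow Nat.prime_two).1 hdvd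
    rcases Nat.eq_zero_or_pos k with rfl | hk0
    · simp at hk
    · have : 2 ∣ 2 * c + 3 := by rw [hk]; exact dvd_pow_self 2 (by omega)
      omega
  · rintro ⟨h0, h⟩
    obtain ⟨k, m, hm, hkm⟩ := Nat.exists_eq_two_pow_mul_odd h0
    obtain ⟨r, hr⟩ := hm
    rcases Nat.eq_zero_or_pos r with rfl | hr0
    · exact ⟨k, by rw [hkm, hr]; simp⟩
    · exfalso
      apply h
      have h2 : 1 ≤ 2 ^ k := Nat.one_le_two_pow
      refine ⟨r - 1, ?_, 2 ^ k, ?_, ?_⟩
      · calc r - 1 < m := by omega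
          _ = 1 * m := by ring
          _ ≤ 2 ^ k * m := Nat.mul_le_mul_right _ h2
          _ = w := hkm.symm
      · have : 2 ^ k * 1 ≤ 2 ^ k * m := Nat.mul_le_mul_left _ (by omega)
        omega
      · rw [hkm, hr, show 2 * (r - 1) + 3 = 2 * r + 1 by omega]
        ring

/-- Variables used as dummies below: `100`, `101`. -/
theorem isB_pow2_var (v : ℕ) (hv : v < 100) : IsB fun _ ρ => Pow2 (ρ v) := by
  have h1 : IsB fun x ρ => ∃ c, c < ρ v ∧
      ∃ e, e < (Function.update ρ 100 c) v + 1 ∧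
        (2 * (Function.update (Function.update ρ 100 c) 101 e) 100 + 3) *
          (Function.update (Function.update ρ 100 c) 101 e) 101 =
          (Function.update (Function.update ρ 100 c) 101 e) v :=
    IsB.exists_lt 100 (isEx_var v)
      (P := fun x ρ => ∃ e, e < ρ v + 1 ∧ (2 * (Function.update ρ 101 e) 100 + 3) *
          (Function.update ρ 101 e) 101 = (Function.update ρ 101 e) v)
      (IsB.exists_lt 101 ((isEx_var v).add (isEx_const 1))
        (P := fun x ρ => (2 * ρ 100 + 3) * ρ 101 = ρ v)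
        (((((isEx_const 2).mul (isEx_var 100)).add (isEx_const 3)).mul (isEx_var 101)).eq
          (isEx_var v)))
  refine (((isEx_var v).eq (isEx_const 0)).not.and h1.not).congr fun x ρ => ?_
  rw [pow2_iff]
  have e1 : v ≠ 100 := by omega
  have e2 : v ≠ 101 := by omega
  simp [e1, e2]

end Pool.Agent.H75
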