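import Mathlib
import Pool.Agent.H75.ExLib

/-!
# More closure properties: division, programs, powers of two, binary printing
-/

set_option autoImplicit false

namespace Pool.Agent.H75

variable {F G : List Bool → (ℕ → ℕ) → ℕ} {P R : List Bool → (ℕ → ℕ) → Prop}

theorem sum_div_eq (c : ℕ) (hc : 0 < c) (n m : ℕ) :
    (∑ j ∈ Finset.range n, if c * (j + 1) ≤ m then 1 else 0) = min n (m / c) := by
  induction n with
  | zero => simp
  | succ n ih =>
    rw [Finset.sum_range_succ, ih]
    have h : c * (n + 1) ≤ m ↔ n + 1 ≤ m / c := by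
      rw [Nat.le_div_iff_mul_le hc, Nat.mul_comm]
    by_cases h1 : c * (n + 1) ≤ m
    · rw [if_pos h1]
      have := h.1 h1
      omega
    · rw [if_neg h1]
      have : ¬ n + 1 ≤ m / c := fun hh => h1 (h.2 hh)
      omega

/-- Division by a constant. -/
theorem IsEx.div (hF : IsEx F) (c : ℕ) : IsEx fun x ρ => F x ρ / c := by
  classical
  rcases Nat.eq_zero_or_pos c with rfl | hc
  · exact (isEx_const 0).congr fun x ρ => by simp
  obtain ⟨a, ha⟩ := hF
  -- a loop over a fresh variable
  have h0 : IsEx fun x ρ => a.val x ρ := ⟨a, fun _ _ => rfl⟩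
  have h1 := IsEx.sum a.mv h0
      (IsEx.ite (((isEx_const c).mul ((isEx_var a.mv).add (isEx_const 1))).le h0)
        (isEx_const 1) (isEx_const 0))
  refine h1.congr fun x ρ => ?_
  simp only [Function.update_self, Ex.val_update x a ρ le_rfl]
  rw [sum_div_eq c hc, ha, min_eq_right (Nat.div_le_self _ _)]

/-- Remainder modulo a constant. -/
theorem IsEx.mod (hF : IsEx F) (c : ℕ) : IsEx fun x ρ => F x ρ % c :=
  (hF.sub ((isEx_const c).mul (hF.div c))).congr fun x ρ => by
    have := Nat.div_add_mod (F x ρ) c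
    omega

/-- Invariance of an expression under change of a fresh variable. -/
theorem IsB.forall_lt (v : ℕ) (hF : IsEx F) (hP : IsB P) :
    IsB fun x ρ => ∀ j, j < F x ρ → P x (Function.update ρ v j) :=
  (IsB.exists_lt v hF hP.not).not.congr fun x ρ => by
    push Not
    rfl

theorem IsB.iff (hP : IsB P) (hR : IsB R) : IsB fun x ρ => (P x ρ ↔ R x ρ) :=
  ((hP.imp hR).and (hR.imp hP)).congr fun x ρ => by tauto

section programs

variable {A : Type} {O U : List Bool → (ℕ → ℕ) → List A}

theorem IsPr.congr (h : IsPr O) (e : ∀ x ρ, O x ρ = U x ρ) : IsPr U := by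
  obtain ⟨a, ha⟩ := h
  exact ⟨a, fun x ρ => (ha x ρ).trans (e x ρ)⟩

theorem isPr_nil : IsPr fun _ _ => ([] : List A) := ⟨.nil, fun _ _ => rfl⟩

theorem isPr_emit (a : A) : IsPr fun _ _ => [a] := ⟨.emit a, fun _ _ => rfl⟩

theorem IsPr.append (hO : IsPr O) (hU : IsPr U) : IsPr fun x ρ => O x ρ ++ U x ρ := by
  obtain ⟨a, ha⟩ := hO
  obtain ⟨b, hb⟩ := hU
  exact ⟨.seq a b, fun x ρ => by simp only [Pr.out, ha, hb]⟩

open Classical in
theorem IsPr.ite (hP : IsB P) (hO : IsPr O) (hU : IsPr U) :
    IsPr fun x ρ => if P x ρ then O x ρ else U x ρ := by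
  obtain ⟨c, hc⟩ := hP
  obtain ⟨a, ha⟩ := hO
  obtain ⟨b, hb⟩ := hU
  refine ⟨.ite c a b, fun x ρ => ?_⟩
  simp only [Pr.out, ha, hb]
  by_cases h : P x ρ
  · rw [if_pos h, if_neg ((hc x ρ).2 h)]
  · rw [if_neg h, if_pos]
    by_contra h2
    exact h ((hc x ρ).1 h2)

theorem IsPr.flatMap (v : ℕ) (hF : IsEx F) (hO : IsPr O) :
    IsPr fun x ρ => (List.range (F x ρ)).flatMap fun j => O x (Function.update ρ v j) := by
  obtain ⟨a, ha⟩ := hF
  obtain ⟨b, hb⟩ := hO
  exact ⟨.rep v a b, fun x ρ => by simp only [Pr.out, ha, hb]⟩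

theorem flatMap_const_replicate {A : Type} (a : A) (n : ℕ) :
    ((List.range n).flatMap fun _ => [a]) = List.replicate n a := by
  induction n with
  | zero => simp
  | succ n ih => rw [List.range_succ, List.flatMap_append, ih, List.replicate_succ']; simp

theorem IsPr.replicate (hF : IsEx F) (a : A) : IsPr fun x ρ => List.replicate (F x ρ) a :=
  (IsPr.flatMap 0 hF (isPr_emit a)).congr fun _ _ => flatMap_const_replicate a _

/-- A word constant. -/
theorem isPr_const (l : List A) : IsPr fun _ _ => l := by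
  induction l with
  | nil => exact isPr_nil
  | cons a l ih => exact ((isPr_emit a).append ih).congr fun _ _ => rfl

end programs

open Classical in
/-- The number of powers of two up to `n`. -/
noncomputable def numPow (n : ℕ) : ℕ := ∑ w ∈ Finset.range (n + 1), if Pow2 w then 1 else 0

open Classical in
/-- The sum of powers of two up to `n`. -/
noncomputable def sumPow (n : ℕ) : ℕ := ∑ w ∈ Finset.range (n + 1), if Pow2 w then w else 0

theorem not_pow2_zero : ¬ Pow2 0 := by
  rintro ⟨i, hi⟩
  have : 0 < 2 ^ i := by positivity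
  omega

theorem pow2_succ_eq {n j i : ℕ} (h1 : n < 2 ^ j) (h2 : 1 ≤ n → 2 ^ j ≤ 2 * n)
    (h3 : n = 0 → j = 0) (hi : n + 1 = 2 ^ i) : i = j := by
  rcases Nat.eq_zero_or_pos n with rfl | hn
  · have : i = 0 := by
      by_contra hne
      have : 2 ^ 1 ≤ 2 ^ i := Nat.pow_le_pow_right (by norm_num) (by omega)
      omega
    rw [this, h3 rfl]
  · have h4 : i ≤ j := by
      rw [← Nat.pow_le_pow_iff_right (a := 2) (by norm_num)]; omega
    have h5 : j < i + 1 := by
      rw [← Nat.pow_lt_pow_iff_right (a := 2) (by norm_num), pow_succ]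
      have := h2 hn
      omega
    omega

theorem pow_inv (n : ℕ) : sumPow n + 1 = 2 ^ numPow n ∧ n < 2 ^ numPow n ∧
    (1 ≤ n → 2 ^ numPow n ≤ 2 * n) ∧ (n = 0 → numPow n = 0) := by
  classical
  induction n with
  | zero =>
    have e0 : numPow 0 = 0 := by
      unfold numPow; rw [Finset.sum_range_one, if_neg not_pow2_zero]
    have e1 : sumPow 0 = 0 := by
      unfold sumPow; rw [Finset.sum_range_one, if_neg not_pow2_zero]
    rw [e0, e1]; norm_num
  | succ n ih =>
    obtain ⟨h1, h2, h3, h4⟩ := ih
    have e1 : numPow (n + 1) = numPow n + if Pow2 (n + 1) then 1 else 0 := by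
      unfold numPow
      rw [Finset.sum_range_succ]
    have e2 : sumPow (n + 1) = sumPow n + if Pow2 (n + 1) then n + 1 else 0 := by
      unfold sumPow
      rw [Finset.sum_range_succ]
    by_cases hp : Pow2 (n + 1)
    · obtain ⟨i, hi⟩ := hp
      have hij := pow2_succ_eq h2 h3 h4 hi
      have hp : Pow2 (n + 1) := ⟨i, hi⟩
      rw [if_pos hp] at e1 e2
      rw [e1, e2, pow_succ]
      rw [hij] at hi
      refine ⟨by omega, by omega, fun _ => by omega, fun h => by omega⟩
    · rw [if_neg hp] at e1 e2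
      have e1' : numPow (n + 1) = numPow n := e1
      have e2' : sumPow (n + 1) = sumPow n := e2
      rw [e1', e2']
      have hne : n + 1 ≠ 2 ^ numPow n := fun h => hp ⟨_, h⟩
      refine ⟨h1, by omega, fun _ => ?_, fun h => by omega⟩
      rcases Nat.eq_zero_or_pos n with rfl | hn
      · exact absurd ⟨0, by norm_num⟩ hp
      · have := h3 hn; omega

theorem numPow_eq_size (n : ℕ) : numPow n = Nat.size n := by
  obtain ⟨h1, h2, h3, h4⟩ := pow_inv n
  apply le_antisymm
  · rcases Nat.eq_zero_or_pos (numPow n) with h0 | h0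
    · omega
    · have hn : 1 ≤ n := by
        by_contra hn
        have := h4 (by omega)
        omega
      have : numPow n - 1 < Nat.size n := by
        rw [Nat.lt_size]
        have h5 := h3 hn
        obtain ⟨k, hk⟩ : ∃ k, numPow n = k + 1 := ⟨numPow n - 1, by omega⟩
        rw [hk, pow_succ] at h5
        rw [hk, Nat.add_sub_cancel]
        omega
      omega
  · rw [Nat.size_le]; exact h2

theorem le_numPow {n k : ℕ} (h : 2 ^ k ≤ n) : k + 1 ≤ numPow n := by
  rw [numPow_eq_size]
  exact Nat.lt_size.2 h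

open Classical in
/-- The list of powers of two up to `n`. -/
theorem flatMap_pow2 {A : Type} (n : ℕ) (f : ℕ → A) :
    ((List.range (n + 1)).flatMap fun w => if Pow2 w then [f w] else []) =
      (List.range (numPow n)).map fun i => f (2 ^ i) := by
  induction n with
  | zero =>
    have e0 : numPow 0 = 0 := by
      unfold numPow; rw [Finset.sum_range_one, if_neg not_pow2_zero]
    rw [e0]
    simp [not_pow2_zero]
  | succ n ih =>
    obtain ⟨h1, h2, h3, h4⟩ := pow_inv n
    have e1 : numPow (n + 1) = numPow n + if Pow2 (n + 1) then 1 else 0 := by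
      unfold numPow
      rw [Finset.sum_range_succ]
    rw [List.range_succ, List.flatMap_append, ih, e1]
    by_cases hp : Pow2 (n + 1)
    · obtain ⟨i, hi⟩ := hp
      have hij := pow2_succ_eq h2 h3 h4 hi
      have hp : Pow2 (n + 1) := ⟨i, hi⟩
      rw [if_pos hp, List.range_succ, List.map_append]
      simp only [List.flatMap_cons, List.flatMap_nil, List.map_cons, List.map_nil,
        List.append_nil]
      rw [if_pos hp, ← hij, hi]
    · rw [if_neg hp]
      simp [hp]

theorem bits_eq (n : ℕ) : Nat.bits n = (List.range (numPow n)).map fun i => n.testBit i := by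
  rw [numPow_eq_size]
  refine List.ext_getElem (by simp [Nat.size_eq_bits_len]) ?_
  intro i h1 h2
  rw [List.getElem_map, List.getElem_range, Nat.testBit_eq_inth, List.getI_eq_getElem _ h1]

open Classical in
/-- Binary printing. -/
theorem bits_flatMap {A : Type} (n : ℕ) (f : Bool → A) :
    (Nat.bits n).map f = (List.range (n + 1)).flatMap fun w =>
      if Pow2 w then [f (decide (n / w % 2 = 1))] else [] := by
  rw [flatMap_pow2 n (fun w => f (decide (n / w % 2 = 1))), bits_eq, List.map_map]
  refine List.map_congr_left fun i _ => ?_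
  simp only [Function.comp]
  rw [Nat.testBit_eq_decide_div_mod_eq]

/-- The bit test. -/
theorem bit_test {n w : ℕ} (hw : 0 < w) :
    n / w % 2 = 1 ↔ ∃ c, c < n + 1 ∧ ((2 * c + 1) * w ≤ n ∧ n < (2 * c + 2) * w) := by
  have h1 : ∀ d, n / w = d ↔ d * w ≤ n ∧ n < (d + 1) * w := by
    intro d
    rw [Nat.div_eq_iff hw]
    constructor
    · rintro ⟨h1, h2⟩
      refine ⟨h1, ?_⟩
      have : (d + 1) * w = d * w + w := by ring
      omega
    · rintro ⟨h1, h2⟩
      refine ⟨h1, ?_⟩
      have : (d + 1) * w = d * w + w := by ring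
      omega
  constructor
  · intro h
    refine ⟨n / w / 2, ?_, ?_⟩
    · have := Nat.div_le_self n w
      omega
    · have := (h1 (2 * (n / w / 2) + 1)).1 (by omega)
      exact this
  · rintro ⟨c, -, h2, h3⟩
    have := (h1 (2 * c + 1)).2 ⟨h2, h3⟩
    omega

/-- Printing the binary digits of the value of an expression which does not depend on the
variables. -/
theorem isPr_bits {A : Type} {K : List Bool → ℕ} (hK : IsEx fun x _ => K x) (f : Bool → A) :
    IsPr fun x _ => (Nat.bits (K x)).map f := by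
  classical
  have hw : IsB fun x ρ => ρ 0 ≠ 0 ∧ ∃ c, c < K x + 1 ∧ ((2 * (Function.update ρ 1 c) 1 + 1) *
      (Function.update ρ 1 c) 0 ≤ K x ∧
      K x < (2 * (Function.update ρ 1 c) 1 + 2) * (Function.update ρ 1 c) 0) :=
    ((isEx_var 0).eq (isEx_const 0)).not.and (IsB.exists_lt 1 (hK.add (isEx_const 1))
      (P := fun x ρ => ((2 * ρ 1 + 1) * ρ 0 ≤ K x ∧ K x < (2 * ρ 1 + 2) * ρ 0))
      ((((((isEx_const 2).mul (isEx_var 1)).add (isEx_const 1)).mul (isEx_var 0)).le hK).and
        (hK.lt ((((isEx_const 2).mul (isEx_var 1)).add (isEx_const 2)).mul (isEx_var 0)))))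
  have hbody := IsPr.ite (isB_pow2_var 0 (by norm_num))
    (IsPr.ite hw (isPr_emit (f true)) (isPr_emit (f false))) isPr_nil
  refine (IsPr.flatMap 0 (hK.add (isEx_const 1)) hbody).congr fun x ρ => ?_
  rw [bits_flatMap]
  refine List.flatMap_congr fun w _ => ?_
  simp only [Function.update_self, ne_eq, not_false_eq_true,
    Function.update_of_ne, Nat.zero_ne_one]
  by_cases hp : Pow2 w
  · rw [if_pos hp, if_pos hp]
    have hw0 : w ≠ 0 := by rintro rfl; exact not_pow2_zero hp
    have hbt := bit_test (n := K x) (Nat.pos_of_ne_zero hw0)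
    by_cases h2 : K x / w % 2 = 1
    · rw [if_pos ⟨hw0, hbt.1 h2⟩, decide_eq_true h2]
    · rw [if_neg (fun h => h2 (hbt.2 h.2)), decide_eq_false h2]
  · rw [if_neg hp, if_neg hp]

/-- Number and sum of powers of two up to a value. -/
theorem isEx_numPow {K : List Bool → ℕ} (hK : IsEx fun x _ => K x) :
    IsEx fun x _ => numPow (K x) := by
  classical
  refine (IsEx.sum 0 (hK.add (isEx_const 1)) (IsEx.ite (isB_pow2_var 0 (by norm_num))
    (isEx_const 1) (isEx_const 0))).congr fun x ρ => ?_
  unfold numPow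
  refine Finset.sum_congr rfl fun j _ => ?_
  simp only [Function.update_self]

theorem isEx_sumPow {K : List Bool → ℕ} (hK : IsEx fun x _ => K x) :
    IsEx fun x _ => sumPow (K x) := by
  classical
  refine (IsEx.sum 0 (hK.add (isEx_const 1)) (IsEx.ite (isB_pow2_var 0 (by norm_num))
    (isEx_var 0) (isEx_const 0))).congr fun x ρ => ?_
  unfold sumPow
  refine Finset.sum_congr rfl fun j _ => ?_
  simp only [Function.update_self]

end Pool.Agent.H75
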