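import Mathlib

/-!
# The class NP and NP-hardness, over Mathlib's polynomial-time machines
-/

set_option autoImplicit false

namespace Pool.Agent.H75

open Turing

/-- The usual encoding of a pair of binary words: the first word, a separator, the second word. -/
def pairEnc (z : List Bool × List Bool) : List (Option Bool) :=
  z.1.map some ++ none :: z.2.map some

/-- The language `L` belongs to NP: there are a polynomial-time computable verifier `V` (in the
sense of Mathlib's `Turing.TM2ComputableInPolyTime`) and a polynomial `p` such that `x ∈ L` iff
`V (y, x) = true` for some certificate `y` of length at most `p |x|`. -/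
def InNP (L : Set (List Bool)) : Prop :=
  ∃ (V : List Bool × List Bool → Bool) (p : Polynomial ℕ),
    Nonempty (TM2ComputableInPolyTime pairEnc Computability.encodeBool V) ∧
    ∀ x, x ∈ L ↔ ∃ y : List Bool, y.length ≤ p.eval x.length ∧ V (y, x) = true

/-- The decision problem `P` on instances of type `α`, written over the alphabet `A` by `enc`, is
NP-hard under polynomial-time many-one reductions. -/
def NPHard {α A : Type} (enc : α → List A) (P : α → Prop) : Prop :=
  ∀ L : Set (List Bool), InNP L → ∃ f : List Bool → α,
    Nonempty (TM2ComputableInPolyTime (fun x : List Bool => x) enc f) ∧ ∀ x, x ∈ L ↔ P (f x)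

end Pool.Agent.H75
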