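import Mathlib
import Pool.Agent.H75.Cmd

/-!
# Micro-steps of a bundled machine
-/

set_option autoImplicit false

namespace Pool.Agent.H75

open Turing StateTransition

section generic

variable {K : Type} [DecidableEq K] {Γ : K → Type} {Λ σ : Type} (m : Λ → TM2.Stmt Γ Λ σ)

/-- Micro-configurations: statement to execute, internal state, stacks. -/
structure MC (K : Type) (Γ : K → Type) (Λ σ : Type) where
  q : TM2.Stmt Γ Λ σ
  v : σ
  S : ∀ k, List (Γ k)

/-- One micro-step. -/
def mstep : MC K Γ Λ σ → MC K Γ Λ σ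
  | ⟨.push k f q, v, S⟩ => ⟨q, v, Function.update S k (f v :: S k)⟩
  | ⟨.peek k f q, v, S⟩ => ⟨q, f v (S k).head?, S⟩
  | ⟨.pop k f q, v, S⟩ => ⟨q, f v (S k).head?, Function.update S k (S k).tail⟩
  | ⟨.load a q, v, S⟩ => ⟨q, a v, S⟩
  | ⟨.branch f q₁ q₂, v, S⟩ => ⟨cond (f v) q₁ q₂, v, S⟩
  | ⟨.goto f, v, S⟩ => ⟨m (f v), v, S⟩
  | ⟨.halt, v, S⟩ => ⟨.halt, v, S⟩

/-- Nesting depth of a statement. -/
def depth : TM2.Stmt Γ Λ σ → ℕ
  | .push _ _ q => depth q + 1
  | .peek _ _ q => depth q + 1
  | .pop _ _ q => depth q + 1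
  | .load _ q => depth q + 1
  | .branch _ q₁ q₂ => max (depth q₁) (depth q₂) + 1
  | .goto _ => 1
  | .halt => 0

/-- The micro-configuration of a configuration. -/
def conv : TM2.Cfg Γ Λ σ → MC K Γ Λ σ
  | ⟨some l, v, S⟩ => ⟨m l, v, S⟩
  | ⟨none, v, S⟩ => ⟨.halt, v, S⟩

theorem mstep_stepAux (q : TM2.Stmt Γ Λ σ) : ∀ (v : σ) (S : ∀ k, List (Γ k)),
    ∃ n, n ≤ depth q ∧ (mstep m)^[n] ⟨q, v, S⟩ = conv m (TM2.stepAux q v S) := by
  induction q with
  | push k f q ih =>
    intro v S
    obtain ⟨n, hn, h⟩ := ih v (Function.update S k (f v :: S k))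
    exact ⟨n + 1, by simp only [depth]; omega, by
      rw [Function.iterate_succ_apply]; simpa only [mstep, TM2.stepAux] using h⟩
  | peek k f q ih =>
    intro v S
    obtain ⟨n, hn, h⟩ := ih (f v (S k).head?) S
    exact ⟨n + 1, by simp only [depth]; omega, by
      rw [Function.iterate_succ_apply]; simpa only [mstep, TM2.stepAux] using h⟩
  | pop k f q ih =>
    intro v S
    obtain ⟨n, hn, h⟩ := ih (f v (S k).head?) (Function.update S k (S k).tail)
    exact ⟨n + 1, by simp only [depth]; omega, by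
      rw [Function.iterate_succ_apply]; simpa only [mstep, TM2.stepAux] using h⟩
  | load a q ih =>
    intro v S
    obtain ⟨n, hn, h⟩ := ih (a v) S
    exact ⟨n + 1, by simp only [depth]; omega, by
      rw [Function.iterate_succ_apply]; simpa only [mstep, TM2.stepAux] using h⟩
  | branch f q₁ q₂ ih₁ ih₂ =>
    intro v S
    rcases hf : f v with _ | _
    · obtain ⟨n, hn, h⟩ := ih₂ v S
      exact ⟨n + 1, by simp only [depth]; omega, by
        rw [Function.iterate_succ_apply]; simpa only [mstep, TM2.stepAux, hf, cond] using h⟩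
    · obtain ⟨n, hn, h⟩ := ih₁ v S
      exact ⟨n + 1, by simp only [depth]; omega, by
        rw [Function.iterate_succ_apply]; simpa only [mstep, TM2.stepAux, hf, cond] using h⟩
  | goto f => intro v S; exact ⟨1, by simp [depth], rfl⟩
  | halt => intro v S; exact ⟨0, by simp [depth], rfl⟩

theorem mstep_halt (v : σ) (S : ∀ k, List (Γ k)) (n : ℕ) :
    (mstep m)^[n] ⟨.halt, v, S⟩ = ⟨.halt, v, S⟩ := by
  induction n with
  | zero => rfl
  | succ n ih => rw [Function.iterate_succ_apply]; exact ih

theorem mstep_of_iter {D : ℕ} (hD : ∀ l, depth (m l) ≤ D) (n : ℕ) :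
    ∀ (c c' : TM2.Cfg Γ Λ σ), iter (TM2.step m) n (some c) = some c' →
      ∃ n', n' ≤ n * D ∧ (mstep m)^[n'] (conv m c) = conv m c' := by
  induction n with
  | zero =>
    intro c c' h
    have : c = c' := Option.some.inj h
    exact ⟨0, by omega, by rw [this]; rfl⟩
  | succ n ih =>
    intro c c' h
    have h1 : iter (TM2.step m) n (TM2.step m c) = some c' := by
      have := Function.iterate_succ_apply (flip bind (TM2.step m)) n (some c)
      exact this.symm.trans h
    rcases c with ⟨l, v, S⟩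
    rcases l with _ | l
    · exfalso
      have h2 : ∀ n, iter (TM2.step m) n none = none := by
        intro n
        induction n with
        | zero => rfl
        | succ n ih =>
          exact (Function.iterate_succ_apply (flip bind (TM2.step m)) n none).trans ih
      have h3 : iter (TM2.step m) n none = some c' := h1
      rw [h2] at h3
      exact absurd h3 (by simp)
    · obtain ⟨a, ha, ha2⟩ := mstep_stepAux m (m l) v S
      obtain ⟨b, hb, hb2⟩ := ih _ _ h1
      refine ⟨b + a, ?_, ?_⟩
      · have := hD l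
        calc b + a ≤ n * D + D := by omega
          _ = (n + 1) * D := by ring
      · rw [Function.iterate_add_apply]
        have e : conv m ⟨some l, v, S⟩ = ⟨m l, v, S⟩ := rfl
        rw [e, ha2]
        exact hb2

/-- A finite set of statements containing the code and closed under sub-statements. -/
noncomputable def stmtSet [Fintype Λ] : Finset (TM2.Stmt Γ Λ σ) := by
  classical
  exact insert .halt (Finset.univ.biUnion fun l => TM2.stmts₁ (m l))

theorem mem_stmtSet [Fintype Λ] {q : TM2.Stmt Γ Λ σ} :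
    q ∈ stmtSet m ↔ q = .halt ∨ ∃ l, q ∈ TM2.stmts₁ (m l) := by
  classical
  unfold stmtSet
  simp

theorem stmtSet_sub [Fintype Λ] {q q' : TM2.Stmt Γ Λ σ} (h : q ∈ stmtSet m)
    (hq : q' ∈ TM2.stmts₁ q) : q' ∈ stmtSet m := by
  rw [mem_stmtSet] at h ⊢
  rcases h with rfl | ⟨l, hl⟩
  · simp only [TM2.stmts₁, Finset.mem_singleton] at hq
    exact Or.inl hq
  · exact Or.inr ⟨l, TM2.stmts₁_trans hl hq⟩

theorem stmtSet_mstep [Fintype Λ] (z : MC K Γ Λ σ) (h : z.q ∈ stmtSet m) :
    (mstep m z).q ∈ stmtSet m := by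
  rcases z with ⟨q, v, S⟩
  simp only at h
  cases q with
  | push k f q =>
    refine stmtSet_sub m h ?_
    simp only [mstep, TM2.stmts₁, Finset.mem_insert]
    exact Or.inr TM2.stmts₁_self
  | peek k f q =>
    refine stmtSet_sub m h ?_
    simp only [mstep, TM2.stmts₁, Finset.mem_insert]
    exact Or.inr TM2.stmts₁_self
  | pop k f q =>
    refine stmtSet_sub m h ?_
    simp only [mstep, TM2.stmts₁, Finset.mem_insert]
    exact Or.inr TM2.stmts₁_self
  | load a q =>
    refine stmtSet_sub m h ?_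
    simp only [mstep, TM2.stmts₁, Finset.mem_insert]
    exact Or.inr TM2.stmts₁_self
  | branch f q₁ q₂ =>
    refine stmtSet_sub m h ?_
    simp only [mstep, TM2.stmts₁, Finset.mem_insert, Finset.mem_union]
    rcases f v with _ | _
    · exact Or.inr (Or.inr TM2.stmts₁_self)
    · exact Or.inr (Or.inl TM2.stmts₁_self)
  | goto f =>
    rw [mem_stmtSet]
    exact Or.inr ⟨f v, TM2.stmts₁_self⟩
  | halt => exact h

end generic

end Pool.Agent.H75
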