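import Mathlib

/-!
# Numeric stack machines and their tableaux

A numeric stack machine has states, stacks and symbols coded by natural numbers. Its runs are
described by a table of cells with local constraints.
-/

set_option autoImplicit false

namespace Pool.Agent.H75

/-- A numeric stack machine. In state `q` it looks at the top of stack `stk q`, goes to state
`nx q 0` if the stack is empty and to `nx q (a + 1)` if the top is `a`, and then performs the
operation `op q` on the stack: `0` nothing, `1` pop, `a + 2` push `a`. -/
structure NM where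
  κ : ℕ
  s : ℕ
  g : ℕ
  stk : ℕ → ℕ
  nx : ℕ → ℕ → ℕ
  op : ℕ → ℕ
  stk_lt : ∀ q, q < s → stk q < κ
  nx_lt : ∀ q, q < s → ∀ c, c ≤ g → nx q c < s
  op_lt : ∀ q, q < s → op q < g + 2

/-- `0` for the empty stack, `a + 1` if the top symbol is `a`. Stacks are listed from the
bottom, so that the top is the last entry. -/
def topOf (r : List ℕ) : ℕ := if r = [] then 0 else r.getLastD 0 + 1

/-- Operations on stacks listed from the bottom. -/
def opOn (o : ℕ) (r : List ℕ) : List ℕ :=
  if o = 0 then r else if o = 1 then r.dropLast else r ++ [o - 2]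

/-- One step of a numeric machine. -/
def NM.step (M : NM) (z : ℕ × (ℕ → List ℕ)) : ℕ × (ℕ → List ℕ) :=
  (M.nx z.1 (topOf (z.2 (M.stk z.1))),
    Function.update z.2 (M.stk z.1) (opOn (M.op z.1) (z.2 (M.stk z.1))))

/-- The run of a numeric machine. -/
def NM.run (M : NM) (z : ℕ × (ℕ → List ℕ)) (t : ℕ) : ℕ × (ℕ → List ℕ) := M.step^[t] z

theorem NM.run_succ (M : NM) (z : ℕ × (ℕ → List ℕ)) (t : ℕ) :
    M.run z (t + 1) = M.step (M.run z t) := Function.iterate_succ_apply' _ _ _

theorem NM.run_zero (M : NM) (z : ℕ × (ℕ → List ℕ)) : M.run z 0 = z := rfl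

/-- The content of cell `i` of a stack: `0` beyond the first free cell, `1` the first free cell,
`2 a + 2` symbol `a` below the top, `2 a + 3` symbol `a` at the top. -/
def cell (r : List ℕ) (i : ℕ) : ℕ :=
  if i + 1 < r.length then 2 * r.getD i 0 + 2
  else if i + 1 = r.length then 2 * r.getD i 0 + 3
  else if i = r.length then 1 else 0

/-- `w` is a cell below the top. -/
def isL (w : ℕ) : Prop := 2 ≤ w ∧ w % 2 = 0
/-- `w` is a top cell. -/
def isT (w : ℕ) : Prop := 3 ≤ w ∧ w % 2 = 1

/-- Neighbouring cells in a row. -/
def rowOK (w w' : ℕ) : Prop :=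
  (isL w ∧ 2 ≤ w') ∨ (isT w ∧ w' = 1) ∨ (w ≤ 1 ∧ w' = 0)

/-- A cell at consecutive times, under operation `o`. -/
def cellOK (o i w w' : ℕ) : Prop :=
  (o = 0 → w' = w) ∧
  (o = 1 → (isT w → w' = 1) ∧ (isL w → w' = w ∨ w' = w + 1) ∧
    (w = 1 → (i = 0 → w' = 1) ∧ (i ≠ 0 → w' = 0)) ∧ (w = 0 → w' = 0)) ∧
  (2 ≤ o → (w = 1 → w' = 2 * (o - 2) + 3) ∧ (isT w → w' = w - 1) ∧ (isL w → w' = w) ∧
    (w = 0 → w' ≤ 1))

theorem cell_lt {g : ℕ} {r : List ℕ} (hr : ∀ a ∈ r, a < g) (i : ℕ) : cell r i < 2 * g + 2 := by
  have h1 : ∀ j, j < r.length → r.getD j 0 < g := by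
    intro j hj
    rw [List.getD_eq_getElem _ _ hj]
    exact hr _ (List.getElem_mem hj)
  unfold cell
  split_ifs with h2 h3 h4
  · have := h1 i (by omega); omega
  · have := h1 i (by omega); omega
  · omega
  · omega

theorem cell_row (r : List ℕ) (i : ℕ) : rowOK (cell r i) (cell r (i + 1)) := by
  unfold rowOK cell isL isT
  split_ifs <;> omega

theorem cell_zero_ne (r : List ℕ) : cell r 0 ≠ 0 := by
  unfold cell
  split_ifs <;> omega

theorem cell_isT {r : List ℕ} {i : ℕ} (h : isT (cell r i)) :
    i + 1 = r.length ∧ cell r i = 2 * r.getD i 0 + 3 := by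
  unfold isT at h
  unfold cell at h ⊢
  split_ifs at h ⊢ <;> omega

theorem topOf_isT {r : List ℕ} {i : ℕ} (h : isT (cell r i)) : topOf r = cell r i / 2 := by
  obtain ⟨h1, h2⟩ := cell_isT h
  rw [h2]
  unfold topOf
  have hne : r ≠ [] := by rintro rfl; simp at h1
  rw [if_neg hne]
  have h3 : r.getLastD 0 = r.getD i 0 := by
    rw [List.getLastD_eq_getLast?, List.getLast?_eq_getElem?, List.getD_eq_getElem?_getD]
    rw [show r.length - 1 = i by omega]
  rw [h3]
  omega

theorem topOf_empty {r : List ℕ} (h : cell r 0 = 1) : topOf r = 0 := by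
  unfold cell at h
  have : r = [] := by
    by_contra hne
    have := List.length_pos_of_ne_nil hne
    split_ifs at h <;> omega
  simp [topOf, this]

theorem cell_keep (r : List ℕ) (i : ℕ) : cellOK 0 i (cell r i) (cell (opOn 0 r) i) := by
  unfold cellOK opOn
  simp

theorem getD_dropLast (r : List ℕ) {i : ℕ} (h : i + 1 < r.length) :
    r.dropLast.getD i 0 = r.getD i 0 := by
  rw [List.getD_eq_getElem _ _ (by rw [List.length_dropLast]; omega),
    List.getD_eq_getElem _ _ (by omega), List.getElem_dropLast]

theorem getD_append (r : List ℕ) (a : ℕ) {i : ℕ} (h : i < r.length) :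
    (r ++ [a]).getD i 0 = r.getD i 0 := by
  rw [List.getD_eq_getElem _ _ (by rw [List.length_append]; omega),
    List.getD_eq_getElem _ _ (by omega), List.getElem_append_left h]

theorem getD_append_last (r : List ℕ) (a : ℕ) : (r ++ [a]).getD r.length 0 = a := by
  rw [List.getD_eq_getElem _ _ (by simp), List.getElem_append_right (by omega)]
  simp

theorem cell_pop (r : List ℕ) (i : ℕ) : cellOK 1 i (cell r i) (cell (opOn 1 r) i) := by
  have h1 : opOn 1 r = r.dropLast := by simp [opOn]
  rw [h1]
  have hlen := List.length_dropLast (xs := r)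
  by_cases h2 : i + 1 < r.length
  · have hg := getD_dropLast r h2
    have e1 : cell r i = 2 * r.getD i 0 + 2 := by unfold cell; rw [if_pos h2]
    have e2 : cell r.dropLast i = 2 * r.getD i 0 + 2 ∨ cell r.dropLast i = 2 * r.getD i 0 + 3 := by
      unfold cell
      rw [hg, hlen]
      split_ifs <;> omega
    unfold cellOK isL isT
    omega
  · have e2 : cell r.dropLast i = if i = r.length - 1 then 1 else 0 := by
      unfold cell
      rw [hlen]
      split_ifs <;> omega
    have e1 : (i + 1 = r.length → cell r i = 2 * r.getD i 0 + 3) ∧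
        (i + 1 ≠ r.length → i = r.length → cell r i = 1) ∧
        (i + 1 ≠ r.length → i ≠ r.length → cell r i = 0) := by
      unfold cell
      split_ifs <;> omega
    by_cases h4 : i = r.length - 1
    · rw [if_pos h4] at e2
      rw [e2]
      unfold cellOK isL isT
      omega
    · rw [if_neg h4] at e2
      rw [e2]
      unfold cellOK isL isT
      omega

theorem cell_push (r : List ℕ) (o i : ℕ) (ho : 2 ≤ o) :
    cellOK o i (cell r i) (cell (opOn o r) i) := by
  have h1 : opOn o r = r ++ [o - 2] := by
    unfold opOn; rw [if_neg (by omega), if_neg (by omega)]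
  rw [h1]
  have hlen : (r ++ [o - 2]).length = r.length + 1 := by simp
  by_cases h2 : i < r.length
  · have hg := getD_append r (o - 2) h2
    have e1 : cell (r ++ [o - 2]) i = 2 * r.getD i 0 + 2 := by
      unfold cell; rw [hlen, if_pos (by omega), hg]
    have e2 : cell r i = 2 * r.getD i 0 + 2 ∨ cell r i = 2 * r.getD i 0 + 3 := by
      unfold cell
      split_ifs <;> omega
    unfold cellOK isL isT
    omega
  · by_cases h3 : i = r.length
    · have hg := getD_append_last r (o - 2)
      have e1 : cell (r ++ [o - 2]) i = 2 * (o - 2) + 3 := by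
        unfold cell; rw [hlen, if_neg (by omega), if_pos (by omega), h3, hg]
      have e2 : cell r i = 1 := by
        unfold cell; rw [if_neg (by omega), if_neg (by omega), if_pos h3]
      unfold cellOK isL isT
      omega
    · have e1 : cell (r ++ [o - 2]) i ≤ 1 := by
        unfold cell; rw [hlen]; split_ifs <;> omega
      have e2 : cell r i = 0 := by
        unfold cell; rw [if_neg (by omega), if_neg (by omega), if_neg h3]
      unfold cellOK isL isT
      omega

theorem cell_op (r : List ℕ) (o i : ℕ) : cellOK o i (cell r i) (cell (opOn o r) i) := by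
  rcases Nat.lt_or_ge o 2 with h | h
  · interval_cases o
    · exact cell_keep r i
    · exact cell_pop r i
  · exact cell_push r o i h

/-- A row satisfying the local constraints and ending with a free cell represents a stack. -/
theorem exists_stack {H g : ℕ} (w : ℕ → ℕ) (h0 : w 0 ≠ 0)
    (hrow : ∀ i, i + 1 < H → rowOK (w i) (w (i + 1))) {h : ℕ} (hh : h < H) (hw : w h ≤ 1)
    (hg : ∀ i, i < H → w i < 2 * g + 2) :
    ∃ r : List ℕ, r.length ≤ h ∧ (∀ a ∈ r, a < g) ∧ ∀ i, i < H → w i = cell r i := by
  classical
  have hex : ∃ i, w i ≤ 1 := ⟨h, hw⟩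
  obtain ⟨l, hl, hmin⟩ : ∃ l, w l ≤ 1 ∧ ∀ i, i < l → 2 ≤ w i :=
    ⟨Nat.find hex, Nat.find_spec hex, fun i hi => by
      have := Nat.find_min hex hi; omega⟩
  have hlh : l ≤ h := by
    by_contra hcon
    have := hmin h (by omega); omega
  refine ⟨(List.range l).map fun i => (w i - 2) / 2, by simpa using hlh, ?_, ?_⟩
  · intro a ha
    rw [List.mem_map] at ha
    obtain ⟨i, hi, rfl⟩ := ha
    rw [List.mem_range] at hi
    have h1 := hg i (by omega)
    have h2 := hmin i hi
    omega
  · have hlen : ((List.range l).map fun i => (w i - 2) / 2).length = l := by simp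
    have hget : ∀ i, i < l → ((List.range l).map fun i => (w i - 2) / 2).getD i 0 =
        (w i - 2) / 2 := by
      intro i hi
      rw [List.getD_eq_getElem _ _ (by simpa using hi)]
      simp
    have hl1 : w l = 1 := by
      rcases Nat.eq_zero_or_pos l with h1 | h1
      · subst h1; omega
      · have h2 := hrow (l - 1) (by omega)
        rw [Nat.sub_add_cancel h1] at h2
        have h3 := hmin (l - 1) (by omega)
        unfold rowOK at h2
        omega
    have hafter : ∀ j, l + 1 + j < H → w (l + 1 + j) = 0 := by
      intro j
      induction j with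
      | zero =>
        intro hj
        have h2 := hrow l (by omega)
        unfold rowOK isL isT at h2
        rw [Nat.add_zero]
        omega
      | succ j ih =>
        intro hj
        have h2 := hrow (l + 1 + j) (by omega)
        have h3 := ih (by omega)
        unfold rowOK isL isT at h2
        rw [← Nat.add_assoc]
        omega
    intro i hi
    unfold cell
    rw [hlen]
    split_ifs with h1 h2 h3
    · rw [hget i (by omega)]
      have h3 := hrow i (by omega)
      have h4 := hmin i (by omega)
      have h5 := hmin (i + 1) (by omega)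
      unfold rowOK isL isT at h3
      omega
    · rw [hget i (by omega)]
      have h3 := hrow i (by omega)
      have h4 := hmin i (by omega)
      rw [h2, hl1] at h3
      unfold rowOK isL isT at h3
      omega
    · rw [h3, hl1]
    · have := hafter (i - (l + 1)) (by omega)
      rw [show l + 1 + (i - (l + 1)) = i by omega] at this
      exact this

theorem cell_below {r : List ℕ} {i : ℕ} (h : i + 1 < r.length) :
    cell r i = 2 * r.getD i 0 + 2 := by unfold cell; rw [if_pos h]

theorem cell_top {r : List ℕ} {i : ℕ} (h : i + 1 = r.length) :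
    cell r i = 2 * r.getD i 0 + 3 := by
  unfold cell; rw [if_neg (by omega), if_pos h]

theorem cell_free {r : List ℕ} {i : ℕ} (h : i = r.length) : cell r i = 1 := by
  unfold cell; rw [if_neg (by omega), if_neg (by omega), if_pos h]

theorem cell_beyond {r : List ℕ} {i : ℕ} (h : r.length < i) : cell r i = 0 := by
  unfold cell; rw [if_neg (by omega), if_neg (by omega), if_neg (by omega)]

/-- After the first free cell everything is blank. -/
theorem row_blank {H : ℕ} (w : ℕ → ℕ) (hrow : ∀ i, i + 1 < H → rowOK (w i) (w (i + 1))) {l : ℕ}
    (hl : w l ≤ 1) : ∀ j, l < j → j < H → w j = 0 := by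
  intro j hj
  induction j, hj using Nat.le_induction with
  | base =>
    intro hH
    have h2 := hrow l hH
    change w (l + 1) = 0
    unfold rowOK isL isT at h2
    omega
  | succ j hj ih =>
    intro hH
    have h2 := hrow j hH
    have h3 := ih (by omega)
    unfold rowOK isL isT at h2
    omega

/-- The constraints determine the next row. -/
theorem next_row {H : ℕ} (w : ℕ → ℕ) (r : List ℕ) (o : ℕ)
    (hrow : ∀ i, i + 1 < H → rowOK (w i) (w (i + 1))) (hr : r.length + 1 < H)
    (hc : ∀ i, i < H → cellOK o i (cell r i) (w i)) :
    ∀ i, i < H → w i = cell (opOn o r) i := by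
  rcases Nat.lt_trichotomy o 1 with ho | ho | ho
  · -- keep
    have : o = 0 := by omega
    subst this
    intro i hi
    have h1 := hc i hi
    unfold cellOK at h1
    rw [h1.1 rfl]
    simp [opOn]
  · -- pop
    subst ho
    have e0 : opOn 1 r = r.dropLast := by simp [opOn]
    rw [e0]
    have hlen := List.length_dropLast (xs := r)
    rcases Nat.eq_zero_or_pos r.length with h0 | h0
    · have hr0 : r = [] := List.length_eq_zero_iff.1 h0
      subst hr0
      have h1 := hc 0 (by omega)
      rw [cell_free (by simp)] at h1
      have h2 : w 0 = 1 := by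
        unfold cellOK at h1
        exact ((h1.2.1 rfl).2.2.1 rfl).1 rfl
      intro i hi
      rcases Nat.eq_zero_or_pos i with h3 | h3
      · subst h3; rw [h2, cell_free (by simp)]
      · rw [row_blank w hrow (by omega) i h3 hi, cell_beyond (by simpa using h3)]
    · -- positive height
      have hE : w (r.length - 1) = 1 := by
        have h1 := hc (r.length - 1) (by omega)
        rw [cell_top (by omega)] at h1
        unfold cellOK isT isL at h1
        omega
      have hL : ∀ i, i + 1 < r.length → w i = 2 * r.getD i 0 + 2 ∨ w i = 2 * r.getD i 0 + 3 := by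
        intro i hi
        have h1 := hc i (by omega)
        rw [cell_below hi] at h1
        unfold cellOK isT isL at h1
        omega
      intro i hi
      rcases Nat.lt_trichotomy i (r.length - 1) with h2 | h2 | h2
      · have h3 := hrow i (by omega)
        have h4 := hL i (by omega)
        rcases Nat.lt_or_ge (i + 1) (r.length - 1) with h5 | h5
        · rw [cell_below (by omega), getD_dropLast r (by omega)]
          have h6 := hL (i + 1) (by omega)
          unfold rowOK isL isT at h3
          omega
        · have h6 : i + 1 = r.length - 1 := by omega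
          rw [cell_top (by omega), getD_dropLast r (by omega)]
          rw [h6, hE] at h3
          unfold rowOK isL isT at h3
          omega
      · rw [h2, hE, cell_free (by omega)]
      · rw [row_blank w hrow (l := r.length - 1) (by omega) i h2 hi, cell_beyond (by omega)]
  · -- push
    have e0 : opOn o r = r ++ [o - 2] := by
      unfold opOn; rw [if_neg (by omega), if_neg (by omega)]
    rw [e0]
    have hlen : (r ++ [o - 2]).length = r.length + 1 := by simp
    have hT : w r.length = 2 * (o - 2) + 3 := by
      have h1 := hc r.length (by omega)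
      rw [cell_free rfl] at h1
      unfold cellOK at h1
      exact (h1.2.2 (by omega)).1 rfl
    have hE : w (r.length + 1) = 1 := by
      have h1 := hrow r.length (by omega)
      have h2 := hc (r.length + 1) (by omega)
      rw [cell_beyond (by omega)] at h2
      unfold cellOK at h2
      have h3 := (h2.2.2 (by omega)).2.2.2 rfl
      unfold rowOK isL isT at h1
      omega
    intro i hi
    rcases Nat.lt_trichotomy i r.length with h2 | h2 | h2
    · rw [cell_below (by omega), getD_append r _ h2]
      have h1 := hc i hi
      rcases Nat.lt_or_ge (i + 1) r.length with h5 | h5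
      · rw [cell_below h5] at h1
        unfold cellOK isT isL at h1
        omega
      · rw [cell_top (by omega)] at h1
        unfold cellOK isT isL at h1
        omega
    · subst h2
      rw [hT, cell_top (by omega), getD_append_last]
    · rcases Nat.eq_or_lt_of_le h2 with h3 | h3
      · have h4 : i = r.length + 1 := by omega
        subst h4
        rw [hE, cell_free (by omega)]
      · rw [row_blank w hrow (l := r.length + 1) (by omega) i h3 hi, cell_beyond (by omega)]

end Pool.Agent.H75
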