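import Mathlib
import Pool.Agent.H75.Micro
import Pool.Agent.H75.Tableau

/-!
# From bundled machines to numeric machines
-/

set_option autoImplicit false

namespace Pool.Agent.H75

open Turing StateTransition

section symbols

variable {K : Type} {Γ : K → Type} (U : Finset (Σ k, Γ k))

open Classical in
/-- Code of a symbol. -/
noncomputable def scode (u : Σ k, Γ k) : ℕ :=
  if h : u ∈ U then (U.equivFin ⟨u, h⟩ : ℕ) else 0

theorem scode_lt {u : Σ k, Γ k} (h : u ∈ U) : scode U u < U.card := by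
  unfold scode
  rw [dif_pos h]
  exact (U.equivFin ⟨u, h⟩).2

theorem scode_inj {u u' : Σ k, Γ k} (h : u ∈ U) (h' : u' ∈ U) (e : scode U u = scode U u') :
    u = u' := by
  unfold scode at e
  rw [dif_pos h, dif_pos h'] at e
  have := U.equivFin.injective (Fin.ext e)
  exact congrArg Subtype.val this

open Classical in
/-- Decoding of the top of stack `k`: `0` for an empty stack. -/
noncomputable def sdec (k : K) (c : ℕ) : Option (Γ k) :=
  if h : ∃ a : Γ k, (⟨k, a⟩ : Σ k, Γ k) ∈ U ∧ scode U ⟨k, a⟩ + 1 = c then some h.choose else none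

theorem sdec_zero (k : K) : sdec U k 0 = none := by
  unfold sdec
  rw [dif_neg]
  rintro ⟨a, -, h⟩
  omega

theorem sdec_code {k : K} {a : Γ k} (h : (⟨k, a⟩ : Σ k, Γ k) ∈ U) :
    sdec U k (scode U ⟨k, a⟩ + 1) = some a := by
  unfold sdec
  have hex : ∃ b : Γ k, (⟨k, b⟩ : Σ k, Γ k) ∈ U ∧ scode U ⟨k, b⟩ + 1 = scode U ⟨k, a⟩ + 1 :=
    ⟨a, h, rfl⟩
  rw [dif_pos hex]
  obtain ⟨h1, h2⟩ := hex.choose_spec
  have := scode_inj U h1 h (by omega)
  have h3 : hex.choose = a := by
    have := Sigma.mk.inj_iff.1 this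
    exact eq_of_heq this.2
  rw [h3]

/-- The code of a stack, listed from the bottom. -/
noncomputable def stackCode (k : K) (l : List (Γ k)) : List ℕ :=
  (l.map fun a => scode U ⟨k, a⟩).reverse

theorem topOf_stackCode (k : K) (l : List (Γ k)) (hl : ∀ a ∈ l, (⟨k, a⟩ : Σ k, Γ k) ∈ U) :
    sdec U k (topOf (stackCode U k l)) = l.head? ∧ topOf (stackCode U k l) ≤ U.card := by
  cases l with
  | nil => simp [stackCode, topOf, sdec_zero]
  | cons a l =>
    have ha := hl a (by simp)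
    have : topOf (stackCode U k (a :: l)) = scode U ⟨k, a⟩ + 1 := by
      unfold topOf stackCode
      rw [if_neg (by simp)]
      simp
    rw [this]
    exact ⟨by rw [sdec_code U ha]; rfl, scode_lt U ha⟩

end symbols

section tonm

variable {K : Type} [DecidableEq K] [Fintype K] {Γ : K → Type} {Λ σ : Type} [Fintype Λ]
  [Fintype σ] (m : Λ → TM2.Stmt Γ Λ σ) (k₀ : K) (U : Finset (Σ k, Γ k))

/-- The stack used by a statement. -/
def stkOf (k₀ : K) : TM2.Stmt Γ Λ σ → K
  | .push k _ _ => k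
  | .peek k _ _ => k
  | .pop k _ _ => k
  | _ => k₀

/-- The operation of a statement. -/
noncomputable def opOf : TM2.Stmt Γ Λ σ → σ → ℕ
  | .push k f _, v => scode U ⟨k, f v⟩ + 2
  | .pop _ _ _, _ => 1
  | _, _ => 0

/-- Control states. -/
abbrev CS : Type := {q // q ∈ stmtSet m} × σ

/-- The next control state, given the code of the top symbol. -/
noncomputable def nxCS (z : CS m) (c : ℕ) : CS m :=
  ⟨⟨(mstep m ⟨z.1.1, z.2, fun k => (sdec U k c).toList⟩).q, stmtSet_mstep m _ z.1.2⟩,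
    (mstep m ⟨z.1.1, z.2, fun k => (sdec U k c).toList⟩).v⟩

/-- The symbols pushed by the machine belong to `U`. -/
def PushOK : Prop := ∀ k f q, TM2.Stmt.push k f q ∈ stmtSet m → ∀ v, (⟨k, f v⟩ : Σ k, Γ k) ∈ U

theorem opOf_lt (hU : PushOK m U) {q : TM2.Stmt Γ Λ σ} (hq : q ∈ stmtSet m) (v : σ) :
    opOf U q v < U.card + 2 := by
  cases q with
  | push k f q => exact Nat.add_lt_add_right (scode_lt U (hU k f q hq v)) 2
  | _ => simp [opOf]

/-- The numeric machine. -/
noncomputable def toNM (hU : PushOK m U) : NM where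
  κ := Fintype.card K
  s := Fintype.card (CS m)
  g := U.card
  stk n := if h : n < Fintype.card (CS m) then
    (Fintype.equivFin K (stkOf k₀ ((Fintype.equivFin (CS m)).symm ⟨n, h⟩).1.1) : ℕ) else 0
  nx n c := if h : n < Fintype.card (CS m) then
    (Fintype.equivFin (CS m) (nxCS m U ((Fintype.equivFin (CS m)).symm ⟨n, h⟩) c) : ℕ) else 0
  op n := if h : n < Fintype.card (CS m) then
    opOf U ((Fintype.equivFin (CS m)).symm ⟨n, h⟩).1.1 ((Fintype.equivFin (CS m)).symm ⟨n, h⟩).2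
    else 0
  stk_lt := by
    intro q hq
    rw [dif_pos hq]
    exact Fin.is_lt _
  nx_lt := by
    intro q hq c _
    rw [dif_pos hq]
    exact Fin.is_lt _
  op_lt := by
    intro q hq
    rw [dif_pos hq]
    exact opOf_lt m U hU ((Fintype.equivFin (CS m)).symm ⟨q, hq⟩).1.2 _

/-- Code of a control state. -/
noncomputable def ccode (z : CS m) : ℕ := (Fintype.equivFin (CS m) z : ℕ)

/-- Code of a stack index. -/
noncomputable def kcode (k : K) : ℕ := (Fintype.equivFin K k : ℕ)

theorem kcode_inj {k k' : K} (h : kcode k = kcode k') : k = k' :=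
  (Fintype.equivFin K).injective (Fin.ext h)

theorem ccode_lt (z : CS m) : ccode m z < Fintype.card (CS m) := Fin.is_lt _

theorem symm_ccode (z : CS m) :
    (Fintype.equivFin (CS m)).symm ⟨ccode m z, ccode_lt m z⟩ = z := by
  rw [Equiv.symm_apply_eq]
  exact Fin.ext rfl

theorem toNM_stk (hU : PushOK m U) (z : CS m) :
    (toNM m k₀ U hU).stk (ccode m z) = kcode (stkOf k₀ z.1.1) := by
  simp only [toNM]
  rw [dif_pos (ccode_lt m z), symm_ccode]
  rfl

theorem toNM_nx (hU : PushOK m U) (z : CS m) (c : ℕ) :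
    (toNM m k₀ U hU).nx (ccode m z) c = ccode m (nxCS m U z c) := by
  simp only [toNM]
  rw [dif_pos (ccode_lt m z), symm_ccode]
  rfl

theorem toNM_op (hU : PushOK m U) (z : CS m) :
    (toNM m k₀ U hU).op (ccode m z) = opOf U z.1.1 z.2 := by
  simp only [toNM]
  rw [dif_pos (ccode_lt m z), symm_ccode]

/-- Simulation relation. -/
def Sim (z : MC K Γ Λ σ) (y : ℕ × (ℕ → List ℕ)) : Prop :=
  ∃ hq : z.q ∈ stmtSet m, y.1 = ccode m ⟨⟨z.q, hq⟩, z.v⟩ ∧
    ∀ k, (∀ a ∈ z.S k, (⟨k, a⟩ : Σ k, Γ k) ∈ U) ∧ y.2 (kcode k) = stackCode U k (z.S k)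

theorem mstep_control {q : TM2.Stmt Γ Λ σ} {v : σ} {S S' : ∀ k, List (Γ k)}
    (h : (S (stkOf k₀ q)).head? = (S' (stkOf k₀ q)).head?) :
    (mstep m ⟨q, v, S⟩).q = (mstep m ⟨q, v, S'⟩).q ∧
      (mstep m ⟨q, v, S⟩).v = (mstep m ⟨q, v, S'⟩).v := by
  cases q <;> simp_all [mstep, stkOf]

theorem mstep_stack (hU : PushOK m U) {q : TM2.Stmt Γ Λ σ} (hq : q ∈ stmtSet m) {v : σ}
    {S : ∀ k, List (Γ k)} (hS : ∀ k, ∀ a ∈ S k, (⟨k, a⟩ : Σ k, Γ k) ∈ U) (k : K) :
    (∀ a ∈ (mstep m ⟨q, v, S⟩).S k, (⟨k, a⟩ : Σ k, Γ k) ∈ U) ∧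
    (k = stkOf k₀ q → stackCode U k ((mstep m ⟨q, v, S⟩).S k) =
      opOn (opOf U q v) (stackCode U k (S k))) ∧
    (k ≠ stkOf k₀ q → stackCode U k ((mstep m ⟨q, v, S⟩).S k) = stackCode U k (S k)) := by
  cases q with
  | push k' f q =>
    simp only [mstep, stkOf, opOf]
    by_cases h : k = k'
    · subst h
      rw [Function.update_self]
      refine ⟨?_, fun _ => ?_, fun h => absurd rfl h⟩
      · intro a ha
        rw [List.mem_cons] at ha
        rcases ha with rfl | ha
        · exact hU _ _ _ hq v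
        · exact hS _ a ha
      · unfold stackCode opOn
        rw [if_neg (by omega), if_neg (by omega)]
        simp
    · rw [Function.update_of_ne h]
      exact ⟨hS k, fun h' => absurd h' h, fun _ => rfl⟩
  | pop k' f q =>
    simp only [mstep, stkOf, opOf]
    by_cases h : k = k'
    · subst h
      rw [Function.update_self]
      refine ⟨?_, fun _ => ?_, fun h => absurd rfl h⟩
      · intro a ha
        exact hS _ a (List.mem_of_mem_tail ha)
      · unfold stackCode opOn
        rw [if_neg (by omega), if_pos rfl]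
        cases S k with
        | nil => simp
        | cons a l => simp
    · rw [Function.update_of_ne h]
      exact ⟨hS k, fun h' => absurd h' h, fun _ => rfl⟩
  | peek k' f q => exact ⟨hS k, fun _ => rfl, fun _ => rfl⟩
  | load a q => exact ⟨hS k, fun _ => rfl, fun _ => rfl⟩
  | branch f q₁ q₂ => exact ⟨hS k, fun _ => rfl, fun _ => rfl⟩
  | goto f => exact ⟨hS k, fun _ => rfl, fun _ => rfl⟩
  | halt => exact ⟨hS k, fun _ => rfl, fun _ => rfl⟩

theorem Sim.step (hU : PushOK m U) {z : MC K Γ Λ σ} {y : ℕ × (ℕ → List ℕ)} (h : Sim m U z y) :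
    Sim m U (mstep m z) ((toNM m k₀ U hU).step y) := by
  obtain ⟨hq, h1, h2⟩ := h
  refine ⟨stmtSet_mstep m z hq, ?_, ?_⟩
  · simp only [NM.step]
    rw [h1, toNM_stk, toNM_nx]
    obtain ⟨h3, h4⟩ := h2 (stkOf k₀ z.q)
    rw [h4]
    obtain ⟨h5, h6⟩ := topOf_stackCode U _ _ h3
    congr 1
    unfold nxCS
    have h7 := mstep_control m k₀ (q := z.q) (v := z.v) (S := z.S)
      (S' := fun k => (sdec U k (topOf (stackCode U (stkOf k₀ z.q) (z.S (stkOf k₀ z.q))))).toList)
      (by
        rw [h5]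
        cases (z.S (stkOf k₀ z.q)).head? <;> simp)
    refine Prod.ext (Subtype.ext ?_) ?_
    · exact h7.1.symm
    · exact h7.2.symm
  · intro k
    obtain ⟨h3, h4, h5⟩ := mstep_stack m k₀ U hU hq (v := z.v) (fun k => (h2 k).1) k
    refine ⟨h3, ?_⟩
    have e : (mstep m z).S k = (mstep m ⟨z.q, z.v, z.S⟩).S k := rfl
    rw [e]
    simp only [NM.step]
    rw [h1, toNM_stk, toNM_op]
    by_cases hk : k = stkOf k₀ z.q
    · rw [h4 hk, ← hk, Function.update_self, (h2 k).2]
    · rw [h5 hk, Function.update_of_ne (fun hh => hk (kcode_inj hh)), (h2 k).2]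

theorem Sim.run (hU : PushOK m U) {z : MC K Γ Λ σ} {y : ℕ × (ℕ → List ℕ)} (h : Sim m U z y)
    (t : ℕ) : Sim m U ((mstep m)^[t] z) ((toNM m k₀ U hU).run y t) := by
  induction t with
  | zero => exact h
  | succ t ih =>
    rw [Function.iterate_succ_apply', NM.run_succ]
    exact ih.step m k₀ U hU

end tonm

end Pool.Agent.H75
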