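import Mathlib
import Pool.Agent.H75.NPDefs
import Pool.Agent.H75.ToNM
import Pool.Agent.H75.LoopSpec

/-!
# A numeric normal form for NP languages
-/

set_option autoImplicit false

namespace Pool.Agent.H75

open Turing StateTransition Polynomial

/-- The code of the input stack, listed from the bottom. -/
def inCode (c0 c1 cs : ℕ) (x y : List Bool) : List ℕ :=
  (x.map fun b => if b = true then c1 else c0).reverse ++
    cs :: (y.map fun b => if b = true then c1 else c0).reverse

/-- Constraints on the cells of the input stack at time zero. -/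
def inP (c0 c1 cs : ℕ) (x : List Bool) (pn : ℕ) (i w : ℕ) : Prop :=
  (∀ j, j + i + 1 = x.length → w = 2 * (if x[j]? = some true then c1 else c0) + 2) ∧
    (i = x.length → w = 2 * cs + 2 ∨ w = 2 * cs + 3) ∧
    (x.length < i → w ≤ 1 ∨ w / 2 - 1 = c0 ∨ w / 2 - 1 = c1) ∧
    (x.length + pn < i → w ≤ 1)

/-- Constraints on the cells of all stacks at time zero. -/
def iniP (k0 c0 c1 cs : ℕ) (x : List Bool) (pn : ℕ) (k i w : ℕ) : Prop :=
  (k ≠ k0 → (i = 0 → w = 1) ∧ (i ≠ 0 → w = 0)) ∧ (k = k0 → inP c0 c1 cs x pn i w)

theorem cell_le_one {r : List ℕ} {i : ℕ} : cell r i ≤ 1 ↔ r.length ≤ i := by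
  unfold cell
  split_ifs <;> omega

theorem cell_sym {r : List ℕ} {i : ℕ} (h : i < r.length) : cell r i / 2 - 1 = r[i] := by
  have e : r.getD i 0 = r[i] := List.getD_eq_getElem _ _ h
  unfold cell
  rw [e]
  split_ifs <;> omega

theorem inP_iff {c0 c1 cs : ℕ} {x : List Bool} {pn H : ℕ} (hH : x.length + pn + 2 ≤ H)
    (r : List ℕ) : (∀ i, i < H → inP c0 c1 cs x pn i (cell r i)) ↔
      ∃ y : List Bool, y.length ≤ pn ∧ r = inCode c0 c1 cs x y := by
  constructor
  · intro h
    have h1 : x.length < r.length := by
      have h2 := (h x.length (by omega)).2.1 rfl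
      by_contra hcon
      have := cell_le_one.2 (show r.length ≤ x.length by omega)
      omega
    have h2 : r.length ≤ x.length + pn + 1 := by
      have := (h (x.length + pn + 1) (by omega)).2.2.2 (by omega)
      exact cell_le_one.1 this
    refine ⟨((r.drop (x.length + 1)).map fun a => decide (a = c1)).reverse, ?_, ?_⟩
    · simp; omega
    · unfold inCode
      have e1 : r.take x.length = (x.map fun b => if b = true then c1 else c0).reverse := by
        refine List.ext_getElem (by simp; omega) ?_
        intro i hi hi'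
        have hi2 : i < x.length := by simpa using hi'
        rw [List.getElem_take, List.getElem_reverse, List.getElem_map]
        have h3 := (h i (by omega)).1 (x.length - 1 - i) (by omega)
        have h4 := cell_sym (r := r) (i := i) (by omega)
        rw [← h4, h3]
        have h5 : x[x.length - 1 - i]? = some x[x.length - 1 - i] :=
          List.getElem?_eq_getElem (by omega)
        rw [h5]
        simp only [Option.some.injEq, List.length_map]
        omega
      have e2 : r[x.length] = cs := by
        have h3 := (h x.length (by omega)).2.1 rfl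
        have h4 := cell_sym (r := r) (i := x.length) h1
        omega
      have e3 : r.drop (x.length + 1) = (((r.drop (x.length + 1)).map
          fun a => decide (a = c1)).reverse.map fun b => if b = true then c1 else c0).reverse := by
        rw [List.map_reverse, List.reverse_reverse, List.map_map]
        refine List.ext_getElem (by simp) ?_
        intro i hi hi'
        rw [List.length_drop] at hi
        rw [List.getElem_map, List.getElem_drop]
        have h3 := (h (x.length + 1 + i) (by omega)).2.2.1 (by omega)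
        have h4 := cell_sym (r := r) (i := x.length + 1 + i) (by omega)
        have h5 : ¬ cell r (x.length + 1 + i) ≤ 1 := by
          rw [cell_le_one]; omega
        simp only [Function.comp, decide_eq_true_eq]
        split_ifs with h6
        · exact h6
        · rcases h3 with h3 | h3 | h3
          · exact absurd h3 h5
          · omega
          · omega
      rw [← e3, ← e1, ← e2, ← List.drop_eq_getElem_cons h1, List.take_append_drop]
  · rintro ⟨y, hy, rfl⟩ i hi
    have hlen : (inCode c0 c1 cs x y).length = x.length + 1 + y.length := by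
      simp [inCode]; omega
    refine ⟨?_, ?_, ?_, ?_⟩
    · intro j hj
      have h1 : (inCode c0 c1 cs x y).getD i 0 = if x[j]? = some true then c1 else c0 := by
        rw [List.getD_eq_getElem _ _ (by omega)]
        unfold inCode
        rw [List.getElem_append_left (by simp; omega), List.getElem_reverse, List.getElem_map]
        have h5 : x[j]? = some x[j] := List.getElem?_eq_getElem (by omega)
        rw [h5]
        simp only [Option.some.injEq, List.length_map]
        have h6 : x.length - 1 - i = j := by omega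
        simp only [h6]
      rw [cell_below (by omega), h1]
    · intro hi2
      have h1 : (inCode c0 c1 cs x y).getD i 0 = cs := by
        rw [List.getD_eq_getElem _ _ (by omega)]
        unfold inCode
        rw [List.getElem_append_right (by simp; omega)]
        simp [hi2]
      rcases Nat.lt_or_ge (i + 1) (inCode c0 c1 cs x y).length with h2 | h2
      · left; rw [cell_below h2, h1]
      · right; rw [cell_top (by omega), h1]
    · intro hi2
      rcases Nat.lt_or_ge i (inCode c0 c1 cs x y).length with h2 | h2
      · right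
        rw [cell_sym h2, ← List.getD_eq_getElem _ 0 h2]
        rw [hlen] at h2
        unfold inCode
        obtain ⟨j, rfl⟩ : ∃ j, i = x.length + (j + 1) := ⟨i - x.length - 1, by omega⟩
        rw [List.getD_append_right _ _ _ _ (by simp)]
        simp only [List.length_reverse, List.length_map, Nat.add_sub_cancel_left,
          List.getD_cons_succ]
        rw [List.getD_eq_getElem _ _ (by simp; omega)]
        rw [List.getElem_reverse, List.getElem_map]
        split_ifs
        · exact Or.inr rfl
        · exact Or.inl rfl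
      · left; exact cell_le_one.2 h2
    · intro hi2
      exact cell_le_one.2 (by omega)

theorem cell_zero_eq_one {r : List ℕ} (h : cell r 0 = 1) : r = [] := by
  have := cell_le_one.1 (le_of_eq h)
  exact List.length_eq_zero_iff.1 (by omega)

theorem iniP_iff {κ k0 c0 c1 cs : ℕ} {x : List Bool} {pn H : ℕ} (hk0 : k0 < κ)
    (hH : x.length + pn + 2 ≤ H) (S : ℕ → List ℕ) :
    (∀ k, k < κ → ∀ i, i < H → iniP k0 c0 c1 cs x pn k i (cell (S k) i)) ↔
      ∃ y : List Bool, y.length ≤ pn ∧ S k0 = inCode c0 c1 cs x y ∧
        ∀ k, k < κ → k ≠ k0 → S k = [] := by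
  constructor
  · intro h
    obtain ⟨y, hy, hy2⟩ := (inP_iff hH (S k0)).1 fun i hi => (h k0 hk0 i hi).2 rfl
    refine ⟨y, hy, hy2, fun k hk hne => ?_⟩
    exact cell_zero_eq_one (((h k hk 0 (by omega)).1 hne).1 rfl)
  · rintro ⟨y, hy, hy2, hS⟩ k hk i hi
    refine ⟨fun hne => ?_, ?_⟩
    · rw [hS k hk hne]
      refine ⟨?_, ?_⟩
      · rintro rfl; exact cell_free (by simp)
      · intro h0; exact cell_beyond (by simp; omega)
    · rintro rfl
      exact (inP_iff hH (S k)).2 ⟨y, hy, hy2⟩ i hi

/-- The symbols used by a machine on stack inputs, and its two possible output symbols. -/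
noncomputable def symSet (tm : FinTM2) (o : Bool → tm.Γ tm.k₁) : Finset (Σ k, tm.Γ k) := by
  classical
  exact
    letI := tm.Γk₀Fin
    letI := tm.ΛFin
    letI := tm.σFin
    (Finset.univ : Finset (tm.Γ tm.k₀)).image (fun a => (⟨tm.k₀, a⟩ : Σ k, tm.Γ k)) ∪
    ((stmtSet tm.m).biUnion fun q => match q with
      | .push k f _ => Finset.univ.image fun v => (⟨k, f v⟩ : Σ k, tm.Γ k)
      | _ => ∅) ∪
    Finset.univ.image (fun b => (⟨tm.k₁, o b⟩ : Σ k, tm.Γ k))

theorem mem_symSet_in (tm : FinTM2) (o : Bool → tm.Γ tm.k₁) (a : tm.Γ tm.k₀) :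
    (⟨tm.k₀, a⟩ : Σ k, tm.Γ k) ∈ symSet tm o := by
  classical
  unfold symSet
  let _ := tm.Γk₀Fin
  simp only [Finset.mem_union, Finset.mem_image]
  exact Or.inl (Or.inl ⟨a, Finset.mem_univ _, rfl⟩)

theorem mem_symSet_out (tm : FinTM2) (o : Bool → tm.Γ tm.k₁) (b : Bool) :
    (⟨tm.k₁, o b⟩ : Σ k, tm.Γ k) ∈ symSet tm o := by
  classical
  unfold symSet
  simp only [Finset.mem_union, Finset.mem_image]
  exact Or.inr ⟨b, Finset.mem_univ _, rfl⟩

theorem pushOK_symSet (tm : FinTM2) (o : Bool → tm.Γ tm.k₁) :
    letI := tm.ΛFin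
    PushOK tm.m (symSet tm o) := by
  classical
  intro k f q hq v
  unfold symSet
  let _ := tm.σFin
  simp only [Finset.mem_union, Finset.mem_biUnion, Finset.mem_image]
  exact Or.inl (Or.inr ⟨_, hq, by simp⟩)

/-- Numeric normal form of NP languages. -/
theorem np_form {L : Set (List Bool)} (hL : InNP L) :
    ∃ (M : NM) (q₀ k0 kf wf c0 c1 cs : ℕ) (P T : Polynomial ℕ), q₀ < M.s ∧ k0 < M.κ ∧ kf < M.κ ∧
      ∀ (x : List Bool) (t H : ℕ), T.eval x.length ≤ t → x.length + P.eval x.length + 2 ≤ H →
        (x ∈ L ↔ ∃ S : ℕ → List ℕ, (∀ k, ∀ a ∈ S k, a < M.g) ∧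
          (∀ k, k < M.κ → ∀ i, i < H →
            iniP k0 c0 c1 cs x (P.eval x.length) k i (cell (S k) i)) ∧
          cell ((M.run (q₀, S) t).2 kf) 0 = wf) := by
  classical
  obtain ⟨V, P, ⟨hV⟩, hLV⟩ := hL
  rcases hV with ⟨⟨tm, inA, outA⟩, time, hout⟩
  let _ := tm.kDecidableEq
  let _ := tm.kFin
  let _ := tm.ΛFin
  let _ := tm.σFin
  set o : Bool → tm.Γ tm.k₁ := outA.invFun with ho
  set U := symSet tm o with hUdef
  have hU : PushOK tm.m U := pushOK_symSet tm o
  set D := Finset.univ.sup (fun l => depth (tm.m l)) with hD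
  have hDle : ∀ l, depth (tm.m l) ≤ D := fun l => Finset.le_sup (f := fun l => depth (tm.m l))
    (Finset.mem_univ l)
  set cc : Option Bool → ℕ := fun a => scode U ⟨tm.k₀, inA.invFun a⟩ with hcc
  have hmain : tm.m tm.main ∈ stmtSet tm.m :=
    (mem_stmtSet tm.m).2 (Or.inr ⟨tm.main, TM2.stmts₁_self⟩)
  -- the final cell
  set wf := 2 * scode U ⟨tm.k₁, o true⟩ + 3 with hwf
  refine ⟨toNM tm.m tm.k₀ U hU, ccode tm.m ⟨⟨tm.m tm.main, hmain⟩, tm.initialState⟩,
    kcode tm.k₀, kcode tm.k₁, wf, cc (some false), cc (some true), cc none, P,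
    C D * time.comp (X + P + 1), ccode_lt _ _, Fin.is_lt _, Fin.is_lt _, ?_⟩
  intro x t H ht hH
  have hlenEnc : ∀ y : List Bool, (pairEnc (y, x)).length = y.length + 1 + x.length := by
    intro y; simp [pairEnc]; omega
  have hcode : ∀ y : List Bool, stackCode U tm.k₀ (List.map inA.invFun (pairEnc (y, x))) =
      inCode (cc (some false)) (cc (some true)) (cc none) x y := by
    intro y
    have hsome : ∀ b : Bool, scode U ⟨tm.k₀, inA.invFun (some b)⟩ =
        if b = true then cc (some true) else cc (some false) := by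
      intro b; cases b <;> simp [hcc]
    unfold stackCode inCode pairEnc
    simp only [List.map_append, List.map_cons, List.map_map, List.reverse_append,
      List.reverse_cons, Function.comp_def, hsome, List.append_assoc, List.singleton_append]
    rfl
  -- the run on given initial stacks
  have key : ∀ (y : List Bool) (S : ℕ → List ℕ), y.length ≤ P.eval x.length →
      S (kcode tm.k₀) = inCode (cc (some false)) (cc (some true)) (cc none) x y →
      (∀ k, k < Fintype.card tm.K → k ≠ kcode tm.k₀ → S k = []) →
      cell (((toNM tm.m tm.k₀ U hU).run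
        (ccode tm.m ⟨⟨tm.m tm.main, hmain⟩, tm.initialState⟩, S) t).2 (kcode tm.k₁)) 0 =
        2 * scode U ⟨tm.k₁, o (V (y, x))⟩ + 3 := by
    intro y S hy hS1 hS2
    set l := List.map inA.invFun (pairEnc (y, x)) with hl
    have hsim : Sim tm.m U ⟨tm.m tm.main, tm.initialState, Function.update (fun _ => []) tm.k₀ l⟩
        (ccode tm.m ⟨⟨tm.m tm.main, hmain⟩, tm.initialState⟩, S) := by
      refine ⟨hmain, rfl, fun k => ?_⟩
      by_cases hk : k = tm.k₀
      · subst hk
        have e : Function.update (fun _ => []) tm.k₀ l tm.k₀ = l := Function.update_self _ _ _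
        refine ⟨fun a _ => mem_symSet_in tm o a, ?_⟩
        change S (kcode tm.k₀) = stackCode U tm.k₀ (Function.update (fun _ => []) tm.k₀ l tm.k₀)
        rw [e, hcode y]; exact hS1
      · have e : Function.update (fun _ => []) tm.k₀ l k = [] := Function.update_of_ne hk _ _
        change (∀ a ∈ Function.update (fun _ => []) tm.k₀ l k, (⟨k, a⟩ : Σ k, tm.Γ k) ∈ U) ∧
          S (kcode k) = stackCode U k (Function.update (fun _ => []) tm.k₀ l k)
        rw [e]
        refine ⟨by simp, ?_⟩
        have : stackCode U k ([] : List (tm.Γ k)) = [] := by simp [stackCode]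
        rw [this]
        exact hS2 _ (Fin.is_lt _) (fun hh => hk (kcode_inj hh))
    have hrun := hsim.run tm.m tm.k₀ U hU t
    -- the machine run
    obtain ⟨⟨steps, hev⟩, hst⟩ := hout (y, x)
    have hev' : iter (TM2.step tm.m) steps (some (initList tm l)) =
        some (haltList tm [o (V (y, x))]) := hev
    obtain ⟨n', hn', hn2⟩ := mstep_of_iter tm.m hDle steps _ _ hev'
    rw [initList_eq, haltList_eq] at hn2
    have hn3 : (mstep tm.m)^[n'] ⟨tm.m tm.main, tm.initialState,
        Function.update (fun _ => []) tm.k₀ l⟩ =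
        ⟨.halt, tm.initialState, Function.update (fun _ => []) tm.k₁ [o (V (y, x))]⟩ := hn2
    have hle : n' ≤ t := by
      refine le_trans (hn'.trans ?_) ht
      simp only [eval_mul, eval_C, eval_comp, eval_add, eval_X, eval_one]
      rw [Nat.mul_comm]
      refine Nat.mul_le_mul_left _ (hst.trans ?_)
      refine poly_mono time ?_
      rw [hlenEnc]; omega
    obtain ⟨r, rfl⟩ : ∃ r, t = r + n' := ⟨t - n', by omega⟩
    rw [Function.iterate_add_apply, hn3, mstep_halt] at hrun
    obtain ⟨-, -, h3⟩ := hrun
    have h4 := (h3 tm.k₁).2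
    simp only [Function.update_self] at h4
    rw [h4]
    unfold stackCode
    simp [cell]
  have hiff : (∃ S : ℕ → List ℕ, (∀ k, ∀ a ∈ S k, a < (toNM tm.m tm.k₀ U hU).g) ∧
        (∀ k, k < (toNM tm.m tm.k₀ U hU).κ → ∀ i, i < H →
          iniP (kcode tm.k₀) (cc (some false)) (cc (some true)) (cc none) x (P.eval x.length) k i
            (cell (S k) i)) ∧
        cell (((toNM tm.m tm.k₀ U hU).run
          (ccode tm.m ⟨⟨tm.m tm.main, hmain⟩, tm.initialState⟩, S) t).2 (kcode tm.k₁)) 0 = wf) ↔
      ∃ y : List Bool, y.length ≤ P.eval x.length ∧ V (y, x) = true := by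
    constructor
    · rintro ⟨S, -, hS2, hS3⟩
      obtain ⟨y, hy, hy2, hy3⟩ := (iniP_iff (κ := Fintype.card tm.K) (Fin.is_lt _) hH S).1 hS2
      refine ⟨y, hy, ?_⟩
      rw [key y S hy hy2 hy3, hwf] at hS3
      have h5 : scode U ⟨tm.k₁, o (V (y, x))⟩ = scode U ⟨tm.k₁, o true⟩ := by omega
      have h6 := scode_inj U (mem_symSet_out tm o _) (mem_symSet_out tm o _) h5
      have h7 : o (V (y, x)) = o true := eq_of_heq (Sigma.mk.inj_iff.1 h6).2
      exact outA.symm.injective h7
    · rintro ⟨y, hy, hyV⟩
      obtain ⟨S, hSa, hSb⟩ : ∃ S : ℕ → List ℕ, S (kcode tm.k₀) =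
          inCode (cc (some false)) (cc (some true)) (cc none) x y ∧
          ∀ k, k ≠ kcode tm.k₀ → S k = [] :=
        ⟨fun j => if j = kcode tm.k₀ then
          inCode (cc (some false)) (cc (some true)) (cc none) x y else [],
          by simp, fun k hk => by simp [hk]⟩
      refine ⟨S, ?_, ?_, ?_⟩
      · intro k a ha
        by_cases hk : k = kcode tm.k₀
        · rw [hk, hSa, ← hcode y] at ha
          unfold stackCode at ha
          rw [List.mem_reverse, List.mem_map] at ha
          obtain ⟨b, -, rfl⟩ := ha
          exact scode_lt U (mem_symSet_in tm o b)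
        · rw [hSb k hk] at ha
          exact absurd ha (by simp)
      · exact (iniP_iff (κ := Fintype.card tm.K) (k0 := kcode tm.k₀) (Fin.is_lt _) hH _).2
          ⟨y, hy, hSa, fun k _ hk => hSb k hk⟩
      · rw [key y S hy hSa (fun k _ hk => hSb k hk), hyV]
  rw [hLV, ← hiff]

end Pool.Agent.H75
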