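import Mathlib
import Pool.Agent.H75.Tableau
import Pool.Agent.H75.CapReduction

/-!
# Tables of numeric machines as cliques
-/

set_option autoImplicit false

namespace Pool.Agent.H75

/-- Constraints between two cells of the table. -/
def consT (M : NM) (t k i q w t' k' i' q' w' : ℕ) : Prop :=
  (t = t' → q = q') ∧
  (t = t' → k = k' → i' = i + 1 → rowOK w w') ∧
  (t' = t + 1 → k = M.stk q → isT w → q' = M.nx q (w / 2)) ∧
  (t' = t + 1 → k = M.stk q → i = 0 → w = 1 → q' = M.nx q 0) ∧
  (t' = t + 1 → k = k' → i = i' → cellOK (if k = M.stk q then M.op q else 0) i w w')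

/-- Constraints on a single cell of the table. -/
def validT (q₀ T kf wf : ℕ) (ini : ℕ → ℕ → ℕ → Prop) (t k i q w : ℕ) : Prop :=
  (i = 0 → w ≠ 0) ∧ (t = 0 → q = q₀ ∧ ini k i w) ∧ (t = T → k = kf → i = 0 → w = wf)

/-- The cells of the table. -/
def domT (M : NM) (H X t k i : ℕ) : Prop := k < M.κ ∧ i < H ∧ (t * M.κ + k) * H + i < X

/-- A correct table. -/
structure IsTable (M : NM) (q₀ T H X kf wf : ℕ) (ini : ℕ → ℕ → ℕ → Prop)
    (Q W : ℕ → ℕ → ℕ → ℕ) : Prop where
  q_lt : ∀ t k i, domT M H X t k i → Q t k i < M.s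
  w_lt : ∀ t k i, domT M H X t k i → W t k i < 2 * M.g + 2
  valid : ∀ t k i, domT M H X t k i → validT q₀ T kf wf ini t k i (Q t k i) (W t k i)
  cons : ∀ t k i t' k' i', domT M H X t k i → domT M H X t' k' i' →
    ¬ (t = t' ∧ k = k' ∧ i = i') →
    consT M t k i (Q t k i) (W t k i) t' k' i' (Q t' k' i') (W t' k' i')

theorem domT_of_le {M : NM} {T H X t k i : ℕ} (hX : (T + 1) * M.κ * H ≤ X) (ht : t ≤ T)
    (hk : k < M.κ) (hi : i < H) : domT M H X t k i := by
  refine ⟨hk, hi, ?_⟩
  have h1 : (t * M.κ + k + 1) * H ≤ ((t + 1) * M.κ) * H := by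
    refine Nat.mul_le_mul_right _ ?_
    have : (t + 1) * M.κ = t * M.κ + M.κ := by ring
    omega
  have h2 : ((t + 1) * M.κ) * H ≤ ((T + 1) * M.κ) * H :=
    Nat.mul_le_mul_right _ (Nat.mul_le_mul_right _ (by omega))
  have h3 : (t * M.κ + k + 1) * H = (t * M.κ + k) * H + H := by ring
  omega

theorem run_symbols {M : NM} {q₀ : ℕ} (hq : q₀ < M.s) {S : ℕ → List ℕ}
    (hS : ∀ k, ∀ a ∈ S k, a < M.g) (t : ℕ) :
    (M.run (q₀, S) t).1 < M.s ∧ ∀ k, ∀ a ∈ (M.run (q₀, S) t).2 k, a < M.g := by
  induction t with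
  | zero => exact ⟨hq, hS⟩
  | succ t ih =>
    rw [NM.run_succ]
    obtain ⟨h1, h2⟩ := ih
    set z := M.run (q₀, S) t
    have htop : topOf (z.2 (M.stk z.1)) ≤ M.g := by
      unfold topOf
      split_ifs with h3
      · omega
      · have h4 : (z.2 (M.stk z.1)).getLastD 0 ∈ z.2 (M.stk z.1) := by
          rw [List.getLastD_eq_getLast?, List.getLast?_eq_some_getLast h3]
          exact List.getLast_mem h3
        exact h2 _ _ h4
    refine ⟨M.nx_lt _ h1 _ htop, ?_⟩
    intro k a ha
    simp only [NM.step] at ha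
    by_cases hk : k = M.stk z.1
    · subst hk
      rw [Function.update_self] at ha
      unfold opOn at ha
      split_ifs at ha with h3 h4
      · exact h2 _ _ ha
      · exact h2 _ _ (List.dropLast_subset _ ha)
      · rw [List.mem_append, List.mem_singleton] at ha
        rcases ha with ha | ha
        · exact h2 _ _ ha
        · have := M.op_lt _ h1
          omega
    · rw [Function.update_of_ne hk] at ha
      exact h2 _ _ ha

theorem table_of_run {M : NM} {q₀ T H X kf wf : ℕ} {ini : ℕ → ℕ → ℕ → Prop} (hq : q₀ < M.s)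
    {S : ℕ → List ℕ} (hS : ∀ k, ∀ a ∈ S k, a < M.g)
    (hini : ∀ k, k < M.κ → ∀ i, i < H → ini k i (cell (S k) i))
    (hfin : cell ((M.run (q₀, S) T).2 kf) 0 = wf) :
    IsTable M q₀ T H X kf wf ini (fun t _ _ => (M.run (q₀, S) t).1)
      (fun t k i => cell ((M.run (q₀, S) t).2 k) i) where
  q_lt := fun t k i _ => (run_symbols hq hS t).1
  w_lt := fun t k i _ => cell_lt ((run_symbols hq hS t).2 k) i
  valid := by
    intro t k i hd
    refine ⟨?_, ?_, ?_⟩
    · rintro rfl; exact cell_zero_ne _
    · rintro rfl; exact ⟨rfl, hini k hd.1 i hd.2.1⟩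
    · rintro rfl rfl rfl; exact hfin
  cons := by
    intro t k i t' k' i' _ _ _
    refine ⟨?_, ?_, ?_, ?_, ?_⟩
    · rintro rfl; rfl
    · rintro rfl rfl rfl; exact cell_row _ _
    · rintro rfl rfl hT
      simp only [NM.run_succ, NM.step]
      rw [topOf_isT hT]
    · rintro rfl rfl rfl h1
      simp only [NM.run_succ, NM.step]
      rw [topOf_empty h1]
    · rintro rfl rfl rfl
      simp only [NM.run_succ, NM.step]
      by_cases hk : k = M.stk (M.run (q₀, S) t).1
      · rw [if_pos hk]
        rw [← hk, Function.update_self]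
        exact cell_op _ _ _
      · rw [if_neg hk, Function.update_of_ne hk]
        have := cell_op ((M.run (q₀, S) t).2 k) 0 i
        simpa [opOn] using this

theorem run_of_table {M : NM} {q₀ T H X kf wf h0 : ℕ} {ini : ℕ → ℕ → ℕ → Prop}
    (hkf : kf < M.κ) (hH : h0 + T + 1 < H) (hX : (T + 1) * M.κ * H ≤ X)
    (hini : ∀ k i w, k < M.κ → ini k i w → h0 ≤ i → w ≤ 1) {Q W : ℕ → ℕ → ℕ → ℕ}
    (h : IsTable M q₀ T H X kf wf ini Q W) :
    ∃ S : ℕ → List ℕ, (∀ k, ∀ a ∈ S k, a < M.g) ∧
      (∀ k, k < M.κ → ∀ i, i < H → ini k i (cell (S k) i)) ∧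
      cell ((M.run (q₀, S) T).2 kf) 0 = wf := by
  classical
  have hκ : 0 < M.κ := by omega
  have dom : ∀ t k i, t ≤ T → k < M.κ → i < H → domT M H X t k i :=
    fun t k i h1 h2 h3 => domT_of_le hX h1 h2 h3
  have hrow : ∀ t k, t ≤ T → k < M.κ → ∀ i, i + 1 < H → rowOK (W t k i) (W t k (i + 1)) := by
    intro t k ht hk i hi
    exact (h.cons t k i t k (i + 1) (dom t k i ht hk (by omega)) (dom t k (i + 1) ht hk hi)
      (by omega)).2.1 rfl rfl rfl
  have hQ : ∀ t k i, t ≤ T → k < M.κ → i < H → Q t k i = Q t 0 0 := by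
    intro t k i ht hk hi
    by_cases he : k = 0 ∧ i = 0
    · rw [he.1, he.2]
    · exact (h.cons t k i t 0 0 (dom t k i ht hk hi) (dom t 0 0 ht hκ (by omega))
        (by omega)).1 rfl
  -- the initial stacks
  have hst : ∀ k, k < M.κ → ∃ r : List ℕ, r.length ≤ h0 ∧ (∀ a ∈ r, a < M.g) ∧
      ∀ i, i < H → W 0 k i = cell r i := by
    intro k hk
    refine exists_stack (fun i => W 0 k i) ?_ (hrow 0 k (by omega) hk) (h := h0) (by omega) ?_ ?_
    · exact (h.valid 0 k 0 (dom 0 k 0 (by omega) hk (by omega))).1 rfl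
    · exact hini k h0 _ hk ((h.valid 0 k h0 (dom 0 k h0 (by omega) hk (by omega))).2.1 rfl).2
        le_rfl
    · exact fun i hi => h.w_lt 0 k i (dom 0 k i (by omega) hk hi)
  choose! r hr1 hr2 hr3 using hst
  set S : ℕ → List ℕ := fun k => if k < M.κ then r k else [] with hSdef
  have hSk : ∀ k, k < M.κ → S k = r k := fun k hk => by simp [hSdef, hk]
  refine ⟨S, ?_, ?_, ?_⟩
  · intro k a ha
    by_cases hk : k < M.κ
    · rw [hSk k hk] at ha; exact hr2 k hk a ha
    · simp [hSdef, hk] at ha
  · intro k hk i hi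
    rw [hSk k hk, ← hr3 k hk i hi]
    exact ((h.valid 0 k i (dom 0 k i (by omega) hk hi)).2.1 rfl).2
  · have main : ∀ t, t ≤ T → (M.run (q₀, S) t).1 = Q t 0 0 ∧
        ∀ k, k < M.κ → ((M.run (q₀, S) t).2 k).length ≤ h0 + t ∧
          ∀ i, i < H → W t k i = cell ((M.run (q₀, S) t).2 k) i := by
      intro t
      induction t with
      | zero =>
        intro _
        refine ⟨?_, fun k hk => ⟨?_, fun i hi => ?_⟩⟩
        · exact ((h.valid 0 0 0 (dom 0 0 0 (by omega) hκ (by omega))).2.1 rfl).1.symm
        · rw [NM.run_zero]; simp only; rw [hSk k hk]; exact (hr1 k hk).trans (by omega)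
        · rw [NM.run_zero]; simp only; rw [hSk k hk]; exact hr3 k hk i hi
      | succ t ih =>
        intro ht
        obtain ⟨ih1, ih2⟩ := ih (by omega)
        set z := M.run (q₀, S) t with hz
        have hzs : z.1 < M.s := by
          rw [ih1]; exact h.q_lt t 0 0 (dom t 0 0 (by omega) hκ (by omega))
        have hstk : M.stk z.1 < M.κ := M.stk_lt _ hzs
        obtain ⟨hlen, hcell⟩ := ih2 (M.stk z.1) hstk
        rw [NM.run_succ, ← hz]
        refine ⟨?_, ?_⟩
        · -- the state
          simp only [NM.step]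
          by_cases hnil : z.2 (M.stk z.1) = []
          · have h1 : W t (M.stk z.1) 0 = 1 := by
              rw [hcell 0 (by omega), hnil, cell_free (by simp)]
            have h2 := (h.cons t (M.stk z.1) 0 (t + 1) 0 0 (dom t _ 0 (by omega) hstk (by omega))
              (dom (t + 1) 0 0 ht hκ (by omega)) (by omega)).2.2.2.1 rfl
              (by rw [hQ t _ 0 (by omega) hstk (by omega), ← ih1]) rfl h1
            rw [h2, hQ t _ 0 (by omega) hstk (by omega), ← ih1, hnil]
            simp [topOf]
          · have hpos := List.length_pos_of_ne_nil hnil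
            set i := (z.2 (M.stk z.1)).length - 1 with hi
            have hiH : i < H := by omega
            have h1 : W t (M.stk z.1) i = 2 * (z.2 (M.stk z.1)).getD i 0 + 3 := by
              rw [hcell i hiH, cell_top (by omega)]
            have hT : isT (W t (M.stk z.1) i) := by
              rw [h1]; unfold isT; omega
            have h2 := (h.cons t (M.stk z.1) i (t + 1) 0 0 (dom t _ i (by omega) hstk hiH)
              (dom (t + 1) 0 0 ht hκ (by omega)) (by omega)).2.2.1 rfl
              (by rw [hQ t _ i (by omega) hstk hiH, ← ih1]) hT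
            rw [h2, hQ t _ i (by omega) hstk hiH, ← ih1]
            rw [hcell i hiH] at hT ⊢
            rw [topOf_isT hT]
        · intro k hk
          obtain ⟨hlenk, hcellk⟩ := ih2 k hk
          have hcons : ∀ i, i < H → cellOK (if k = M.stk z.1 then M.op z.1 else 0) i
              (cell (z.2 k) i) (W (t + 1) k i) := by
            intro i hi
            have h1 := (h.cons t k i (t + 1) k i (dom t k i (by omega) hk hi)
              (dom (t + 1) k i ht hk hi) (by omega)).2.2.2.2 rfl rfl rfl
            rw [hQ t k i (by omega) hk hi, ← ih1, hcellk i hi] at h1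
            exact h1
          have hnext := next_row (H := H) (fun i => W (t + 1) k i) (z.2 k)
            (if k = M.stk z.1 then M.op z.1 else 0) (hrow (t + 1) k ht hk) (by omega) hcons
          have hzk : (M.step z).2 k = opOn (if k = M.stk z.1 then M.op z.1 else 0) (z.2 k) := by
            simp only [NM.step]
            by_cases hkk : k = M.stk z.1
            · rw [if_pos hkk, hkk, Function.update_self]
            · rw [if_neg hkk, Function.update_of_ne hkk]; simp [opOn]
          rw [hzk]
          refine ⟨?_, hnext⟩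
          unfold opOn
          split_ifs
          · omega
          · rw [List.length_dropLast]; omega
          · rw [List.length_append, List.length_singleton]; omega
          · omega
          · omega
          · omega
    obtain ⟨-, h2⟩ := main T le_rfl
    rw [← (h2 kf hkf).2 0 (by omega)]
    exact (h.valid T kf 0 (dom T kf 0 le_rfl hkf (by omega))).2.2 rfl rfl rfl

end Pool.Agent.H75
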