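import Mathlib
import Pool.Agent.H75.TableCSP

/-!
# The clique problem of a table
-/

set_option autoImplicit false

namespace Pool.Agent.H75

/-- Number of values of a cell variable. -/
def NM.vd (M : NM) : ℕ := M.s * (2 * M.g + 2)

/-- Code of a cell with its value. -/
def encV (M : NM) (H t k i q w : ℕ) : ℕ :=
  ((t * M.κ + k) * H + i) * M.vd + (q * (2 * M.g + 2) + w)

/-- Decoding. -/
def tOf (M : NM) (H a : ℕ) : ℕ := a / M.vd / H / M.κ
def kOf (M : NM) (H a : ℕ) : ℕ := a / M.vd / H % M.κ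
def iOf (M : NM) (H a : ℕ) : ℕ := a / M.vd % H
def qOf (M : NM) (a : ℕ) : ℕ := a % M.vd / (2 * M.g + 2)
def wOf (M : NM) (a : ℕ) : ℕ := a % M.vd % (2 * M.g + 2)

section decode

variable {M : NM} {H t k i q w : ℕ}

theorem val_lt (hq : q < M.s) (hw : w < 2 * M.g + 2) : q * (2 * M.g + 2) + w < M.vd := by
  unfold NM.vd
  calc q * (2 * M.g + 2) + w < q * (2 * M.g + 2) + (2 * M.g + 2) := by omega
    _ = (q + 1) * (2 * M.g + 2) := by ring
    _ ≤ _ := Nat.mul_le_mul_right _ hq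

theorem mul_add_div' {a b c : ℕ} (h : b < c) : (a * c + b) / c = a := by
  rw [Nat.add_comm, Nat.add_mul_div_right _ _ (by omega), Nat.div_eq_of_lt h, Nat.zero_add]

theorem mul_add_mod' {a b c : ℕ} (h : b < c) : (a * c + b) % c = b := by
  rw [Nat.add_comm, Nat.add_mul_mod_self_right, Nat.mod_eq_of_lt h]

theorem encV_div (hq : q < M.s) (hw : w < 2 * M.g + 2) :
    encV M H t k i q w / M.vd = (t * M.κ + k) * H + i := mul_add_div' (val_lt hq hw)

theorem encV_mod (hq : q < M.s) (hw : w < 2 * M.g + 2) :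
    encV M H t k i q w % M.vd = q * (2 * M.g + 2) + w := mul_add_mod' (val_lt hq hw)

theorem tOf_encV (hk : k < M.κ) (hi : i < H) (hq : q < M.s) (hw : w < 2 * M.g + 2) :
    tOf M H (encV M H t k i q w) = t := by
  unfold tOf
  rw [encV_div hq hw, mul_add_div' hi, mul_add_div' hk]

theorem kOf_encV (hk : k < M.κ) (hi : i < H) (hq : q < M.s) (hw : w < 2 * M.g + 2) :
    kOf M H (encV M H t k i q w) = k := by
  unfold kOf
  rw [encV_div hq hw, mul_add_div' hi, mul_add_mod' hk]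

theorem iOf_encV (hi : i < H) (hq : q < M.s) (hw : w < 2 * M.g + 2) :
    iOf M H (encV M H t k i q w) = i := by
  unfold iOf
  rw [encV_div hq hw, mul_add_mod' hi]

theorem qOf_encV (hq : q < M.s) (hw : w < 2 * M.g + 2) : qOf M (encV M H t k i q w) = q := by
  unfold qOf
  rw [encV_mod hq hw, mul_add_div' hw]

theorem wOf_encV (hq : q < M.s) (hw : w < 2 * M.g + 2) : wOf M (encV M H t k i q w) = w := by
  unfold wOf
  rw [encV_mod hq hw, mul_add_mod' hw]

theorem idx_decode (a : ℕ) :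
    (tOf M H a * M.κ + kOf M H a) * H + iOf M H a = a / M.vd := by
  unfold tOf kOf iOf
  rw [Nat.mul_comm (a / M.vd / H / M.κ), Nat.div_add_mod, Nat.mul_comm, Nat.div_add_mod]

theorem encV_decode (a : ℕ) :
    encV M H (tOf M H a) (kOf M H a) (iOf M H a) (qOf M a) (wOf M a) = a := by
  unfold encV
  rw [idx_decode]
  unfold qOf wOf
  rw [Nat.mul_comm (a % M.vd / (2 * M.g + 2)), Nat.div_add_mod, Nat.mul_comm, Nat.div_add_mod]

end decode

open Classical in
/-- Adjacency of two cell values, on components. -/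
noncomputable def adjC (M : NM) (q₀ T kf wf : ℕ) (ini : ℕ → ℕ → ℕ → Prop)
    (t k i q w t' k' i' q' w' : ℕ) : Bool :=
  decide (¬ (t = t' ∧ k = k' ∧ i = i') ∧ validT q₀ T kf wf ini t k i q w ∧
    validT q₀ T kf wf ini t' k' i' q' w' ∧ consT M t k i q w t' k' i' q' w' ∧
    consT M t' k' i' q' w' t k i q w)

/-- Adjacency of two cell values. -/
noncomputable def adjV (M : NM) (q₀ T H kf wf : ℕ) (ini : ℕ → ℕ → ℕ → Prop) (a b : ℕ) : Bool :=
  adjC M q₀ T kf wf ini (tOf M H a) (kOf M H a) (iOf M H a) (qOf M a) (wOf M a)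
    (tOf M H b) (kOf M H b) (iOf M H b) (qOf M b) (wOf M b)

theorem adjV_symm {M : NM} {q₀ T H kf wf : ℕ} {ini : ℕ → ℕ → ℕ → Prop} (a b : ℕ) :
    adjV M q₀ T H kf wf ini a b = adjV M q₀ T H kf wf ini b a := by
  unfold adjV adjC
  rw [decide_eq_decide]
  constructor
  · rintro ⟨h1, h2, h3, h4, h5⟩
    exact ⟨fun h => h1 ⟨h.1.symm, h.2.1.symm, h.2.2.symm⟩, h3, h2, h5, h4⟩
  · rintro ⟨h1, h2, h3, h4, h5⟩
    exact ⟨fun h => h1 ⟨h.1.symm, h.2.1.symm, h.2.2.symm⟩, h3, h2, h5, h4⟩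

theorem adjV_irrefl {M : NM} {q₀ T H kf wf : ℕ} {ini : ℕ → ℕ → ℕ → Prop} (a : ℕ) :
    adjV M q₀ T H kf wf ini a a = false := by
  unfold adjV adjC
  rw [decide_eq_false_iff_not]
  rintro ⟨h1, -⟩
  exact h1 ⟨rfl, rfl, rfl⟩

theorem table_of_clique {M : NM} {q₀ T H X kf wf : ℕ} {ini : ℕ → ℕ → ℕ → Prop} (hX : 2 ≤ X)
    (hH : 0 < H) (h : HasClique (X * M.vd) (adjV M q₀ T H kf wf ini) X) :
    ∃ Q W, IsTable M q₀ T H X kf wf ini Q W := by
  classical
  obtain ⟨s, hs, hlt, hadj⟩ := h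
  have hvd : 0 < M.vd := by
    by_contra hcon
    have h0 : M.vd = 0 := by omega
    have : s.Nonempty := Finset.card_pos.1 (by omega)
    obtain ⟨a, ha⟩ := this
    have := hlt a ha
    rw [h0] at this
    simp at this
  have hadj' : ∀ a ∈ s, ∀ b ∈ s, a ≠ b →
      ¬ (tOf M H a = tOf M H b ∧ kOf M H a = kOf M H b ∧ iOf M H a = iOf M H b) ∧
      validT q₀ T kf wf ini (tOf M H a) (kOf M H a) (iOf M H a) (qOf M a) (wOf M a) ∧
      validT q₀ T kf wf ini (tOf M H b) (kOf M H b) (iOf M H b) (qOf M b) (wOf M b) ∧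
      consT M (tOf M H a) (kOf M H a) (iOf M H a) (qOf M a) (wOf M a)
        (tOf M H b) (kOf M H b) (iOf M H b) (qOf M b) (wOf M b) ∧
      consT M (tOf M H b) (kOf M H b) (iOf M H b) (qOf M b) (wOf M b)
        (tOf M H a) (kOf M H a) (iOf M H a) (qOf M a) (wOf M a) := by
    intro a ha b hb hab
    have := hadj a ha b hb hab
    unfold adjV adjC at this
    exact of_decide_eq_true this
  have hinj : Set.InjOn (fun a => a / M.vd) (s : Set ℕ) := by
    intro a ha b hb hab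
    by_contra hne
    refine (hadj' a ha b hb hne).1 ?_
    simp only at hab
    unfold tOf kOf iOf
    rw [hab]
    exact ⟨rfl, rfl, rfl⟩
  have himg : s.image (fun a => a / M.vd) = Finset.range X := by
    refine Finset.eq_of_subset_of_card_le ?_ ?_
    · intro x hx
      rw [Finset.mem_image] at hx
      obtain ⟨a, ha, rfl⟩ := hx
      rw [Finset.mem_range, Nat.div_lt_iff_lt_mul hvd]
      exact hlt a ha
    · rw [Finset.card_image_of_injOn hinj, hs, Finset.card_range]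
  have hsurj : ∀ x, x < X → ∃ a, a ∈ s ∧ a / M.vd = x := by
    intro x hx
    have : x ∈ s.image (fun a => a / M.vd) := by rw [himg, Finset.mem_range]; exact hx
    rw [Finset.mem_image] at this
    obtain ⟨a, ha, hax⟩ := this
    exact ⟨a, ha, hax⟩
  choose! f hf hfx using hsurj
  have dec : ∀ t k i, domT M H X t k i → tOf M H (f ((t * M.κ + k) * H + i)) = t ∧
      kOf M H (f ((t * M.κ + k) * H + i)) = k ∧ iOf M H (f ((t * M.κ + k) * H + i)) = i := by
    intro t k i ⟨h1, h2, h3⟩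
    unfold tOf kOf iOf
    rw [hfx _ h3, mul_add_div' h2, mul_add_div' h1, mul_add_mod' h1, mul_add_mod' h2]
    exact ⟨rfl, rfl, rfl⟩
  refine ⟨fun t k i => qOf M (f ((t * M.κ + k) * H + i)),
    fun t k i => wOf M (f ((t * M.κ + k) * H + i)), ?_, ?_, ?_, ?_⟩
  · intro t k i hd
    unfold qOf
    rw [Nat.div_lt_iff_lt_mul (by omega)]
    exact Nat.mod_lt _ hvd
  · intro t k i hd
    exact Nat.mod_lt _ (by omega)
  · intro t k i hd
    obtain ⟨d1, d2, d3⟩ := dec t k i hd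
    -- another element of the clique
    have hex : ∃ b ∈ s, b ≠ f ((t * M.κ + k) * H + i) := by
      have h2 : 1 < s.card := by omega
      exact Finset.exists_mem_ne h2 _
    obtain ⟨b, hb, hbne⟩ := hex
    have := (hadj' _ (hf _ hd.2.2) b hb (Ne.symm hbne)).2.1
    rwa [d1, d2, d3] at this
  · intro t k i t' k' i' hd hd' hne
    obtain ⟨d1, d2, d3⟩ := dec t k i hd
    obtain ⟨d1', d2', d3'⟩ := dec t' k' i' hd'
    have hfne : f ((t * M.κ + k) * H + i) ≠ f ((t' * M.κ + k') * H + i') := by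
      intro hh
      apply hne
      rw [hh] at d1 d2 d3
      exact ⟨d1.symm.trans d1', d2.symm.trans d2', d3.symm.trans d3'⟩
    have := (hadj' _ (hf _ hd.2.2) _ (hf _ hd'.2.2) hfne).2.2.2.1
    rwa [d1, d2, d3, d1', d2', d3'] at this

theorem clique_of_table {M : NM} {q₀ T H X kf wf : ℕ} {ini : ℕ → ℕ → ℕ → Prop}
    (hH : 0 < H) (hκ : 0 < M.κ) {Q W : ℕ → ℕ → ℕ → ℕ} (h : IsTable M q₀ T H X kf wf ini Q W) :
    HasClique (X * M.vd) (adjV M q₀ T H kf wf ini) X := by
  classical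
  -- the vertex of a variable
  let tt : ℕ → ℕ := fun x => x / H / M.κ
  let kk : ℕ → ℕ := fun x => x / H % M.κ
  let ii : ℕ → ℕ := fun x => x % H
  have hidx : ∀ x, (tt x * M.κ + kk x) * H + ii x = x := by
    intro x
    simp only [tt, kk, ii]
    rw [Nat.mul_comm (x / H / M.κ), Nat.div_add_mod, Nat.mul_comm, Nat.div_add_mod]
  have hdom : ∀ x, x < X → domT M H X (tt x) (kk x) (ii x) := by
    intro x hx
    refine ⟨Nat.mod_lt _ hκ, Nat.mod_lt _ hH, ?_⟩
    rw [hidx]; exact hx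
  let F : ℕ → ℕ := fun x => encV M H (tt x) (kk x) (ii x) (Q (tt x) (kk x) (ii x))
    (W (tt x) (kk x) (ii x))
  have hFdiv : ∀ x, x < X → F x / M.vd = x := by
    intro x hx
    simp only [F]
    rw [encV_div (h.q_lt _ _ _ (hdom x hx)) (h.w_lt _ _ _ (hdom x hx)), hidx]
  have hFinj : Set.InjOn F (Finset.range X : Set ℕ) := by
    intro x hx y hy hxy
    rw [Finset.mem_coe, Finset.mem_range] at hx hy
    rw [← hFdiv x hx, ← hFdiv y hy, hxy]
  refine ⟨(Finset.range X).image F, ?_, ?_, ?_⟩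
  · rw [Finset.card_image_of_injOn hFinj, Finset.card_range]
  · intro a ha
    rw [Finset.mem_image] at ha
    obtain ⟨x, hx, rfl⟩ := ha
    rw [Finset.mem_range] at hx
    have h1 := h.q_lt _ _ _ (hdom x hx)
    have h2 := h.w_lt _ _ _ (hdom x hx)
    have hvd : 0 < M.vd := by
      have := val_lt h1 h2; omega
    rw [← Nat.div_lt_iff_lt_mul hvd, hFdiv x hx]
    exact hx
  · intro a ha b hb hab
    rw [Finset.mem_image] at ha hb
    obtain ⟨x, hx, rfl⟩ := ha
    obtain ⟨y, hy, rfl⟩ := hb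
    rw [Finset.mem_range] at hx hy
    have hxy : x ≠ y := fun hh => hab (by rw [hh])
    have hdx := hdom x hx
    have hdy := hdom y hy
    have qx := h.q_lt _ _ _ hdx
    have wx := h.w_lt _ _ _ hdx
    have qy := h.q_lt _ _ _ hdy
    have wy := h.w_lt _ _ _ hdy
    unfold adjV
    simp only [F]
    rw [tOf_encV hdx.1 hdx.2.1 qx wx, kOf_encV hdx.1 hdx.2.1 qx wx, iOf_encV hdx.2.1 qx wx,
      qOf_encV qx wx, wOf_encV qx wx, tOf_encV hdy.1 hdy.2.1 qy wy, kOf_encV hdy.1 hdy.2.1 qy wy,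
      iOf_encV hdy.2.1 qy wy, qOf_encV qy wy, wOf_encV qy wy]
    unfold adjC
    have hne : ¬ (tt x = tt y ∧ kk x = kk y ∧ ii x = ii y) := by
      rintro ⟨h1, h2, h3⟩
      apply hxy
      rw [← hidx x, ← hidx y, h1, h2, h3]
    exact decide_eq_true ⟨hne, h.valid _ _ _ hdx, h.valid _ _ _ hdy,
      h.cons _ _ _ _ _ _ hdx hdy hne,
      h.cons _ _ _ _ _ _ hdy hdx (fun hh => hne ⟨hh.1.symm, hh.2.1.symm, hh.2.2.symm⟩)⟩

/-- The table theorem: there is a clique with one value for each cell exactly when some allowed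
initial stacks lead to the prescribed final cell. -/
theorem clique_iff_run {M : NM} {q₀ T H X kf wf h0 : ℕ} {ini : ℕ → ℕ → ℕ → Prop}
    (hq : q₀ < M.s) (hkf : kf < M.κ) (hH : h0 + T + 1 < H) (hX : (T + 1) * M.κ * H ≤ X)
    (hini : ∀ k i w, k < M.κ → ini k i w → h0 ≤ i → w ≤ 1) :
    HasClique (X * M.vd) (adjV M q₀ T H kf wf ini) X ↔
      ∃ S : ℕ → List ℕ, (∀ k, ∀ a ∈ S k, a < M.g) ∧
        (∀ k, k < M.κ → ∀ i, i < H → ini k i (cell (S k) i)) ∧
        cell ((M.run (q₀, S) T).2 kf) 0 = wf := by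
  have hκ : 0 < M.κ := by omega
  have hX2 : 2 ≤ X := by
    have h1 : 1 * 1 * H ≤ (T + 1) * M.κ * H :=
      Nat.mul_le_mul_right _ (Nat.mul_le_mul (by omega) hκ)
    omega
  constructor
  · intro h
    obtain ⟨Q, W, hT⟩ := table_of_clique hX2 (by omega) h
    exact run_of_table hkf hH hX hini hT
  · rintro ⟨S, h1, h2, h3⟩
    exact clique_of_table (by omega) hκ (table_of_run hq h1 h2 h3)

end Pool.Agent.H75
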