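import Mathlib
import Pool.Agent.H75.ExLib2
import Pool.Agent.H75.NPForm
import Pool.Agent.H75.TableClique

/-!
# The adjacency of table cells is tested by expressions
-/

set_option autoImplicit false

namespace Pool.Agent.H75

theorem IsEx.ite' {P : List Bool → (ℕ → ℕ) → Prop} [∀ x ρ, Decidable (P x ρ)]
    {F G : List Bool → (ℕ → ℕ) → ℕ} (hP : IsB P) (hF : IsEx F) (hG : IsEx G) :
    IsEx fun x ρ => if P x ρ then F x ρ else G x ρ :=
  (IsEx.ite hP hF hG).congr fun x ρ => by congr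

theorem IsPr.ite' {A : Type} {P : List Bool → (ℕ → ℕ) → Prop} [∀ x ρ, Decidable (P x ρ)]
    {O U : List Bool → (ℕ → ℕ) → List A} (hP : IsB P) (hO : IsPr O) (hU : IsPr U) :
    IsPr fun x ρ => if P x ρ then O x ρ else U x ρ :=
  (IsPr.ite hP hO hU).congr fun x ρ => by congr

section

variable {t k i q w t' k' i' q' w' : List Bool → (ℕ → ℕ) → ℕ} {pn T : List Bool → ℕ}

theorem isB_inP (c0 c1 cs : ℕ) (hi : IsEx i) (hw : IsEx w) (hpn : IsEx fun x _ => pn x) :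
    IsB fun x ρ => inP c0 c1 cs x (pn x) (i x ρ) (w x ρ) := by
  have h1 : IsB fun x ρ => i x ρ < x.length →
      w x ρ = 2 * (if x[x.length - 1 - i x ρ]? = some true then c1 else c0) + 2 :=
    (hi.lt isEx_len).imp (hw.eq (((isEx_const 2).mul (IsEx.ite'
      (((isEx_len.sub (isEx_const 1)).sub hi).bit) (isEx_const c1) (isEx_const c0))).add
      (isEx_const 2)))
  have h2 : IsB fun x ρ => i x ρ = x.length → w x ρ = 2 * cs + 2 ∨ w x ρ = 2 * cs + 3 :=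
    (hi.eq isEx_len).imp ((hw.eq (isEx_const _)).or (hw.eq (isEx_const _)))
  have h3 : IsB fun x ρ => x.length < i x ρ →
      w x ρ ≤ 1 ∨ w x ρ / 2 - 1 = c0 ∨ w x ρ / 2 - 1 = c1 :=
    (isEx_len.lt hi).imp ((hw.le (isEx_const 1)).or
      ((((hw.div 2).sub (isEx_const 1)).eq (isEx_const c0)).or
        (((hw.div 2).sub (isEx_const 1)).eq (isEx_const c1))))
  have h4 : IsB fun x ρ => x.length + pn x < i x ρ → w x ρ ≤ 1 :=
    ((isEx_len.add hpn).lt hi).imp (hw.le (isEx_const 1))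
  refine (h1.and (h2.and (h3.and h4))).congr fun x ρ => ?_
  unfold inP
  refine and_congr ?_ Iff.rfl
  constructor
  · intro h j hj
    have e : x.length - 1 - i x ρ = j := by omega
    rw [h (by omega), e]
  · intro h hlt
    rw [h (x.length - 1 - i x ρ) (by omega)]

theorem isB_iniP (k0 c0 c1 cs : ℕ) (hk : IsEx k) (hi : IsEx i) (hw : IsEx w)
    (hpn : IsEx fun x _ => pn x) :
    IsB fun x ρ => iniP k0 c0 c1 cs x (pn x) (k x ρ) (i x ρ) (w x ρ) :=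
  ((hk.eq (isEx_const k0)).not.imp
    (((hi.eq (isEx_const 0)).imp (hw.eq (isEx_const 1))).and
      ((hi.eq (isEx_const 0)).not.imp (hw.eq (isEx_const 0))))).and
    ((hk.eq (isEx_const k0)).imp (isB_inP c0 c1 cs hi hw hpn))

theorem isB_validT (q₀ kf wf k0 c0 c1 cs : ℕ) (ht : IsEx t) (hk : IsEx k) (hi : IsEx i)
    (hq : IsEx q) (hw : IsEx w) (hT : IsEx fun x _ => T x) (hpn : IsEx fun x _ => pn x) :
    IsB fun x ρ => validT q₀ (T x) kf wf (iniP k0 c0 c1 cs x (pn x))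
      (t x ρ) (k x ρ) (i x ρ) (q x ρ) (w x ρ) :=
  ((hi.eq (isEx_const 0)).imp (hw.eq (isEx_const 0)).not).and
    (((ht.eq (isEx_const 0)).imp ((hq.eq (isEx_const q₀)).and
      (isB_iniP k0 c0 c1 cs hk hi hw hpn))).and
      ((ht.eq hT).imp ((hk.eq (isEx_const kf)).imp ((hi.eq (isEx_const 0)).imp
        (hw.eq (isEx_const wf))))))

theorem isB_isL (hw : IsEx w) : IsB fun x ρ => isL (w x ρ) :=
  ((isEx_const 2).le hw).and ((hw.mod 2).eq (isEx_const 0))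

theorem isB_isT (hw : IsEx w) : IsB fun x ρ => isT (w x ρ) :=
  ((isEx_const 3).le hw).and ((hw.mod 2).eq (isEx_const 1))

theorem isB_rowOK (hw : IsEx w) (hw' : IsEx w') : IsB fun x ρ => rowOK (w x ρ) (w' x ρ) :=
  ((isB_isL hw).and ((isEx_const 2).le hw')).or
    (((isB_isT hw).and (hw'.eq (isEx_const 1))).or
      ((hw.le (isEx_const 1)).and (hw'.eq (isEx_const 0))))

theorem cellOK_iff {o i w w' : ℕ} :
    cellOK o i w w' ↔ (i = 0 → cellOK o 0 w w') ∧ (¬ i = 0 → cellOK o 1 w w') := by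
  unfold cellOK
  by_cases hi : i = 0
  · subst hi; simp
  · simp [hi]

/-- Bounds of the finite components of a pair of cells. -/
def bndC (M : NM) (k q w k' q' w' : ℕ) : Prop :=
  (k < M.κ ∧ q < M.s ∧ w < 2 * M.g + 2) ∧ (k' < M.κ ∧ q' < M.s ∧ w' < 2 * M.g + 2)

theorem isB_bndC (M : NM) (hk : IsEx k) (hq : IsEx q) (hw : IsEx w) (hk' : IsEx k')
    (hq' : IsEx q') (hw' : IsEx w') :
    IsB fun x ρ => bndC M (k x ρ) (q x ρ) (w x ρ) (k' x ρ) (q' x ρ) (w' x ρ) :=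
  ((hk.lt (isEx_const _)).and ((hq.lt (isEx_const _)).and (hw.lt (isEx_const _)))).and
    ((hk'.lt (isEx_const _)).and ((hq'.lt (isEx_const _)).and (hw'.lt (isEx_const _))))

theorem isB_consT (M : NM) (ht : IsEx t) (hk : IsEx k) (hi : IsEx i)
    (hq : IsEx q) (hw : IsEx w) (ht' : IsEx t') (hk' : IsEx k') (hi' : IsEx i')
    (hq' : IsEx q') (hw' : IsEx w') :
    IsB fun x ρ => bndC M (k x ρ) (q x ρ) (w x ρ) (k' x ρ) (q' x ρ) (w' x ρ) ∧
      consT M (t x ρ) (k x ρ) (i x ρ) (q x ρ) (w x ρ)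
        (t' x ρ) (k' x ρ) (i' x ρ) (q' x ρ) (w' x ρ) := by
  have h1 := (ht.eq ht').imp (hq.eq hq')
  have h2 := (ht.eq ht').imp ((hk.eq hk').imp ((hi'.eq (hi.add (isEx_const 1))).imp
    (isB_rowOK hw hw')))
  have h3 := (ht'.eq (ht.add (isEx_const 1))).imp (hk.tab4 hq hw hq' M.κ M.s (2 * M.g + 2) M.s
    fun k q w q' => k = M.stk q → isT w → q' = M.nx q (w / 2))
  have h4 := (ht'.eq (ht.add (isEx_const 1))).imp ((hi.eq (isEx_const 0)).imp
    (hk.tab4 hq hw hq' M.κ M.s (2 * M.g + 2) M.s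
      fun k q w q' => k = M.stk q → w = 1 → q' = M.nx q 0))
  have h5 := fun z => (hk.tab4 hq hw hw' M.κ M.s (2 * M.g + 2) (2 * M.g + 2)
      fun k q w w' => cellOK (if k = M.stk q then M.op q else 0) z w w')
  have h6 := (ht'.eq (ht.add (isEx_const 1))).imp ((hk.eq hk').imp ((hi.eq hi').imp
    (((hi.eq (isEx_const 0)).imp (h5 0)).and ((hi.eq (isEx_const 0)).not.imp (h5 1)))))
  refine ((isB_bndC M hk hq hw hk' hq' hw').and
    (h1.and (h2.and (h3.and (h4.and h6))))).congr fun x ρ => ?_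
  refine and_congr_right fun hb => ?_
  obtain ⟨⟨b1, b2, b3⟩, b4, b5, b6⟩ := hb
  unfold consT
  refine and_congr_right fun _ => and_congr_right fun _ => ?_
  refine and_congr ?_ (and_congr ?_ ?_)
  · exact ⟨fun h a b c => (h a).2.2.2.2 b c, fun h a => ⟨b1, b2, b3, b5, fun b c => h a b c⟩⟩
  · exact ⟨fun h a b c d => (h a c).2.2.2.2 b d, fun h a c => ⟨b1, b2, b3, b5, fun b d => h a b c d⟩⟩
  · rw [cellOK_iff (i := i x ρ)]
    exact ⟨fun h a b c => ⟨fun d => ((h a b c).1 d).2.2.2.2, fun d => ((h a b c).2 d).2.2.2.2⟩,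
      fun h a b c => ⟨fun d => ⟨b1, b2, b3, b6, (h a b c).1 d⟩,
        fun d => ⟨b1, b2, b3, b6, (h a b c).2 d⟩⟩⟩

theorem isB_adjC (M : NM) (q₀ kf wf k0 c0 c1 cs : ℕ) (ht : IsEx t) (hk : IsEx k) (hi : IsEx i)
    (hq : IsEx q) (hw : IsEx w) (ht' : IsEx t') (hk' : IsEx k') (hi' : IsEx i')
    (hq' : IsEx q') (hw' : IsEx w') (hT : IsEx fun x _ => T x) (hpn : IsEx fun x _ => pn x) :
    IsB fun x ρ => bndC M (k x ρ) (q x ρ) (w x ρ) (k' x ρ) (q' x ρ) (w' x ρ) ∧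
      adjC M q₀ (T x) kf wf (iniP k0 c0 c1 cs x (pn x)) (t x ρ) (k x ρ) (i x ρ) (q x ρ) (w x ρ)
        (t' x ρ) (k' x ρ) (i' x ρ) (q' x ρ) (w' x ρ) = true := by
  have h1 := ((ht.eq ht').and ((hk.eq hk').and (hi.eq hi'))).not
  have h2 := isB_validT q₀ kf wf k0 c0 c1 cs ht hk hi hq hw hT hpn
  have h3 := isB_validT q₀ kf wf k0 c0 c1 cs ht' hk' hi' hq' hw' hT hpn
  have h4 := isB_consT M ht hk hi hq hw ht' hk' hi' hq' hw'
  have h5 := isB_consT M ht' hk' hi' hq' hw' ht hk hi hq hw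
  refine (h4.and (h5.and (h1.and (h2.and h3)))).congr fun x ρ => ?_
  classical
  unfold adjC
  rw [decide_eq_true_iff]
  unfold bndC
  tauto

end

/-- Pairs of adjacent vertices, on components. -/
theorem gapMem_adjV {M : NM} {q₀ T H X kf wf : ℕ} {ini : ℕ → ℕ → ℕ → Prop} {p : ℕ → ℕ} {g : ℕ}
    (hκ : 0 < M.κ) (hs : 0 < M.s) (hH : 0 < H) :
    gapMem (X * M.vd) p (adjV M q₀ T H kf wf ini) g = true ↔
      ∃ t, t < X ∧ ∃ k, k < M.κ ∧ ∃ i, i < H ∧ ∃ q, q < M.s ∧ ∃ w, w < 2 * M.g + 2 ∧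
      ∃ t', t' < X ∧ ∃ k', k' < M.κ ∧ ∃ i', i' < H ∧ ∃ q', q' < M.s ∧ ∃ w', w' < 2 * M.g + 2 ∧
        ((t * M.κ + k) * H + i < X ∧ (t' * M.κ + k') * H + i' < X ∧
          (bndC M k q w k' q' w' ∧ adjC M q₀ T kf wf ini t k i q w t' k' i' q' w' = true) ∧
          p (encV M H t k i q w) + g = p (encV M H t' k' i' q' w')) := by
  have hvd : 0 < M.vd := by unfold NM.vd; positivity
  have dec : ∀ a, a < X * M.vd → tOf M H a < X ∧ kOf M H a < M.κ ∧ iOf M H a < H ∧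
      qOf M a < M.s ∧ wOf M a < 2 * M.g + 2 ∧
      (tOf M H a * M.κ + kOf M H a) * H + iOf M H a < X := by
    intro a ha
    have h1 : a / M.vd < X := by rwa [Nat.div_lt_iff_lt_mul hvd]
    have h2 : kOf M H a < M.κ := Nat.mod_lt _ hκ
    have h3 : iOf M H a < H := Nat.mod_lt _ hH
    refine ⟨?_, h2, h3, ?_, ?_, ?_⟩
    · exact lt_of_le_of_lt ((Nat.div_le_self _ _).trans (Nat.div_le_self _ _)) h1
    · unfold qOf
      rw [Nat.div_lt_iff_lt_mul (by omega)]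
      exact Nat.mod_lt _ hvd
    · exact Nat.mod_lt _ (by omega)
    · rw [idx_decode]; exact h1
  rw [gapMem_iff]
  constructor
  · rintro ⟨a, b, ha, hb, hab, hp⟩
    obtain ⟨a1, a2, a3, a4, a5, a6⟩ := dec a ha
    obtain ⟨b1, b2, b3, b4, b5, b6⟩ := dec b hb
    refine ⟨_, a1, _, a2, _, a3, _, a4, _, a5, _, b1, _, b2, _, b3, _, b4, _, b5, a6, b6,
      ⟨⟨⟨a2, a4, a5⟩, b2, b4, b5⟩, hab⟩, ?_⟩
    rw [encV_decode, encV_decode]; exact hp
  · rintro ⟨t, -, k, hk, i, hi, q, hq, w, hw, t', -, k', hk', i', hi', q', hq', w', hw', h1, h2,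
      ⟨-, h3⟩, h4⟩
    have enc : ∀ t k i q w, q < M.s → w < 2 * M.g + 2 → (t * M.κ + k) * H + i < X →
        encV M H t k i q w < X * M.vd := by
      intro t k i q w hq hw h
      rw [← Nat.div_lt_iff_lt_mul hvd, encV_div hq hw]; exact h
    refine ⟨_, _, enc t k i q w hq hw h1, enc t' k' i' q' w' hq' hw' h2, ?_, h4⟩
    unfold adjV
    rw [tOf_encV hk hi hq hw, kOf_encV hk hi hq hw, iOf_encV hi hq hw, qOf_encV hq hw,
      wOf_encV hq hw, tOf_encV hk' hi' hq' hw', kOf_encV hk' hi' hq' hw', iOf_encV hi' hq' hw',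
      qOf_encV hq' hw', wOf_encV hq' hw']
    exact h3

theorem isEx_posn {F G : List Bool → (ℕ → ℕ) → ℕ} (hF : IsEx F) (hG : IsEx G) :
    IsEx fun x ρ => posn (F x ρ) (G x ρ) :=
  (hG.add (hF.mul (hG.pow 2))).add ((hF.pow 2).mul (hG.pow 3))

theorem isEx_encV (M : NM) {H t k i q w : List Bool → (ℕ → ℕ) → ℕ} (hH : IsEx H) (ht : IsEx t)
    (hk : IsEx k) (hi : IsEx i) (hq : IsEx q) (hw : IsEx w) :
    IsEx fun x ρ => encV M (H x ρ) (t x ρ) (k x ρ) (i x ρ) (q x ρ) (w x ρ) :=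
  (((((ht.mul (isEx_const _)).add hk).mul hH).add hi).mul (isEx_const _)).add
    ((hq.mul (isEx_const _)).add hw)

/-- The test for forbidden gaps is given by an expression in the variable `0`. -/
theorem isB_gapMem (M : NM) (q₀ kf wf k0 c0 c1 cs : ℕ) {T H X Mb pn : List Bool → ℕ}
    (hκ : 0 < M.κ) (hs : 0 < M.s) (hHpos : ∀ x, 0 < H x)
    (hT : IsEx fun x _ => T x) (hH : IsEx fun x _ => H x) (hX : IsEx fun x _ => X x)
    (hMb : IsEx fun x _ => Mb x) (hpn : IsEx fun x _ => pn x) :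
    IsB fun x ρ => gapMem (X x * M.vd) (posn (Mb x)) (adjV M q₀ (T x) (H x) kf wf
      (iniP k0 c0 c1 cs x (pn x))) (ρ 0 + 1) = true := by
  have v : ∀ n, IsEx fun _ ρ => ρ n := isEx_var
  have hidx : IsB fun x ρ => (ρ 1 * M.κ + ρ 2) * H x + ρ 3 < X x :=
    (((((v 1).mul (isEx_const _)).add (v 2)).mul hH).add (v 3)).lt hX
  have hidx' : IsB fun x ρ => (ρ 6 * M.κ + ρ 7) * H x + ρ 8 < X x :=
    (((((v 6).mul (isEx_const _)).add (v 7)).mul hH).add (v 8)).lt hX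
  have hadj := isB_adjC M q₀ kf wf k0 c0 c1 cs (v 1) (v 2) (v 3) (v 4) (v 5) (v 6) (v 7) (v 8)
    (v 9) (v 10) hT hpn
  have hpos : IsB fun x ρ => posn (Mb x) (encV M (H x) (ρ 1) (ρ 2) (ρ 3) (ρ 4) (ρ 5)) +
      (ρ 0 + 1) = posn (Mb x) (encV M (H x) (ρ 6) (ρ 7) (ρ 8) (ρ 9) (ρ 10)) :=
    ((isEx_posn hMb (isEx_encV M hH (v 1) (v 2) (v 3) (v 4) (v 5))).add
      ((v 0).add (isEx_const 1))).eq (isEx_posn hMb (isEx_encV M hH (v 6) (v 7) (v 8) (v 9) (v 10)))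
  have hall := (hidx.and (hidx'.and (hadj.and hpos)))
  have h10 := IsB.exists_lt 10 (isEx_const (2 * M.g + 2)) hall
  have h9 := IsB.exists_lt 9 (isEx_const M.s) h10
  have h8 := IsB.exists_lt 8 hH h9
  have h7 := IsB.exists_lt 7 (isEx_const M.κ) h8
  have h6 := IsB.exists_lt 6 hX h7
  have h5 := IsB.exists_lt 5 (isEx_const (2 * M.g + 2)) h6
  have h4 := IsB.exists_lt 4 (isEx_const M.s) h5
  have h3 := IsB.exists_lt 3 hH h4
  have h2 := IsB.exists_lt 2 (isEx_const M.κ) h3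
  have h1 := IsB.exists_lt 1 hX h2
  refine h1.congr fun x ρ => ?_
  rw [gapMem_adjV hκ hs (hHpos x)]
  simp only [Function.update_self, ne_eq, not_false_eq_true, Function.update_of_ne,
    Nat.reduceEqDiff, zero_ne_one, OfNat.zero_ne_ofNat, OfNat.one_ne_ofNat]

end Pool.Agent.H75
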