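import Mathlib

/-!
# Instances of the capacity problem and their encoding
-/

set_option autoImplicit false

namespace Pool.Agent.H75

/-- The letters of the input alphabet: a separator, the letters of the patterns, and bits. -/
abbrev Letter := Option (SignType ⊕ Bool)

/-- A number is written as its binary digits followed by a separator. -/
def encNum (n : ℕ) : List Letter := n.bits.map (fun b => some (Sum.inr b)) ++ [none]

/-- A rational number is written as its sign, the absolute value of its numerator, and its
denominator. -/
def encRat (r : ℚ) : List Letter :=
  some (Sum.inl (SignType.sign r)) :: (encNum r.num.natAbs ++ encNum r.den)

/-- A pattern is written letter by letter and followed by a separator. -/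
def encWord (d : List SignType) : List Letter := d.map (fun s => some (Sum.inl s)) ++ [none]

/-- An instance: a finite non-empty list of distinct patterns and a rational number. -/
structure Inst where
  D : List (List SignType)
  r : ℚ
  ne_nil : D ≠ []
  nodup : D.Nodup

/-- An instance is written as its rational number followed by its patterns, word by word. -/
def encInst (z : Inst) : List Letter := encRat z.r ++ z.D.flatMap encWord

end Pool.Agent.H75
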