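import Mathlib
import Pool.Agent.H75.CapReduction

/-!
# The lower bound: block codes built from a clique
-/

set_option autoImplicit false

namespace Pool.Agent.H75

variable {N : ℕ} {p : ℕ → ℕ} {adj : ℕ → ℕ → Bool} {n L : ℕ}

/-- The block word: block number `c` is zero if `φ c = none`, and the unit vector at position
`p i` if `φ c = some i`. -/
def blockWord (s : Finset ℕ) (p : ℕ → ℕ) (P q : ℕ) (φ : Fin q → Option s) :
    Fin (q * P) → Bool := fun x =>
  match φ ⟨x / P, by
    have hP : 0 < P := Nat.pos_of_ne_zero (by rintro rfl; exact absurd x.2 (by simp))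
    exact (Nat.div_lt_iff_lt_mul hP).2 x.2⟩ with
  | none => false
  | some i => decide (p i = x % P)

theorem blockWord_true {s : Finset ℕ} {P q : ℕ} {φ : Fin q → Option s} {x : ℕ}
    (h : ext0 (blockWord s p P q φ) x = true) :
    ∃ (hx : x / P < q) (i : s), φ ⟨x / P, hx⟩ = some i ∧ p i = x % P := by
  unfold ext0 at h
  split_ifs at h with hlt
  have hP : 0 < P := Nat.pos_of_ne_zero (by rintro rfl; exact absurd hlt (by simp))
  have hx : x / P < q := (Nat.div_lt_iff_lt_mul hP).2 hlt
  refine ⟨hx, ?_⟩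
  unfold blockWord at h
  rcases hφ : φ ⟨x / P, hx⟩ with _ | i
  · simp only [hφ] at h
    exact absurd h (by simp)
  · refine ⟨i, rfl, ?_⟩
    simp only [hφ, decide_eq_true_eq] at h
    exact h

theorem blockWord_of {s : Finset ℕ} {P q : ℕ} {φ : Fin q → Option s} {c : ℕ} (hc : c < q)
    {i : s} (hφ : φ ⟨c, hc⟩ = some i) (hi : p i < P) :
    ext0 (blockWord s p P q φ) (c * P + p i) = true := by
  have hlt : c * P + p i < q * P := by
    calc c * P + p i < c * P + P := by omega
      _ = (c + 1) * P := by ring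
      _ ≤ q * P := Nat.mul_le_mul_right _ hc
  have hP : 0 < P := by omega
  unfold ext0
  rw [dif_pos hlt]
  unfold blockWord
  have hdiv : (c * P + p i) / P = c := by
    rw [Nat.add_comm, Nat.add_mul_div_right _ _ hP, Nat.div_eq_of_lt hi, Nat.zero_add]
  have hmod : (c * P + p i) % P = p i := by
    rw [Nat.add_comm, Nat.add_mul_mod_self_right, Nat.mod_eq_of_lt hi]
  simp only [hdiv, hφ, hmod, decide_true]

theorem blockWord_far {s : Finset ℕ} (hL : ∀ i ∈ s, p i < L) {q : ℕ}
    {φ ψ : Fin q → Option s} {x y : ℕ} (hxy : x < y)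
    (hx : ext0 (blockWord s p (n + L) q φ) x = true)
    (hy : ext0 (blockWord s p (n + L) q ψ) y = true) (hd : y - x ≤ n) :
    x / (n + L) = y / (n + L) := by
  obtain ⟨hx1, i, hi, hi2⟩ := blockWord_true hx
  obtain ⟨hy1, j, hj, hj2⟩ := blockWord_true hy
  have h1 := hL i i.2
  have h2 := Nat.div_add_mod x (n + L)
  have h3 := Nat.div_add_mod y (n + L)
  have h4 : x / (n + L) ≤ y / (n + L) := Nat.div_le_div_right hxy.le
  rcases Nat.eq_or_lt_of_le h4 with h5 | h5
  · exact h5
  · exfalso
    have h6 : (n + L) * (x / (n + L)) + (n + L) ≤ (n + L) * (y / (n + L)) := by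
      calc (n + L) * (x / (n + L)) + (n + L) = (n + L) * (x / (n + L) + 1) := by ring
        _ ≤ _ := Nat.mul_le_mul_left _ h5
    omega

theorem blockWord_injective {s : Finset ℕ} (hL : ∀ i ∈ s, p i < L)
    (hinj : ∀ i ∈ s, ∀ j ∈ s, p i = p j → i = j) (q : ℕ) :
    Function.Injective (blockWord s p (n + L) q) := by
  have key : ∀ φ ψ : Fin q → Option s, blockWord s p (n + L) q φ = blockWord s p (n + L) q ψ →
      ∀ c : Fin q, ∀ i, φ c = some i → ψ c = some i := by
    intro φ ψ h c i hi
    have hiL := hL i i.2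
    have h1 := blockWord_of (P := n + L) (p := p) (φ := φ) c.2 hi (by omega)
    rw [h] at h1
    obtain ⟨h2, j, hj, hj2⟩ := blockWord_true h1
    have hdiv : (c * (n + L) + p i) / (n + L) = c := by
      rw [Nat.add_comm, Nat.add_mul_div_right _ _ (by omega), Nat.div_eq_of_lt (by omega),
        Nat.zero_add]
    have hmod : (c * (n + L) + p i) % (n + L) = p i := by
      rw [Nat.add_comm, Nat.add_mul_mod_self_right, Nat.mod_eq_of_lt (by omega)]
    rw [hmod] at hj2
    have hij : (j : ℕ) = i := hinj j j.2 i i.2 hj2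
    have hij' : j = i := Subtype.ext hij
    rw [← hij', ← hj]
    congr 1
    exact Fin.ext hdiv.symm
  intro φ ψ h
  ext c i
  constructor
  · intro hi; exact key φ ψ h c i hi
  · intro hi; exact key ψ φ h.symm c i hi

theorem avoids_blockWord {s : Finset ℕ} (hL : ∀ i ∈ s, p i < L) (hN : ∀ i ∈ s, i < N)
    (hcl : ∀ i ∈ s, ∀ j ∈ s, i ≠ j → adj i j = true) (q : ℕ) :
    Avoids (patList N p adj n)
      (Finset.univ.image (blockWord s p (n + L) q) : Finset (Fin (q * (n + L)) → Bool)) := by
  classical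
  have F1 : ∀ (φ : Fin q → Option s) (x y : ℕ), x < y →
      ext0 (blockWord s p (n + L) q φ) x = true → ext0 (blockWord s p (n + L) q φ) y = true →
      n < y - x := by
    intro φ x y hxy hx hy
    by_contra hcon
    have h1 := blockWord_far hL hxy hx hy (by omega)
    obtain ⟨hx1, i, hi, hi2⟩ := blockWord_true hx
    obtain ⟨hy1, j, hj, hj2⟩ := blockWord_true hy
    have hij : i = j := by
      have : some i = some j := by
        rw [← hi, ← hj]; congr 1; exact Fin.ext h1
      exact Option.some.inj this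
    rw [hij] at hi2
    have h2 := Nat.div_add_mod x (n + L)
    have h3 := Nat.div_add_mod y (n + L)
    rw [h1] at h2
    omega
  intro u hu v hv huv d hd hdf
  rw [Finset.mem_image] at hu hv
  obtain ⟨φ, -, rfl⟩ := hu
  obtain ⟨ψ, -, rfl⟩ := hv
  rw [infix_iff_ext] at hdf
  obtain ⟨o, ho, H⟩ := hdf
  rcases mem_patList.1 hd with ⟨g, hg, rfl⟩ | ⟨g, hg, hg2, rfl⟩ | ⟨a, b, hab, rfl⟩
  · rw [wPP_length] at ho H
    have h0 := H 0 (by omega)
    have h1 := H (g + 1) (by omega)
    rw [wPP_getElem? _ _ (by omega)] at h0 h1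
    simp only [if_true, Option.some.injEq, one_eq_bitDiff, ite_self] at h0 h1
    have := F1 φ (o + 0) (o + (g + 1)) (by omega) h0.1 h1.1
    omega
  · rw [wPM_length] at ho H
    have h0 := H 0 (by omega)
    have h1 := H (g + 1) (by omega)
    rw [wPM_getElem? _ _ (by omega)] at h0 h1
    rw [if_neg (by omega)] at h1
    simp only [if_true, Option.some.injEq, one_eq_bitDiff, neg_eq_bitDiff] at h0 h1
    have h3 := blockWord_far hL (x := o + 0) (y := o + (g + 1)) (by omega) h0.1 h1.2 (by omega)
    obtain ⟨hx1, i, hi, hi2⟩ := blockWord_true h0.1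
    obtain ⟨hy1, j, hj, hj2⟩ := blockWord_true h1.2
    have h4 := Nat.div_add_mod (o + 0) (n + L)
    have h5 := Nat.div_add_mod (o + (g + 1)) (n + L)
    rw [h3, ← hi2] at h4
    rw [← hj2] at h5
    have hpij : p i + (g + 1) = p j := by omega
    have hij : (i : ℕ) ≠ j := by
      intro hh; rw [hh] at hpij; omega
    have : gapMem N p adj (g + 1) = true :=
      gapMem_iff.2 ⟨i, j, hN i i.2, hN j j.2, hcl i i.2 j j.2 hij, hpij⟩
    rw [this] at hg2
    exact absurd hg2 (by simp)
  · rw [wPMP_length] at ho H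
    have h0 := H 0 (by omega)
    have h1 := H (a + b + 2) (by omega)
    rw [wPMP_getElem? _ _ _ (by omega)] at h0 h1
    rw [if_neg (by omega), if_neg (by omega)] at h1
    simp only [if_true, Option.some.injEq, one_eq_bitDiff] at h0 h1
    have := F1 φ (o + 0) (o + (a + b + 2)) (by omega) h0.1 h1.1
    omega

theorem le_capacity {m : ℕ} (hL : ∀ i, i < N → p i < L) (hL0 : 0 < L)
    (hinj : ∀ i j, i < N → j < N → p i = p j → i = j) (h : HasClique N adj m) :
    Real.logb 2 (m + 1 : ℕ) / (n + L : ℕ) ≤ capacity (patList N p adj n) := by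
  classical
  obtain ⟨s, hs, hN, hcl⟩ := h
  refine le_capacity_of_pow_le (by omega) (by omega) fun q => ?_
  have h1 := card_le_codeSize (avoids_blockWord (n := n) (L := L) (fun i hi => hL i (hN i hi)) hN
    hcl q)
  rw [Finset.card_image_of_injective _ (blockWord_injective (fun i hi => hL i (hN i hi))
    (fun i hi j hj => hinj i j (hN i hi) (hN j hj)) q)] at h1
  have h2 : (Finset.univ : Finset (Fin q → Option s)).card = (m + 1) ^ q := by
    rw [Finset.card_univ]
    simp [hs]
  rwa [h2] at h1

end Pool.Agent.H75
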