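import Mathlib
import Pool.Agent.H75.CapLower

/-!
# The threshold theorem
-/

set_option autoImplicit false

namespace Pool.Agent.H75

theorem posn_strictMono {M : ℕ} : StrictMono (posn M) := by
  intro i j hij
  unfold posn
  have h1 : i ^ 2 ≤ j ^ 2 := Nat.pow_le_pow_left hij.le 2
  have h2 : i ^ 3 ≤ j ^ 3 := Nat.pow_le_pow_left hij.le 3
  have h3 : M * i ^ 2 ≤ M * j ^ 2 := Nat.mul_le_mul_left _ h1
  have h4 : M ^ 2 * i ^ 3 ≤ M ^ 2 * j ^ 3 := Nat.mul_le_mul_left _ h2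
  omega

theorem logb_two_pow_sub_one_le {j : ℕ} (hj : 1 ≤ j) :
    Real.logb 2 ((2 ^ j - 1 : ℕ) : ℝ) ≤ j - 1 / 2 ^ j := by
  have hpow : (1 : ℕ) < 2 ^ j := Nat.one_lt_two_pow (by omega)
  have hcast : ((2 ^ j - 1 : ℕ) : ℝ) = 2 ^ j - 1 := by
    rw [Nat.cast_sub hpow.le]; push_cast; ring
  rw [hcast]
  have ha : (0 : ℝ) < 2 ^ j := by positivity
  have ha1 : (1 : ℝ) < 2 ^ j := by exact_mod_cast hpow
  have hy : (0 : ℝ) < 1 - 1 / 2 ^ j := by
    have : (1 : ℝ) / 2 ^ j < 1 := by rw [div_lt_one ha]; exact ha1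
    linarith
  have heq : (2 : ℝ) ^ j - 1 = 2 ^ j * (1 - 1 / 2 ^ j) := by field_simp
  rw [heq, Real.logb_mul ha.ne' hy.ne', Real.logb_pow, Real.logb_self_eq_one (by norm_num), mul_one]
  have hlog : Real.log (1 - 1 / 2 ^ j) ≤ (1 - 1 / 2 ^ j) - 1 := Real.log_le_sub_one_of_pos hy
  have hl2 : 0 < Real.log 2 := Real.log_pos (by norm_num)
  have hl2' : Real.log 2 ≤ 1 := by
    have := Real.log_two_lt_d9; linarith
  have : Real.logb 2 (1 - 1 / 2 ^ j) ≤ -(1 / 2 ^ j) := by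
    unfold Real.logb
    rw [div_le_iff₀ hl2]
    have h3 : (0 : ℝ) < 1 / 2 ^ j := by positivity
    nlinarith
  linarith

/-- The threshold theorem: the capacity of the pattern list tells whether there is a clique of
size `2 ^ j - 1`, with an explicit gap. -/
theorem capacity_threshold {N M L j : ℕ} {adj : ℕ → ℕ → Bool}
    (hsymm : ∀ a b, adj a b = adj b a) (hirr : ∀ a, adj a a = false)
    (hM : 3 * N ^ 2 < M) (hL : L = posn M N) (hj : 2 ≤ j) (hN : 1 ≤ N) :
    (HasClique N adj (2 ^ j - 1) →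
      1 / ((L * 4 ^ j : ℕ) : ℝ) ≤ capacity (patList N (posn M) adj (j * (L * 4 ^ j) - L))) ∧
    (¬ HasClique N adj (2 ^ j - 1) →
      capacity (patList N (posn M) adj (j * (L * 4 ^ j) - L)) ≤
        1 / ((L * 4 ^ j : ℕ) : ℝ) - 1 / ((L * 16 ^ j : ℕ) : ℝ)) := by
  have hLpos : 0 < L := by
    rw [hL]
    have : posn M 0 < posn M N := posn_strictMono (by omega)
    omega
  have h4 : 1 ≤ 4 ^ j := Nat.one_le_pow _ _ (by norm_num)
  have hQ : L ≤ L * 4 ^ j := Nat.le_mul_of_pos_right _ h4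
  have hnL : j * (L * 4 ^ j) - L + L = j * (L * 4 ^ j) := by
    have : 1 * (L * 4 ^ j) ≤ j * (L * 4 ^ j) := Nat.mul_le_mul_right _ (by omega)
    omega
  have hn0 : j * (L * 4 ^ j) - L ≠ 0 := by
    have : 2 * (L * 4 ^ j) ≤ j * (L * 4 ^ j) := Nat.mul_le_mul_right _ (by omega)
    omega
  have hLr : (0 : ℝ) < L := by exact_mod_cast hLpos
  have hjr : (2 : ℝ) ≤ j := by exact_mod_cast hj
  constructor
  · intro h
    have h1 := le_capacity (n := j * (L * 4 ^ j) - L) (L := L) (p := posn M) (adj := adj)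
      (fun i hi => by rw [hL]; exact posn_strictMono hi) hLpos
      (fun a b _ _ hab => posn_strictMono.injective hab) h
    refine le_trans (le_of_eq ?_) h1
    rw [hnL, Nat.sub_add_cancel (Nat.one_le_two_pow)]
    push_cast
    rw [Real.logb_pow, Real.logb_self_eq_one (by norm_num), mul_one]
    field_simp
  · intro h
    have hm2 : 2 ≤ 2 ^ j - 1 := by
      have : 2 ^ 2 ≤ 2 ^ j := Nat.pow_le_pow_right (by norm_num) hj
      omega
    have h1 := capacity_le (p := posn M) hsymm hirr (tripleProp_posn hM) hn0 hm2 h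
    refine h1.trans ?_
    have h2 := logb_two_pow_sub_one_le (j := j) (by omega)
    have hncast : ((j * (L * 4 ^ j) - L : ℕ) : ℝ) = L * (j * 4 ^ j - 1) := by
      have : ((j * (L * 4 ^ j) - L : ℕ) : ℝ) + L = j * (L * 4 ^ j) := by exact_mod_cast hnL
      linarith
    rw [hncast]
    set a : ℝ := 2 ^ j with ha
    have ha4 : (4 : ℝ) ^ j = a ^ 2 := by
      rw [ha, ← pow_mul, mul_comm, pow_mul]; norm_num
    have ha16 : (16 : ℝ) ^ j = a ^ 4 := by
      rw [ha, ← pow_mul, mul_comm, pow_mul]; norm_num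
    have hapos : 0 < a := by positivity
    have haj : (j : ℝ) + 1 ≤ a := by
      rw [ha]; exact_mod_cast Nat.lt_two_pow_self
    have ha1 : (1 : ℝ) ≤ a := by linarith
    push_cast
    rw [ha4, ha16]
    have hden : 0 < (j : ℝ) * a ^ 2 - 1 := by nlinarith
    calc Real.logb 2 ((2 ^ j - 1 : ℕ) : ℝ) / (L * (j * a ^ 2 - 1))
        ≤ (j - 1 / a) / (L * (j * a ^ 2 - 1)) := by gcongr
      _ ≤ 1 / (L * a ^ 2) - 1 / (L * a ^ 4) := by
        have e : 1 / (L * a ^ 2) - 1 / (L * a ^ 4) = (a ^ 2 - 1) / (L * a ^ 4) := by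
          field_simp
        rw [e, div_le_div_iff₀ (by positivity) (by positivity)]
        have e2 : ((j : ℝ) - 1 / a) * (L * a ^ 4) = L * (j * a ^ 4 - a ^ 3) := by
          field_simp
        rw [e2]
        have e3 : (j : ℝ) * a ^ 4 - a ^ 3 ≤ (a ^ 2 - 1) * (j * a ^ 2 - 1) := by nlinarith
        nlinarith

end Pool.Agent.H75
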