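import Mathlib
import Pool.Agent.H75.AdjEx
import Pool.Agent.H75.CapThreshold
import Pool.Agent.H75.CapInst

/-!
# NP-hardness of the capacity of forbidden difference patterns
-/

set_option autoImplicit false

namespace Pool.Agent.H75

open Turing

/-! ### Printing -/

section printing

variable {K : List Bool → ℕ}

theorem isPr_encRat_inv (hK : IsEx fun x _ => K x) (hpos : ∀ x, 0 < K x) :
    IsPr fun x _ => encRat ((K x : ℚ)⁻¹) := by
  have h1 : IsPr (A := Letter) fun x _ =>
      [some (Sum.inl 1)] ++ ([some (Sum.inr true), none] ++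
        ((K x).bits.map (fun b => some (Sum.inr b)) ++ [none])) :=
    (isPr_emit _).append ((isPr_const _).append ((isPr_bits hK _).append (isPr_emit _)))
  refine h1.congr fun x _ => ?_
  have h0 := hpos x
  have hq : (0 : ℚ) < K x := by exact_mod_cast h0
  unfold encRat encNum
  rw [sign_pos (inv_pos.2 hq), Rat.inv_natCast_num_of_pos h0, Rat.inv_natCast_den_of_pos h0]
  simp

theorem encWord_wPP (g : ℕ) : encWord (wPP g) =
    [some (Sum.inl 1)] ++ (List.replicate g (some (Sum.inl 0)) ++ [some (Sum.inl 1), none]) := by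
  simp [encWord, wPP]

theorem encWord_wPM (g : ℕ) : encWord (wPM g) =
    [some (Sum.inl 1)] ++ (List.replicate g (some (Sum.inl 0)) ++ [some (Sum.inl (-1)), none]) := by
  simp [encWord, wPM]

theorem encWord_wPMP (a b : ℕ) : encWord (wPMP a b) =
    [some (Sum.inl 1)] ++ (List.replicate a (some (Sum.inl 0)) ++ ([some (Sum.inl (-1))] ++
      (List.replicate b (some (Sum.inl 0)) ++ [some (Sum.inl 1), none]))) := by
  simp [encWord, wPMP]

theorem flatMap_map_filter {α β γ : Type} (l : List α) (f : α → β) (p : α → Bool)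
    (g : β → List γ) :
    (((l.filter p).map f).flatMap g) = l.flatMap fun a => if p a = true then g (f a) else [] := by
  induction l with
  | nil => rfl
  | cons a l ih =>
    by_cases h : p a = true
    · rw [List.filter_cons_of_pos h, List.map_cons, List.flatMap_cons, List.flatMap_cons, ih,
        if_pos h]
    · rw [List.filter_cons_of_neg h, List.flatMap_cons, ih, if_neg h]
      rfl

theorem encPat_patList (N : ℕ) (p : ℕ → ℕ) (adj : ℕ → ℕ → Bool) (n : ℕ) :
    (patList N p adj n).flatMap encWord = ((List.range n).flatMap fun g => encWord (wPP g)) ++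
      (((List.range n).flatMap fun g =>
        if gapMem N p adj (g + 1) = true then [] else encWord (wPM g)) ++
      (List.range n).flatMap fun a => (List.range n).flatMap fun b =>
        if a + b + 1 < n then encWord (wPMP a b) else []) := by
  unfold patList
  rw [List.flatMap_append, List.flatMap_append]
  congr 1
  · rw [List.flatMap_map]
  congr 1
  · rw [flatMap_map_filter]
    refine List.flatMap_congr fun g _ => ?_
    by_cases h : gapMem N p adj (g + 1) = true
    · rw [if_pos h, h]; rfl
    · have h' : gapMem N p adj (g + 1) = false := by simpa using h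
      rw [if_neg h, h']; rfl
  · rw [List.flatMap_assoc]
    refine List.flatMap_congr fun a _ => ?_
    rw [flatMap_map_filter]
    refine List.flatMap_congr fun b _ => ?_
    by_cases h : a + b + 1 < n
    · rw [if_pos h, if_pos (by simpa using h)]
    · rw [if_neg h, if_neg (by simpa using h)]

theorem isPr_encPat {n : List Bool → ℕ} {N : List Bool → ℕ} {p : List Bool → ℕ → ℕ}
    {adj : List Bool → ℕ → ℕ → Bool} (hn : IsEx fun x _ => n x)
    (hadj : IsB fun x ρ => gapMem (N x) (p x) (adj x) (ρ 0 + 1) = true) :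
    IsPr fun x _ => (patList (N x) (p x) (adj x) (n x)).flatMap encWord := by
  have h1 := IsPr.flatMap 0 hn (O := fun _ ρ => encWord (wPP (ρ 0))) (by
    exact ((isPr_const _).append ((IsPr.replicate (isEx_var 0) _).append (isPr_const _))).congr
      fun _ _ => (encWord_wPP _).symm)
  have h2 := IsPr.flatMap 0 hn (O := fun x ρ =>
      if gapMem (N x) (p x) (adj x) (ρ 0 + 1) = true then [] else encWord (wPM (ρ 0))) (by
    refine IsPr.ite' hadj isPr_nil ?_
    exact ((isPr_const _).append ((IsPr.replicate (isEx_var 0) _).append (isPr_const _))).congr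
      fun _ _ => (encWord_wPM _).symm)
  have h3 := IsPr.flatMap 0 hn (IsPr.flatMap 1 hn (O := fun x ρ =>
      if ρ 0 + ρ 1 + 1 < n x then encWord (wPMP (ρ 0) (ρ 1)) else []) (by
    refine IsPr.ite' ((((isEx_var 0).add (isEx_var 1)).add (isEx_const 1)).lt hn) ?_ isPr_nil
    exact ((isPr_const _).append ((IsPr.replicate (isEx_var 0) _).append ((isPr_const _).append
      ((IsPr.replicate (isEx_var 1) _).append (isPr_const _))))).congr
      fun _ _ => (encWord_wPMP _ _).symm))
  refine (h1.append (h2.append h3)).congr fun x ρ => ?_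
  rw [encPat_patList]
  simp

end printing

/-! ### Properties of the pattern list -/

theorem patList_ne_nil {N : ℕ} {p : ℕ → ℕ} {adj : ℕ → ℕ → Bool} {n : ℕ} (hn : 0 < n) :
    patList N p adj n ≠ [] := by
  have : wPP 0 ∈ patList N p adj n := mem_patList.2 (Or.inl ⟨0, hn, rfl⟩)
  exact List.ne_nil_of_mem this

theorem wPP_inj {g g' : ℕ} (h : wPP g = wPP g') : g = g' := by
  have := congrArg List.length h
  rw [wPP_length, wPP_length] at this
  omega

theorem wPM_inj {g g' : ℕ} (h : wPM g = wPM g') : g = g' := by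
  have := congrArg List.length h
  rw [wPM_length, wPM_length] at this
  omega

theorem wPP_ne_wPM (g g' : ℕ) : wPP g ≠ wPM g' := by
  intro h
  have h1 := congrArg List.length h
  rw [wPP_length, wPM_length] at h1
  have h2 : g = g' := by omega
  subst h2
  have := congrArg (fun l => l[g + 1]?) h
  rw [wPP_getElem? g _ (by omega), wPM_getElem? g _ (by omega)] at this
  simp at this

theorem wPMP_getElem_mid (a b : ℕ) : (wPMP a b)[a + 1]? = some (-1) := by
  rw [wPMP_getElem? a b _ (by omega)]
  simp

theorem wPP_ne_wPMP (g a b : ℕ) : wPP g ≠ wPMP a b := by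
  intro h
  have h1 := congrArg List.length h
  rw [wPP_length, wPMP_length] at h1
  have := congrArg (fun l => l[a + 1]?) h
  rw [wPP_getElem? g _ (by omega), wPMP_getElem_mid] at this
  split_ifs at this <;> simp at this

theorem wPM_ne_wPMP (g a b : ℕ) : wPM g ≠ wPMP a b := by
  intro h
  have h1 := congrArg List.length h
  rw [wPM_length, wPMP_length] at h1
  have := congrArg (fun l => l[a + 1]?) h
  rw [wPM_getElem? g _ (by omega), wPMP_getElem_mid] at this
  rw [if_neg (by omega), if_neg (by omega)] at this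
  simp at this

theorem wPMP_inj {a b a' b' : ℕ} (h : wPMP a b = wPMP a' b') : a = a' ∧ b = b' := by
  have h1 := congrArg List.length h
  rw [wPMP_length, wPMP_length] at h1
  have h2 := congrArg (fun l => l[a + 1]?) h
  rw [wPMP_getElem_mid, wPMP_getElem? a' b' _ (by omega), if_neg (by omega)] at h2
  by_cases h3 : a + 1 = a' + 1
  · omega
  · rw [if_neg h3] at h2
    split_ifs at h2 <;> simp at h2

theorem patList_nodup (N : ℕ) (p : ℕ → ℕ) (adj : ℕ → ℕ → Bool) (n : ℕ) :
    (patList N p adj n).Nodup := by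
  unfold patList
  rw [List.nodup_append, List.nodup_append]
  refine ⟨List.nodup_range.map (fun _ _ => wPP_inj), ⟨(List.nodup_range.filter _).map
    (fun _ _ => wPM_inj), ?_, ?_⟩, ?_⟩
  · rw [List.nodup_flatMap]
    refine ⟨fun a _ => (List.nodup_range.filter _).map (fun _ _ h => (wPMP_inj h).2), ?_⟩
    refine List.Pairwise.imp ?_ List.nodup_range
    intro a a' hne
    simp only [Function.onFun]
    intro d hd hd'
    rw [List.mem_map] at hd hd'
    obtain ⟨b, -, rfl⟩ := hd
    obtain ⟨b', -, h⟩ := hd'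
    exact hne (wPMP_inj h).1.symm
  · intro d hd d' hd' hdd
    rw [List.mem_map] at hd
    rw [List.mem_flatMap] at hd'
    obtain ⟨g, -, rfl⟩ := hd
    obtain ⟨a, -, hd'⟩ := hd'
    rw [List.mem_map] at hd'
    obtain ⟨b, -, rfl⟩ := hd'
    exact wPM_ne_wPMP _ _ _ hdd
  · intro d hd d' hd' hdd
    rw [List.mem_map] at hd
    obtain ⟨g, -, rfl⟩ := hd
    rw [List.mem_append] at hd'
    rcases hd' with hd' | hd'
    · rw [List.mem_map] at hd'
      obtain ⟨g', -, rfl⟩ := hd'
      exact wPP_ne_wPM _ _ hdd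
    · rw [List.mem_flatMap] at hd'
      obtain ⟨a, -, hd'⟩ := hd'
      rw [List.mem_map] at hd'
      obtain ⟨b, -, rfl⟩ := hd'
      exact wPP_ne_wPMP _ _ _ hdd

/-! ### The main theorem, with parameters -/

theorem reduction {L : Set (List Bool)} (hL : InNP L) :
    ∃ (D : List Bool → List (List SignType)) (Q : List Bool → ℕ),
      (∀ x, D x ≠ [] ∧ (D x).Nodup) ∧ (∀ x, 2 ≤ Q x) ∧
      (IsPr fun x _ => (D x).flatMap encWord) ∧ (IsEx fun x _ => Q x) ∧
      (∀ x, x ∈ L → 1 / (Q x : ℝ) ≤ capacity (D x)) ∧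
      (∀ x, x ∉ L → capacity (D x) ≤ 1 / (Q x : ℝ) - 2 / (Q x : ℝ) ^ 2) := by
  obtain ⟨M, q₀, k0, kf, wf, c0, c1, cs, P, T, hq, hk0, hkf, hform⟩ := np_form hL
  let pn : List Bool → ℕ := fun x => P.eval x.length
  let tt : List Bool → ℕ := fun x => T.eval x.length
  let H : List Bool → ℕ := fun x => x.length + pn x + tt x + 3
  let X0 : List Bool → ℕ := fun x => (tt x + 1) * M.κ * H x
  let X : List Bool → ℕ := fun x => sumPow (X0 x)
  let j : List Bool → ℕ := fun x => numPow (X0 x)
  let Mb : List Bool → ℕ := fun x => 3 * (X x * M.vd) ^ 2 + 1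
  let Lp : List Bool → ℕ := fun x => posn (Mb x) (X x * M.vd)
  let Q : List Bool → ℕ := fun x => Lp x * (X x + 1) ^ 2
  let n : List Bool → ℕ := fun x => j x * Q x - Lp x
  let ini : List Bool → ℕ → ℕ → ℕ → Prop := fun x => iniP k0 c0 c1 cs x (pn x)
  let adj : List Bool → ℕ → ℕ → Bool := fun x => adjV M q₀ (tt x) (H x) kf wf (ini x)
  -- expressions
  have epn : IsEx fun x _ => pn x := isEx_poly P isEx_len
  have ett : IsEx fun x _ => tt x := isEx_poly T isEx_len
  have eH : IsEx fun x _ => H x := ((isEx_len.add epn).add ett).add (isEx_const 3)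
  have eX0 : IsEx fun x _ => X0 x := ((ett.add (isEx_const 1)).mul (isEx_const _)).mul eH
  have eX : IsEx fun x _ => X x := isEx_sumPow eX0
  have ej : IsEx fun x _ => j x := isEx_numPow eX0
  have eN : IsEx fun x _ => X x * M.vd := eX.mul (isEx_const _)
  have eMb : IsEx fun x _ => Mb x := ((isEx_const 3).mul (eN.pow 2)).add (isEx_const 1)
  have eL : IsEx fun x _ => Lp x := isEx_posn eMb eN
  have eQ : IsEx fun x _ => Q x := eL.mul ((eX.add (isEx_const 1)).pow 2)
  have en : IsEx fun x _ => n x := (ej.mul eQ).sub eL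
  have hκ : 0 < M.κ := by omega
  have hs : 0 < M.s := by omega
  have hvd : 0 < M.vd := by unfold NM.vd; positivity
  have eadj := isB_gapMem M q₀ kf wf k0 c0 c1 cs hκ hs (fun x => by simp only [H]; omega)
    ett eH eX eMb epn
  -- numbers
  have hX0 : ∀ x, 3 ≤ X0 x := by
    intro x
    have h1 : 1 * 1 * H x ≤ (tt x + 1) * M.κ * H x :=
      Nat.mul_le_mul_right _ (Nat.mul_le_mul (by omega) hκ)
    have h2 : 3 ≤ H x := by simp only [H]; omega
    simp only [X0]; omega
  have hinv := fun x => pow_inv (X0 x)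
  have hXj : ∀ x, X x + 1 = 2 ^ j x := fun x => (hinv x).1
  have hXX0 : ∀ x, X0 x ≤ X x := by
    intro x
    have h1 := (hinv x).1
    have h2 := (hinv x).2.1
    simp only [X]; omega
  have hj2 : ∀ x, 2 ≤ j x := by
    intro x
    by_contra hcon
    have h1 : 2 ^ j x ≤ 2 ^ 1 := Nat.pow_le_pow_right (by norm_num) (by omega)
    have h2 := hXj x
    have h3 := hXX0 x
    have h4 := hX0 x
    omega
  have hN1 : ∀ x, 1 ≤ X x * M.vd := by
    intro x
    have h3 := hXX0 x
    have h4 := hX0 x
    exact Nat.mul_pos (by omega) hvd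
  have hLp : ∀ x, 2 ≤ Lp x := by
    intro x
    have h1 := hN1 x
    simp only [Lp, posn]
    have h2 : 1 * 1 ≤ Mb x * (X x * M.vd) ^ 2 := Nat.mul_le_mul (by simp only [Mb]; omega)
      (Nat.one_le_pow _ _ h1)
    omega
  have h4j : ∀ x, (X x + 1) ^ 2 = 4 ^ j x := by
    intro x
    rw [hXj, ← pow_mul, Nat.mul_comm, pow_mul]; norm_num
  have hQ4 : ∀ x, Q x = Lp x * 4 ^ j x := fun x => by simp only [Q]; rw [h4j]
  have hQL : ∀ x, Lp x ≤ Q x := fun x => by
    rw [hQ4]; exact Nat.le_mul_of_pos_right _ (by positivity)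
  have hn : ∀ x, 0 < n x := by
    intro x
    have h1 : 2 * Q x ≤ j x * Q x := Nat.mul_le_mul_right _ (hj2 x)
    have h2 := hQL x
    have h3 := hLp x
    simp only [n]; omega
  -- the clique problem
  have hcl : ∀ x, x ∈ L ↔ HasClique (X x * M.vd) (adj x) (2 ^ j x - 1) := by
    intro x
    rw [hform x (tt x) (H x) le_rfl (by simp only [H, pn]; omega), ← hXj x, Nat.add_sub_cancel]
    refine (clique_iff_run (h0 := x.length + pn x + 1) hq hkf (by simp only [H]; omega)
      (hXX0 x) ?_).symm
    intro k i w hk hini hi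
    have hpn : pn x = P.eval x.length := rfl
    by_cases hkk : k = k0
    · exact (hini.2 hkk).2.2.2 (by omega)
    · have := (hini.1 hkk).2 (by omega)
      omega
  have hthr := fun x => capacity_threshold (N := X x * M.vd) (M := Mb x) (L := Lp x) (j := j x)
    (adj := adj x) (fun a b => adjV_symm a b) (fun a => adjV_irrefl a)
    (by simp only [Mb]; omega) rfl (hj2 x) (hN1 x)
  refine ⟨fun x => patList (X x * M.vd) (posn (Mb x)) (adj x) (n x), Q,
    fun x => ⟨patList_ne_nil (hn x), patList_nodup _ _ _ _⟩, fun x => (hLp x).trans (hQL x),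
    isPr_encPat en eadj, eQ, ?_, ?_⟩
  · intro x hx
    have := (hthr x).1 ((hcl x).1 hx)
    rw [← hQ4] at this
    exact this
  · intro x hx
    have := (hthr x).2 (fun h => hx ((hcl x).2 h))
    rw [← hQ4] at this
    refine this.trans ?_
    have hLr : (2 : ℝ) ≤ Lp x := by exact_mod_cast hLp x
    have e1 : (Q x : ℝ) = Lp x * 4 ^ j x := by rw [hQ4]; push_cast; ring
    have e2 : ((Lp x * 16 ^ j x : ℕ) : ℝ) = Lp x * (4 ^ j x) ^ 2 := by
      push_cast
      rw [← pow_mul, Nat.mul_comm, pow_mul]; norm_num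
    have h3 : 2 / (Q x : ℝ) ^ 2 ≤ 1 / ((Lp x * 16 ^ j x : ℕ) : ℝ) := by
      rw [e1, e2, div_le_div_iff₀ (by positivity) (by positivity)]
      have h4 : (0 : ℝ) < (4 : ℝ) ^ j x := by positivity
      have h5 : (0 : ℝ) < ((4 : ℝ) ^ j x) ^ 2 := by positivity
      nlinarith [mul_pos (show (0:ℝ) < Lp x by linarith) h5]
    linarith

end Pool.Agent.H75
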